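import Pool.Agent.H30.PN.Df
import Pool.Agent.H73.P2.Df
import Pool.Agent.H76.PP.Tf

/-!
ROW Nc (project MP_78d38b_PPN, about 130 lines): the local hypotheses of the relative theorem for the twisted
curves.

PROOF. even_fac: `Even (ord_v D)`: `ord_v D = 2 n`; let `ϖ` be a uniformizer of `v` in `K` (`v.valuation_exists_uniformizer K`), `c = ϖ ^ n`, `u = D / c ^ 2`: `D = c^2 u`,
`v.valuation K u = 1`. Then `D^2 A = c^4 (u^2 A)`, `D^3 B = c^6 (u^3 B)`.
nice_of: `a' = u^2 A`, `b' = u^3 B` are integral at `v` (`v.valuation_le_one`), `4 a'^3 + 27 b'^2 = u^6 (4 A^3 + 27 B^2)` has the valuation of `dsc A B`. `v` does not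
divide two. If `3 ∉ v` then `6 ∉ v` (prime ideal), `dsc A B ∉ v^2` (`hF.sqf`), so its valuation is not `≤ exp (-2)`
(`HeightOneSpectrum.intValuation_le_pow_iff_mem`-like; compare how `sqf` is used in `Pool/Agent/H76/PP/Tc.lean`/`Ea.lean`), so `≥ exp (-1)` (it is not zero:
`hF.dsc_ne`). If `3 ∈ v` then `A ∉ v` (`hF.three`), `4 A^3 ∉ v`, `27 B^2 ∈ v`, so `dsc A B ∉ v`: valuation one.
noroot_of: the same `c`, `u`; for `t` integral at `v`: `t^3 + u^2 A t + u^3 B = u^3 (t'^3 + A t' + B)`, `t' = t / u` integral at `v`, valuation one by `Tf_unit`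
(`Pool/Agent/H76/PP/Tf.lean`).
-/

set_option autoImplicit false
set_option linter.unusedSectionVars false
open scoped Classical

open WithZero NumberField IsDedekindDomain H38RT H76PP
open H38T1 (SC sc scu rep eo la si Pri OddP tp unif)

namespace H30PN

/-- An element of even order is a square times a unit. -/
theorem Nc_fac {K : Type} [Field K] [NumberField K] {D : K} (hD : D ≠ 0)
    (v : HeightOneSpectrum (𝓞 K)) (hev : Even (ord (v.valuation K) D)) :
    ∃ c u : K, c ≠ 0 ∧ D = c ^ 2 * u ∧ v.valuation K u = 1 := by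
  obtain ⟨n, hn⟩ := hev
  obtain ⟨c, hc⟩ := v.valuation_surjective K (exp (-n))
  have hc0 : c ≠ 0 := by
    rintro rfl
    rw [map_zero] at hc
    exact exp_ne_zero hc.symm
  refine ⟨c, D / c ^ 2, hc0, ?_, ?_⟩
  · field_simp
  · rw [map_div₀, map_pow, hc, V_eq hD, hn, ← exp_nsmul, ← exp_sub]
    have e : (-(n + n) - 2 • -n : ℤ) = 0 := by
      rw [nsmul_eq_mul]
      push_cast
      ring
    rw [e, exp_zero]

theorem Nc_dsc {K : Type} [Field K] [NumberField K] {q₀ : HeightOneSpectrum (𝓞 K)}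
    {T : Finset (HeightOneSpectrum (𝓞 K))} {A B : 𝓞 K} (hF : Fam q₀ T A B)
    {v : HeightOneSpectrum (𝓞 K)} (h2 : (2 : 𝓞 K) ∉ v.asIdeal) :
    exp (-1 : ℤ) ≤ v.valuation K (algebraMap (𝓞 K) K (dsc A B)) := by
  have hP := v.isPrime
  by_cases h3 : (3 : 𝓞 K) ∈ v.asIdeal
  · have hA := hF.three v h3
    have hn : dsc A B ∉ v.asIdeal := by
      intro hm
      unfold dsc at hm
      have h27 : (27 : 𝓞 K) * B ^ 2 ∈ v.asIdeal := by
        have e : (27 : 𝓞 K) * B ^ 2 = (9 * B ^ 2) * 3 := by ring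
        rw [e]
        exact Ideal.mul_mem_left _ _ h3
      have h4 : (4 : 𝓞 K) * A ^ 3 ∈ v.asIdeal := (Ideal.add_mem_iff_left _ h27).1 hm
      rcases hP.mem_or_mem h4 with h | h
      · have e : (4 : 𝓞 K) = 2 * 2 := by norm_num
        rw [e] at h
        rcases hP.mem_or_mem h with h | h <;> exact h2 h
      · exact hA (hP.mem_of_pow_mem 3 h)
    rw [(v.valuation_eq_one_iff_notMem (K := K)).2 hn, ← exp_zero, exp_le_exp]
    norm_num
  · have h6 : (6 : 𝓞 K) ∉ v.asIdeal := by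
      intro h
      have e : (6 : 𝓞 K) = 2 * 3 := by norm_num
      rw [e] at h
      rcases hP.mem_or_mem h with h | h
      · exact h2 h
      · exact h3 h
    have hs := hF.sqf v h6
    by_contra hlt
    rw [not_le] at hlt
    apply hs
    rw [← v.intValuation_le_pow_iff_mem, ← v.valuation_of_algebraMap (K := K)]
    change v.valuation K (algebraMap (𝓞 K) K (dsc A B)) ≤ exp (-((2 : ℕ) : ℤ))
    by_cases h0 : v.valuation K (algebraMap (𝓞 K) K (dsc A B)) = 0
    · rw [h0]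
      exact zero_le
    · rw [← exp_log h0] at hlt ⊢
      rw [exp_lt_exp] at hlt
      rw [exp_le_exp]
      push_cast
      omega

theorem nice_of {K : Type} [Field K] [NumberField K] {q₀ : HeightOneSpectrum (𝓞 K)}
    {T : Finset (HeightOneSpectrum (𝓞 K))} {A B : 𝓞 K} (hF : Fam q₀ T A B) {D : K} (hD : D ≠ 0)
    {v : HeightOneSpectrum (𝓞 K)} (h2 : (2 : 𝓞 K) ∉ v.asIdeal)
    (hev : Even (ord (v.valuation K) D)) :
    H73P2.NiceAt v (D ^ 2 * (A : K)) (D ^ 3 * (B : K)) := by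
  obtain ⟨c, u, hc, hcu, hu⟩ := Nc_fac hD v hev
  have hint : ∀ y : 𝓞 K, v.valuation K (y : K) ≤ 1 := fun y => v.valuation_le_one y
  refine ⟨c, u ^ 2 * (A : K), u ^ 3 * (B : K), hc, ?_, ?_, ?_, ?_, ?_⟩
  · rw [hcu]
    ring
  · rw [hcu]
    ring
  · rw [map_mul, map_pow, hu, one_pow, one_mul]
    exact hint A
  · rw [map_mul, map_pow, hu, one_pow, one_mul]
    exact hint B
  · have e : 4 * (u ^ 2 * (A : K)) ^ 3 + 27 * (u ^ 3 * (B : K)) ^ 2 =
        u ^ 6 * algebraMap (𝓞 K) K (dsc A B) := by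
      unfold dsc
      rw [map_add, map_mul, map_mul, map_pow, map_pow, map_ofNat, map_ofNat]
      ring
    rw [e, map_mul, map_pow, hu, one_pow, one_mul]
    exact Nc_dsc hF h2

theorem noroot_of {K : Type} [Field K] [NumberField K] {A B : 𝓞 K} {D : K} (hD : D ≠ 0)
    {v : HeightOneSpectrum (𝓞 K)} (hv : NoRt K v A B) (hev : Even (ord (v.valuation K) D)) :
    H73P2.NoRootAt v (D ^ 2 * (A : K)) (D ^ 3 * (B : K)) := by
  obtain ⟨c, u, hc, hcu, hu⟩ := Nc_fac hD v hev
  have hu0 : u ≠ 0 := by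
    rintro rfl
    rw [map_zero] at hu
    exact zero_ne_one hu
  have hint : ∀ y : 𝓞 K, v.valuation K (y : K) ≤ 1 := fun y => v.valuation_le_one y
  refine ⟨c, u ^ 2 * (A : K), u ^ 3 * (B : K), hc, ?_, ?_, ?_, ?_, ?_⟩
  · rw [hcu]
    ring
  · rw [hcu]
    ring
  · rw [map_mul, map_pow, hu, one_pow, one_mul]
    exact hint A
  · rw [map_mul, map_pow, hu, one_pow, one_mul]
    exact hint B
  · intro t ht
    have h1 : v.valuation K (t / u) ≤ 1 := by
      rw [map_div₀, hu, div_one]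
      exact ht
    have h3 := Tf_unit v hv h1
    have e : t ^ 3 + u ^ 2 * (A : K) * t + u ^ 3 * (B : K) =
        u ^ 3 * ((t / u) ^ 3 + (A : K) * (t / u) + (B : K)) := by
      field_simp
    rw [e, map_mul, map_pow, hu, one_pow, one_mul]
    exact h3

end H30PN
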