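import Pool.Agent.H30.PN.Df

/-!
ROW Rm (project MP_78d38b_PPN, about 130 lines): a residue class of pairs without roots.

PROOF. nort_dsc: let `6 ∉ v` and `4 A^3 + 27 B^2 ∈ v`; we show that `x^3 + A x + B` has a root modulo `v`. If `A ∈ v` then `27 B^2 ∈ v`, `B ∈ v` and `t = 0` is a
root. If `A ∉ v` there is `A' ∈ 𝓞 K` with `A A' - 1 ∈ v`; `t = 3 B A'`: modulo `v`, `t^3 + A t + B ≡ 27 B^3 A'^3 + 3 B + B ≡ B A'^3 (27 B^2 + 4 A^3) ≡ 0`.
exists_class: `m = ∏ v ∈ R, v.asIdeal`, `A₀ = -1`. For `v ∈ R` the residue field `𝓞 K / v` is finite (`Ideal.finiteQuotientOfFreeOfNeBot`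
or `Nv`/`absNorm ≠ 0`) and the map `t ↦ t^3 - t` is not injective on it (`0` and `1` have the same value), so not surjective
(`Finite.injective_iff_surjective`): there is `b_v ∈ 𝓞 K` with `t^3 - t + b_v ∉ v` for all `t ∈ 𝓞 K`. Chinese remainder theorem for the different maximal
ideals `v ∈ R` (`IsDedekindDomain.exists_representative_mod_finset`, `Ideal.quotientInfRingEquivPiQuotient`, or an induction): `B₀` with
`B₀ - b_v ∈ v` for all `v ∈ R`. If `A - A₀ ∈ m` and `B - B₀ ∈ m` then `t^3 + A t + B ≡ t^3 - t + b_v` modulo `v ∈ R` (`m ≤ v`). If `m ≤ v` for a place `v` then `v ∈ R`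
(`v` is prime and contains the product, so it contains some `v' ∈ R`, both maximal: equal; `Ideal.IsPrime.prod_le`), so `2 ∉ v` by `hR`, `-1 ∉ v`, and
`dsc A₀ B₀ ∉ v` if `6 ∉ v` by nort_dsc.
-/

set_option autoImplicit false
set_option linter.unusedSectionVars false
open scoped Classical

open WithZero NumberField IsDedekindDomain H38RT H76PP
open H38T1 (SC sc scu rep eo la si Pri OddP tp unif)

namespace H30PN

theorem nort_dsc' {K : Type} [Field K] [NumberField K] {v : HeightOneSpectrum (𝓞 K)} {A B : 𝓞 K}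
    (h6 : (6 : 𝓞 K) ∉ v.asIdeal) (h : NoRt K v A B) : dsc A B ∉ v.asIdeal := by
  intro hd
  unfold dsc at hd
  have h3 : (3 : 𝓞 K) ∉ v.asIdeal := by
    intro h3
    apply h6
    have e : (6 : 𝓞 K) = 2 * 3 := by norm_num
    rw [e]
    exact Ideal.mul_mem_left _ _ h3
  by_cases hA : A ∈ v.asIdeal
  · have h1 : (3 : 𝓞 K) * (3 * (3 * (B * B))) ∈ v.asIdeal := by
      have e : (3 : 𝓞 K) * (3 * (3 * (B * B))) = (4 * A ^ 3 + 27 * B ^ 2) - (4 * A ^ 2) * A := by ring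
      rw [e]
      exact Ideal.sub_mem _ hd (Ideal.mul_mem_left _ _ hA)
    have hB : B ∈ v.asIdeal := by
      rcases v.isPrime.mem_or_mem h1 with h1 | h1
      · exact absurd h1 h3
      rcases v.isPrime.mem_or_mem h1 with h1 | h1
      · exact absurd h1 h3
      rcases v.isPrime.mem_or_mem h1 with h1 | h1
      · exact absurd h1 h3
      rcases v.isPrime.mem_or_mem h1 with h1 | h1
      · exact h1
      · exact h1
    apply h 0
    have e : (0 : 𝓞 K) ^ 3 + A * 0 + B = B := by ring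
    rw [e]
    exact hB
  · have hmax : v.asIdeal.IsMaximal := v.isMaximal
    have hd0 : Ideal.Quotient.mk v.asIdeal A ≠ 0 := fun h =>
      hA (Ideal.Quotient.eq_zero_iff_mem.1 h)
    obtain ⟨q, hq⟩ := Ideal.Quotient.exists_inv hd0
    obtain ⟨A', rfl⟩ := Ideal.Quotient.mk_surjective q
    have h1 : A * A' - 1 ∈ v.asIdeal := by
      rw [← Ideal.Quotient.eq, map_mul, hq, map_one]
    apply h (3 * B * A')
    have e : (3 * B * A') ^ 3 + A * (3 * B * A') + B = (B * A' ^ 3) * (4 * A ^ 3 + 27 * B ^ 2) -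
        (B * (4 * (A * A') ^ 2 + 4 * (A * A') + 1)) * (A * A' - 1) := by ring
    rw [e]
    exact Ideal.sub_mem _ (Ideal.mul_mem_left _ _ hd) (Ideal.mul_mem_left _ _ h1)

theorem Rm_noroot {K : Type} [Field K] [NumberField K] (v : HeightOneSpectrum (𝓞 K)) :
    ∃ b : 𝓞 K, ∀ t : 𝓞 K, t ^ 3 - t + b ∉ v.asIdeal := by
  have hmax : v.asIdeal.IsMaximal := v.isMaximal
  have : Finite (𝓞 K ⧸ v.asIdeal) := Ideal.finiteQuotientOfFreeOfNeBot v.asIdeal v.ne_bot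
  have : Nontrivial (𝓞 K ⧸ v.asIdeal) := Ideal.Quotient.nontrivial_iff.2 v.isPrime.ne_top
  let f : (𝓞 K ⧸ v.asIdeal) → (𝓞 K ⧸ v.asIdeal) := fun x => x ^ 3 - x
  have h1 : ¬ Function.Injective f := by
    intro hinj
    have h2 : f 0 = f 1 := by
      change (0 : 𝓞 K ⧸ v.asIdeal) ^ 3 - 0 = 1 ^ 3 - 1
      ring
    exact zero_ne_one (hinj h2)
  have h2 : ¬ Function.Surjective f := fun h => h1 (Finite.injective_iff_surjective.2 h)
  unfold Function.Surjective at h2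
  push Not at h2
  obtain ⟨y, hy⟩ := h2
  obtain ⟨c, rfl⟩ := Ideal.Quotient.mk_surjective y
  refine ⟨-c, fun t ht => hy (Ideal.Quotient.mk v.asIdeal t) ?_⟩
  change Ideal.Quotient.mk v.asIdeal t ^ 3 - Ideal.Quotient.mk v.asIdeal t = Ideal.Quotient.mk v.asIdeal c
  rw [← map_pow, ← map_sub, Ideal.Quotient.eq]
  have e : t ^ 3 - t - c = t ^ 3 - t + -c := by ring
  rw [e]
  exact ht

theorem exists_class {K : Type} [Field K] [NumberField K] (R : Finset (HeightOneSpectrum (𝓞 K)))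
    (hR : ∀ v ∈ R, (2 : 𝓞 K) ∉ v.asIdeal) : ∃ (m : Ideal (𝓞 K)) (A₀ B₀ : 𝓞 K), m ≠ ⊥ ∧
      (∀ v : HeightOneSpectrum (𝓞 K), m ≤ v.asIdeal → v ∈ R) ∧
      (∀ v : HeightOneSpectrum (𝓞 K), m ≤ v.asIdeal →
        ((6 : 𝓞 K) ∉ v.asIdeal → dsc A₀ B₀ ∉ v.asIdeal) ∧
        ((2 : 𝓞 K) ∈ v.asIdeal → B₀ ∉ v.asIdeal) ∧ ((3 : 𝓞 K) ∈ v.asIdeal → A₀ ∉ v.asIdeal)) ∧
      ∀ A B : 𝓞 K, A - A₀ ∈ m → B - B₀ ∈ m → ∀ v ∈ R, NoRt K v A B := by
  choose b hb using fun v : HeightOneSpectrum (𝓞 K) => Rm_noroot v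
  obtain ⟨B₀, hB₀⟩ := IsDedekindDomain.exists_forall_sub_mem_ideal (s := R)
    (fun v : HeightOneSpectrum (𝓞 K) => v.asIdeal) (fun _ => 1) (fun v _ => v.prime)
    (fun v _ w _ hne h => hne (HeightOneSpectrum.ext h)) (fun v => b v)
  have hB : ∀ v ∈ R, B₀ - b v ∈ v.asIdeal := by
    intro v hv
    have h := hB₀ v hv
    rwa [pow_one] at h
  have hle : ∀ v ∈ R, (∏ w ∈ R, w.asIdeal) ≤ v.asIdeal := fun v hv =>
    Ideal.le_of_dvd (Finset.dvd_prod_of_mem (fun w : HeightOneSpectrum (𝓞 K) => w.asIdeal) hv)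
  have hmem : ∀ v : HeightOneSpectrum (𝓞 K), (∏ w ∈ R, w.asIdeal) ≤ v.asIdeal → v ∈ R := by
    intro v hv
    obtain ⟨w, hw, hwv⟩ := (Ideal.IsPrime.prod_le v.isPrime).1 hv
    have h1 : w.asIdeal = v.asIdeal := w.isMaximal.eq_of_le v.isPrime.ne_top hwv
    have h2 : w = v := HeightOneSpectrum.ext h1
    rwa [← h2]
  have hno : ∀ A B : 𝓞 K, A - (-1) ∈ (∏ w ∈ R, w.asIdeal) → B - B₀ ∈ (∏ w ∈ R, w.asIdeal) →
      ∀ v ∈ R, NoRt K v A B := by
    intro A B hA hBm v hv t ht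
    apply hb v t
    have e : t ^ 3 - t + b v = (t ^ 3 + A * t + B) - t * (A - (-1)) - (B - B₀) - (B₀ - b v) := by
      ring
    rw [e]
    exact Ideal.sub_mem _ (Ideal.sub_mem _ (Ideal.sub_mem _ ht
      (Ideal.mul_mem_left _ _ (hle v hv hA))) (hle v hv hBm)) (hB v hv)
  refine ⟨∏ w ∈ R, w.asIdeal, -1, B₀, ?_, hmem, ?_, hno⟩
  · rw [← Ideal.zero_eq_bot, Finset.prod_ne_zero_iff]
    intro w _
    rw [Ideal.zero_eq_bot]
    exact w.ne_bot
  · intro v hv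
    have hvR := hmem v hv
    refine ⟨fun h6 => nort_dsc' h6 (hno (-1) B₀ ?_ ?_ v hvR), fun h2 => absurd h2 (hR v hvR), ?_⟩
    · rw [sub_self]
      exact Ideal.zero_mem _
    · rw [sub_self]
      exact Ideal.zero_mem _
    · intro _ h
      apply v.isPrime.ne_top
      rw [Ideal.eq_top_iff_one]
      have h1 := neg_mem h
      rwa [neg_neg] at h1

end H30PN
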