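import Pool.Agent.H93.T1.Cf

/-!
ROW Sp (project MP_78d38b_PPN, about 160 lines): infinitely many primes of `K` split completely in `N` (in the
form: `N` embeds into `K_v`).

PROOF. `N = K(α)` (`Field.exists_primitive_element`), `α ∈ 𝓞 N` (multiply by an integer); `g ∈ (𝓞 K)[X]` its minimal polynomial
(`minpoly (𝓞 K) α`, monic; over `K` it is `minpoly K α` by `minpoly.isIntegrallyClosed_eq_field_fractions`, irreducible and separable).
(1) There are infinitely many places `v` of `K` such that `g` has a root modulo `v`: let `M` be a Galois number field over `ℚ` containing `N` (e.g.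
`normalClosure ℚ N (AlgebraicClosure N)` or see `exists_bigL` in `Pool/Agent/H88/T7`), `i : N →+* M`. `H93T1.frob_inf (1 : M ≃ₐ[ℚ] M)`: for infinitely many primes `p` there
is a place `w` of `M` above `p` with `x - x ^ p ∈ w` for all `x ∈ 𝓞 M` (`1 ^ j = 1`). For `x = i α`: its class in the field `𝓞 M / w` (characteristic `p`) is a root of
`X ^ p - X`, whose `p` roots are the classes of the integers `0, ..., p - 1`, so `i α - n ∈ w` for an integer `n`, and `g(n) - g(α) ∈ w`, so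
`g(n) ∈ w ∩ 𝓞 K = v`, where `v` is the place of `K` below `w`. `v` lies above `p`, so there are infinitely many such `v`.
(2) Remove the finitely many `v` which contain `D`, where `D ∈ 𝓞 K`, `D ≠ 0`, `U g + V g' = D` (separable over `K`, clear denominators; finitely many places contain a
nonzero element). For the others `g(n) ∈ v`, `g'(n) ∉ v`, so by Hensel's lemma in the complete discrete valuation ring
`v.adicCompletionIntegers K` (`HenselianLocalRing`, `IsAdicComplete.henselianRing`, or Newton's iteration by hand in the complete field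
`v.adicCompletion K`: `x_{m+1} = x_m - g(x_m) / g'(x_m)`, `v (g(x_m)) ≤ exp (-2^m)`, a Cauchy sequence) `g` has a root `β` in `K_v`.
(3) `K(α) = N ≅ K[X] / (g)`: `PowerBasis.lift` / `IntermediateField.adjoin` / `AdjoinRoot` gives a `K`-homomorphism `N → K_v`, `α ↦ β`.
-/

set_option autoImplicit false
set_option linter.unusedSectionVars false
open scoped Classical

open NumberField IsDedekindDomain WithZero Topology Filter

namespace H30PN

section Hensel

variable {F : Type*} [Field F] [Valued F (WithZero (Multiplicative ℤ))]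

/-- the ring of integers -/
abbrev Sp_O (F : Type*) [Field F] [Valued F (WithZero (Multiplicative ℤ))] : Subring F :=
  (Valued.v : Valuation F (WithZero (Multiplicative ℤ))).integer

/-- one step of Newton's iteration -/
noncomputable def Sp_N (f : Polynomial (Sp_O F)) (x : Sp_O F) : Sp_O F :=
  x + -(f.eval x * Ring.inverse (f.derivative.eval x))

lemma Sp_unit (x : Sp_O F) : IsUnit x ↔ Valued.v (x : F) = 1 :=
  (Valuation.integer.integers (Valued.v : Valuation F _)).isUnit_iff_valuation_eq_one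

lemma Sp_le (x : Sp_O F) : Valued.v (x : F) ≤ 1 := x.2

lemma Sp_step (f : Polynomial (Sp_O F)) (x : Sp_O F) {n : ℕ}
    (h0 : Valued.v ((f.eval x : Sp_O F) : F) ≤ exp (-((n + 1 : ℕ) : ℤ)))
    (h1 : IsUnit (f.derivative.eval x)) :
    Valued.v ((f.eval (Sp_N f x) : Sp_O F) : F) ≤ exp (-((n + 2 : ℕ) : ℤ)) ∧
      IsUnit (f.derivative.eval (Sp_N f x)) ∧
      Valued.v ((Sp_N f x : F) - (x : F)) ≤ exp (-((n + 1 : ℕ) : ℤ)) := by
  obtain ⟨d, hd⟩ : ∃ d : Sp_O F, d = -(f.eval x * Ring.inverse (f.derivative.eval x)) := ⟨_, rfl⟩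
  have hN : Sp_N f x = x + d := by rw [hd]; rfl
  have hdv : Valued.v (d : F) ≤ exp (-((n + 1 : ℕ) : ℤ)) := by
    rw [hd]
    push_cast
    rw [Valuation.map_neg, map_mul]
    calc Valued.v ((f.eval x : Sp_O F) : F) * Valued.v ((Ring.inverse (f.derivative.eval x) : Sp_O F) : F)
        ≤ exp (-((n + 1 : ℕ) : ℤ)) * 1 := mul_le_mul' h0 (Sp_le _)
      _ = _ := by rw [mul_one]; push_cast; rfl
  have hlt : (exp (-((n + 1 : ℕ) : ℤ)) : WithZero (Multiplicative ℤ)) < 1 := by
    rw [← exp_zero, exp_lt_exp]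
    push_cast
    omega
  have hdiff : Valued.v ((Sp_N f x : F) - (x : F)) ≤ exp (-((n + 1 : ℕ) : ℤ)) := by
    rw [hN]
    push_cast
    rw [add_sub_cancel_left]
    exact_mod_cast hdv
  refine ⟨?_, ?_, hdiff⟩
  · obtain ⟨k, hk⟩ := f.binomExpansion x d
    have h2 : f.eval x + f.derivative.eval x * d = 0 := by
      rw [hd, mul_neg, mul_left_comm, Ring.mul_inverse_cancel _ h1, mul_one, add_neg_cancel]
    rw [h2, zero_add] at hk
    rw [hN, hk]
    push_cast
    rw [map_mul, map_pow]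
    calc Valued.v (k : F) * Valued.v (d : F) ^ 2
        ≤ 1 * exp (-((n + 1 : ℕ) : ℤ)) ^ 2 := mul_le_mul' (Sp_le _) (pow_le_pow_left' hdv 2)
      _ ≤ _ := by
        rw [one_mul, ← exp_nsmul, exp_le_exp]
        rw [nsmul_eq_mul]
        push_cast
        omega
  · rw [Sp_unit] at h1 ⊢
    obtain ⟨q, hq⟩ := Polynomial.sub_dvd_eval_sub (Sp_N f x) x f.derivative
    have h3 : Valued.v (((f.derivative.eval (Sp_N f x) - f.derivative.eval x : Sp_O F)) : F) < 1 := by
      rw [hq]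
      push_cast
      rw [map_mul]
      calc Valued.v ((Sp_N f x : F) - (x : F)) * Valued.v (q : F)
          ≤ exp (-((n + 1 : ℕ) : ℤ)) * 1 := mul_le_mul' hdiff (Sp_le _)
        _ < 1 := by rw [mul_one]; exact hlt
    have h4 : ((f.derivative.eval (Sp_N f x) : Sp_O F) : F) = ((f.derivative.eval x : Sp_O F) : F) +
        (((f.derivative.eval (Sp_N f x) - f.derivative.eval x : Sp_O F)) : F) := by
      push_cast
      ring
    rw [h4, Valuation.map_add_eq_of_lt_left, h1]
    rw [h1]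
    exact h3

theorem Sp_hensel [CompleteSpace F] (f : Polynomial (Sp_O F)) (a : Sp_O F)
    (h0 : Valued.v ((f.eval a : Sp_O F) : F) < 1)
    (h1 : Valued.v ((f.derivative.eval a : Sp_O F) : F) = 1) :
    ∃ t : F, (f.map (Sp_O F).subtype).eval t = 0 := by
  obtain ⟨x, hx⟩ : ∃ x : ℕ → Sp_O F, x = fun n => (Sp_N f)^[n] a := ⟨_, rfl⟩
  have hx0 : x 0 = a := by rw [hx]; rfl
  have hxs : ∀ n, x (n + 1) = Sp_N f (x n) := by
    intro n
    rw [hx]
    exact Function.iterate_succ_apply' _ _ _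
  have key : ∀ n, Valued.v ((f.eval (x n) : Sp_O F) : F) ≤ exp (-((n + 1 : ℕ) : ℤ)) ∧
      IsUnit (f.derivative.eval (x n)) := by
    intro n
    induction n with
    | zero =>
      rw [hx0, Sp_unit]
      refine ⟨?_, h1⟩
      rcases eq_or_ne (Valued.v ((f.eval a : Sp_O F) : F)) 0 with h2 | h2
      · rw [h2]
        exact zero_le
      · rw [← exp_log h2, ← exp_zero, exp_lt_exp] at h0
        rw [← exp_log h2, exp_le_exp]
        push_cast
        omega
    | succ n ih =>
      obtain ⟨h2, h3, _⟩ := Sp_step f (x n) ih.1 ih.2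
      rw [hxs]
      exact ⟨h2, h3⟩
  have hstep : ∀ n, Valued.v ((x (n + 1) : F) - (x n : F)) ≤ exp (-((n + 1 : ℕ) : ℤ)) := by
    intro n
    rw [hxs]
    exact (Sp_step f (x n) (key n).1 (key n).2).2.2
  have hsub : ∀ n k, Valued.v ((x (n + k) : F) - (x n : F)) ≤ exp (-((n + 1 : ℕ) : ℤ)) := by
    intro n k
    induction k with
    | zero => rw [add_zero, sub_self, map_zero]; exact zero_le
    | succ k ih =>
      have e : (x (n + (k + 1)) : F) - (x n : F) =
          ((x (n + k + 1) : F) - (x (n + k) : F)) + ((x (n + k) : F) - (x n : F)) := by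
        rw [← add_assoc]; ring
      rw [e]
      refine (Valuation.map_add _ _ _).trans (max_le ((hstep _).trans ?_) ih)
      rw [exp_le_exp]
      push_cast
      omega
  have hcau : CauchySeq (fun n => (x n : F)) := by
    rw [CauchySeq, Valued.cauchy_iff]
    refine ⟨inferInstance, fun γ => ?_⟩
    obtain ⟨N, hN⟩ := exists_exp_neg_natCast_lt
      (x := MonoidWithZeroHom.ValueGroup₀.embedding γ.1) (by simp)
    refine ⟨(fun n => (x n : F)) '' Set.Ici N,
      Filter.image_mem_map (Filter.Ici_mem_atTop N), ?_⟩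
    rintro _ ⟨m, hm, rfl⟩ _ ⟨n, hn, rfl⟩
    rw [Valuation.restrict_lt_iff_lt_embedding]
    refine lt_of_le_of_lt ?_ hN
    have h1 := hsub N (m - N)
    have h2 := hsub N (n - N)
    rw [Nat.add_sub_cancel' hm] at h1
    rw [Nat.add_sub_cancel' hn] at h2
    have e : (x n : F) - (x m : F) = ((x n : F) - (x N : F)) - ((x m : F) - (x N : F)) := by ring
    show Valued.v ((x n : F) - (x m : F)) ≤ _
    rw [e]
    refine (Valuation.map_sub _ _ _).trans (max_le (h2.trans ?_) (h1.trans ?_)) <;>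
    · rw [exp_le_exp]; push_cast; omega
  obtain ⟨t, ht⟩ := cauchySeq_tendsto_of_complete hcau
  refine ⟨t, ?_⟩
  obtain ⟨g, hg⟩ : ∃ g : Polynomial F, g = f.map (Sp_O F).subtype := ⟨_, rfl⟩
  rw [← hg]
  by_contra hne
  have hgx : ∀ n, g.eval (x n : F) = ((f.eval (x n) : Sp_O F) : F) := by
    intro n
    rw [hg, Polynomial.eval_map]
    exact Polynomial.eval₂_at_apply (Sp_O F).subtype (x n)
  have h2 : Tendsto (fun n => g.eval (x n : F) / g.eval t) atTop (𝓝 1) := by
    have h3 := ((g.continuous.tendsto t).comp ht).div_const (g.eval t)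
    rw [div_self hne] at h3
    exact h3
  have hnb : {z : F | Valued.v.restrict (z - 1) < 1} ∈ 𝓝 (1 : F) := by
    rw [Valued.mem_nhds]
    exact ⟨1, by intro z hz; simpa using hz⟩
  have hc : Valued.v (g.eval t) ≠ 0 := (Valuation.ne_zero_iff _).2 hne
  obtain ⟨N, hN⟩ := exists_exp_neg_natCast_lt (x := Valued.v (g.eval t)) hc
  obtain ⟨n, hn, hnN⟩ := ((h2.eventually hnb).and (eventually_ge_atTop N)).exists
  have hn1 : Valued.v (g.eval (x n : F) / g.eval t - 1) < 1 := by
    have hn' : Valued.v.restrict (g.eval (x n : F) / g.eval t - 1) < 1 := hn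
    rwa [Valuation.restrict_lt_one_iff] at hn'
  have h4 : Valued.v (g.eval (x n : F) / g.eval t) = 1 := by
    have e : g.eval (x n : F) / g.eval t = 1 + (g.eval (x n : F) / g.eval t - 1) := by ring
    rw [e, Valuation.map_add_eq_of_lt_left, map_one]
    rw [map_one]
    exact hn1
  rw [map_div₀, div_eq_one_iff_eq hc, hgx] at h4
  have h5 := (key n).1
  rw [h4] at h5
  have h6 := lt_of_le_of_lt h5 (lt_of_le_of_lt (b := exp (-(N : ℤ))) (by
    rw [exp_le_exp]; push_cast; omega) hN)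
  exact lt_irrefl _ h6

end Hensel

section Pieces

lemma Sp_big (N : Type) [Field N] [NumberField N] :
    ∃ (M : Type) (_ : Field M) (_ : NumberField M) (_ : IsGalois ℚ M), Nonempty (N →+* M) := by
  let Ω := AlgebraicClosure ℚ
  have halg : Algebra.IsAlgebraic ℚ Ω := AlgebraicClosure.isAlgebraic ℚ
  have hcl : IsAlgClosure ℚ Ω := ⟨inferInstance, halg⟩
  have hnΩ : Normal ℚ Ω := IsAlgClosure.normal ℚ Ω
  let M : IntermediateField ℚ Ω := IntermediateField.normalClosure ℚ N Ω
  have hMf : FiniteDimensional ℚ M := normalClosure.is_finiteDimensional ℚ N Ω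
  have hMn : Normal ℚ M := normalClosure.normal ℚ N Ω
  let hNF : NumberField M := { to_charZero := inferInstance, to_finiteDimensional := hMf }
  let σ : N →ₐ[ℚ] Ω := IsAlgClosed.lift
  have hσ : ∀ x, σ x ∈ M := fun x => AlgHom.fieldRange_le_normalClosure σ ⟨x, rfl⟩
  refine ⟨M, inferInstance, hNF, { to_isSeparable := inferInstance, to_normal := hMn }, ⟨?_⟩⟩
  exact RingHom.codRestrict σ.toRingHom M hσ

/-- an element congruent to its `p`-th power is congruent to an integer -/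
lemma Sp_int {M : Type} [Field M] [NumberField M] (w : HeightOneSpectrum (𝓞 M)) {p : ℕ}
    (hp : p.Prime) (hpw : (p : 𝓞 M) ∈ w.asIdeal) {x : 𝓞 M} (hx : x - x ^ p ∈ w.asIdeal) :
    ∃ n : ℤ, (n : 𝓞 M) - x ∈ w.asIdeal := by
  have : Fact p.Prime := ⟨hp⟩
  have hmax : w.asIdeal.IsMaximal := w.isMaximal
  let _ : Field (𝓞 M ⧸ w.asIdeal) := Ideal.Quotient.field w.asIdeal
  have hchar : CharP (𝓞 M ⧸ w.asIdeal) p := by
    refine (CharP.charP_iff_prime_eq_zero hp).2 ?_
    have h1 := Ideal.Quotient.eq_zero_iff_mem.2 hpw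
    rwa [map_natCast] at h1
  have h2 : (Ideal.Quotient.mk w.asIdeal x) ^ p = Ideal.Quotient.mk w.asIdeal x := by
    have h3 := Ideal.Quotient.eq_zero_iff_mem.2 hx
    rw [map_sub, map_pow, sub_eq_zero] at h3
    exact h3.symm
  have h3 := (Subfield.mem_bot_iff_pow_eq_self (𝓞 M ⧸ w.asIdeal) p).2 h2
  obtain ⟨n, hn⟩ := (mem_bot_iff_intCast p (𝓞 M ⧸ w.asIdeal)).1 h3
  refine ⟨n, ?_⟩
  rw [← Ideal.Quotient.eq_zero_iff_mem, map_sub, map_intCast, hn, sub_self]

lemma Sp_gen (K N : Type) [Field K] [NumberField K] [Field N] [NumberField N] [Algebra K N] :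
    ∃ a : 𝓞 N, IntermediateField.adjoin K {(a : N)} = ⊤ := by
  obtain ⟨α, hα⟩ := Field.exists_primitive_element K N
  obtain ⟨y, hy, hint⟩ := ((IsFractionRing.isAlgebraic_iff ℤ ℚ N).2
    (Algebra.IsAlgebraic.isAlgebraic α)).exists_integral_multiple
  refine ⟨⟨y • α, hint⟩, ?_⟩
  rw [eq_top_iff, ← hα, IntermediateField.adjoin_le_iff, Set.singleton_subset_iff]
  have h1 : y • α ∈ IntermediateField.adjoin K {y • α} :=
    IntermediateField.mem_adjoin_simple_self K _
  have hyN : ((y : ℤ) : N) ≠ 0 := Int.cast_ne_zero.2 hy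
  have h2 : α = ((y : ℤ) : N)⁻¹ * (y • α) := by
    rw [zsmul_eq_mul, ← mul_assoc, inv_mul_cancel₀ hyN, one_mul]
  have h3 : ((y : ℤ) : N) ∈ IntermediateField.adjoin K {y • α} := intCast_mem _ _
  have h4 := mul_mem (inv_mem h3) h1
  rw [← h2] at h4
  exact h4

/-- a root gives an embedding -/
lemma Sp_emb {K N F : Type} [Field K] [NumberField K] [Field N] [NumberField N] [Algebra K N]
    [Field F] [Algebra K F] {α : N} (hα : IntermediateField.adjoin K {α} = ⊤) {t : F}
    (ht : Polynomial.aeval t (minpoly K α) = 0) :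
    ∃ ι : N →+* F, ∀ x : K, ι (algebraMap K N x) = algebraMap K F x := by
  have hint : IsIntegral K α := Algebra.IsIntegral.isIntegral α
  let pb := IntermediateField.adjoin.powerBasis hint
  have hpb : Polynomial.aeval t (minpoly K pb.gen) = 0 := by
    have e : minpoly K pb.gen = minpoly K α := by
      show minpoly K (IntermediateField.AdjoinSimple.gen K α) = _
      rw [IntermediateField.minpoly_gen]
    rw [e]
    exact ht
  let φ : N →ₐ[K] F := ((pb.lift t hpb).comp
    (IntermediateField.equivOfEq hα).symm.toAlgHom).comp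
    (IntermediateField.topEquiv (F := K) (E := N)).symm.toAlgHom
  exact ⟨φ.toRingHom, fun x => φ.commutes x⟩

end Pieces

/-- the polynomial has a root modulo a place of `K` above a prime which splits completely in `M` -/
lemma Sp_root {K N M : Type} [Field K] [NumberField K] [Field N] [NumberField N] [Algebra K N]
    [Field M] [NumberField M] (i : N →+* M) (a : 𝓞 N) {p : ℕ} (hp : p.Prime)
    (w : HeightOneSpectrum (𝓞 M)) (hpw : (p : 𝓞 M) ∈ w.asIdeal)
    (hw : ∀ x : 𝓞 M, x - x ^ p ∈ w.asIdeal) :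
    ∃ v : HeightOneSpectrum (𝓞 K), (p : 𝓞 K) ∈ v.asIdeal ∧
      ∃ n : 𝓞 K, (minpoly (𝓞 K) a).eval n ∈ v.asIdeal := by
  obtain ⟨φ, hφ⟩ : ∃ φ : 𝓞 N →+* 𝓞 M, φ = RingOfIntegers.mapRingHom i := ⟨_, rfl⟩
  obtain ⟨ψ, hψ⟩ : ∃ ψ : 𝓞 K →+* 𝓞 M, ψ = φ.comp (algebraMap (𝓞 K) (𝓞 N)) := ⟨_, rfl⟩
  have hprime : w.asIdeal.IsPrime := w.isPrime
  have hpc : (p : 𝓞 K) ∈ w.asIdeal.comap ψ := by
    rw [Ideal.mem_comap, map_natCast]
    exact hpw
  have hne : w.asIdeal.comap ψ ≠ ⊥ := by
    intro h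
    rw [h, Ideal.mem_bot] at hpc
    have h1 : (p : 𝓞 K) ≠ 0 := Nat.cast_ne_zero.2 hp.ne_zero
    exact h1 hpc
  refine ⟨⟨w.asIdeal.comap ψ, inferInstance, hne⟩, hpc, ?_⟩
  obtain ⟨n, hn⟩ := Sp_int w hp hpw (hw (φ a))
  refine ⟨(n : 𝓞 K), ?_⟩
  show ψ ((minpoly (𝓞 K) a).eval (n : 𝓞 K)) ∈ w.asIdeal
  have h1 : ((minpoly (𝓞 K) a).map ψ).eval (φ a) = 0 := by
    rw [Polynomial.eval_map, hψ, ← Polynomial.hom_eval₂]
    have h2 := minpoly.aeval (𝓞 K) a
    rw [Polynomial.aeval_def] at h2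
    rw [h2, map_zero]
  have h2 : ((minpoly (𝓞 K) a).map ψ).eval (n : 𝓞 M) = ψ ((minpoly (𝓞 K) a).eval (n : 𝓞 K)) := by
    rw [Polynomial.eval_map, ← Polynomial.eval₂_at_apply, map_intCast]
  have h3 := Polynomial.sub_dvd_eval_sub (n : 𝓞 M) (φ a) ((minpoly (𝓞 K) a).map ψ)
  rw [h1, h2, sub_zero] at h3
  exact w.asIdeal.mem_of_dvd h3 hn

/-- for almost all places a root modulo `v` gives a root in the completion -/
lemma Sp_lift {K N : Type} [Field K] [NumberField K] [Field N] [NumberField N] [Algebra K N]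
    (a : 𝓞 N) : ∃ B : Set (HeightOneSpectrum (𝓞 K)), B.Finite ∧ ∀ v, v ∉ B → ∀ n : 𝓞 K,
      (minpoly (𝓞 K) a).eval n ∈ v.asIdeal →
      ∃ t : v.adicCompletion K, Polynomial.aeval t (minpoly K (a : N)) = 0 := by
  have hint : IsIntegral (𝓞 K) a := Algebra.IsIntegral.isIntegral a
  have hmp : minpoly K (a : N) = (minpoly (𝓞 K) a).map (algebraMap (𝓞 K) K) :=
    minpoly.isIntegrallyClosed_eq_field_fractions K N hint
  have hsep : (minpoly K (a : N)).Separable :=
    (minpoly.irreducible (Algebra.IsIntegral.isIntegral (R := K) (a : N))).separable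
  obtain ⟨P, Q, hPQ⟩ := hsep
  obtain ⟨g, hg⟩ : ∃ g, g = minpoly (𝓞 K) a := ⟨_, rfl⟩
  rw [← hg] at hmp ⊢
  let B : Set (HeightOneSpectrum (𝓞 K)) :=
    (⋃ i ∈ P.support, HeightOneSpectrum.Support (𝓞 K) (P.coeff i)) ∪
      (⋃ i ∈ Q.support, HeightOneSpectrum.Support (𝓞 K) (Q.coeff i))
  have hB : B.Finite := by
    refine Set.Finite.union ?_ ?_
    · exact Set.Finite.biUnion (Finset.finite_toSet _)
        fun i _ => HeightOneSpectrum.Support.finite (𝓞 K) _
    · exact Set.Finite.biUnion (Finset.finite_toSet _)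
        fun i _ => HeightOneSpectrum.Support.finite (𝓞 K) _
  refine ⟨B, hB, fun v hv n hn => ?_⟩
  have hcoef : ∀ R : Polynomial K, (∀ i ∈ R.support, v.valuation K (R.coeff i) ≤ 1) →
      ∀ x : 𝓞 K, v.valuation K (R.eval (x : K)) ≤ 1 := by
    intro R hR x
    rw [Polynomial.eval_eq_sum, Polynomial.sum_def]
    refine Valuation.map_sum_le _ fun i hi => ?_
    rw [map_mul, map_pow]
    exact mul_le_one' (hR i hi) (pow_le_one' (v.valuation_le_one x) i)
  have hP : v.valuation K (P.eval (n : K)) ≤ 1 := by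
    refine hcoef P (fun i hi => ?_) n
    by_contra hcon
    push Not at hcon
    exact hv (Or.inl (Set.mem_biUnion hi hcon))
  have hQ : v.valuation K (Q.eval (n : K)) ≤ 1 := by
    refine hcoef Q (fun i hi => ?_) n
    by_contra hcon
    push Not at hcon
    exact hv (Or.inr (Set.mem_biUnion hi hcon))
  have hev : ∀ R : Polynomial (𝓞 K), (R.map (algebraMap (𝓞 K) K)).eval (n : K) = ((R.eval n : 𝓞 K) : K) := by
    intro R
    rw [Polynomial.eval_map]
    exact Polynomial.eval₂_at_apply (algebraMap (𝓞 K) K) n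
  have h0 : v.valuation K ((g.eval n : 𝓞 K) : K) < 1 := (v.valuation_lt_one_iff_mem _).2 hn
  have h1 : v.valuation K ((g.derivative.eval n : 𝓞 K) : K) = 1 := by
    refine le_antisymm (v.valuation_le_one _) ?_
    by_contra hcon
    push Not at hcon
    have h2 := congrArg (Polynomial.eval (n : K)) hPQ
    rw [hmp, Polynomial.derivative_map, Polynomial.eval_add, Polynomial.eval_mul,
      Polynomial.eval_mul, hev, hev, Polynomial.eval_one] at h2
    have h3 : v.valuation K (1 : K) < 1 := by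
      rw [← h2]
      refine Valuation.map_add_lt _ ?_ ?_
      · rw [map_mul]
        exact mul_lt_one_of_nonneg_of_lt_one_right hP zero_le h0
      · rw [map_mul]
        exact mul_lt_one_of_nonneg_of_lt_one_right hQ zero_le hcon
    rw [map_one] at h3
    exact lt_irrefl _ h3
  have hval : ∀ x : 𝓞 K, Valued.v (algebraMap K (v.adicCompletion K) (x : K)) = v.valuation K (x : K) :=
    fun x => v.valuedAdicCompletion_eq_valuation' (x : K)
  obtain ⟨θ, hθ⟩ : ∃ θ : 𝓞 K →+* Sp_O (v.adicCompletion K), ∀ x, ((θ x : Sp_O _) : v.adicCompletion K) =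
      algebraMap K (v.adicCompletion K) (x : K) :=
    ⟨RingHom.codRestrict ((algebraMap K (v.adicCompletion K)).comp (algebraMap (𝓞 K) K)) (Sp_O _)
      (fun x => by
        show Valued.v (algebraMap K (v.adicCompletion K) (x : K)) ≤ 1
        rw [hval]
        exact v.valuation_le_one x), fun x => rfl⟩
  have hθe : ∀ R : Polynomial (𝓞 K), (R.map θ).eval (θ n) = θ (R.eval n) := by
    intro R
    rw [Polynomial.eval_map, Polynomial.eval₂_at_apply]
  obtain ⟨t, ht⟩ := Sp_hensel (g.map θ) (θ n) (by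
      rw [hθe, hθ, hval]
      exact h0) (by
      rw [Polynomial.derivative_map, hθe, hθ, hval]
      exact h1)
  refine ⟨t, ?_⟩
  rw [hmp, Polynomial.aeval_def, Polynomial.eval₂_map]
  rw [Polynomial.eval_map, Polynomial.eval₂_map] at ht
  have e : (Sp_O (v.adicCompletion K)).subtype.comp θ =
      (algebraMap K (v.adicCompletion K)).comp (algebraMap (𝓞 K) K) := RingHom.ext fun x => hθ x
  rw [e] at ht
  exact ht

theorem split_inf (K N : Type) [Field K] [NumberField K] [Field N] [NumberField N] [Algebra K N] :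
    {v : HeightOneSpectrum (𝓞 K) | ∃ ι : N →+* v.adicCompletion K, ∀ x : K,
      ι (algebraMap K N x) = algebraMap K (v.adicCompletion K) x}.Infinite := by
  obtain ⟨M, _, _, _, ⟨i⟩⟩ := Sp_big N
  obtain ⟨a, ha⟩ := Sp_gen K N
  obtain ⟨B, hB, hlift⟩ := Sp_lift (K := K) a
  have hinf := H93T1.frob_inf (1 : M ≃ₐ[ℚ] M)
  have hv : ∀ p ∈ {p : ℕ | p.Prime ∧ ∃ (j : ℕ) (w : HeightOneSpectrum (𝓞 M)),
      j.Coprime (orderOf (1 : M ≃ₐ[ℚ] M)) ∧ (p : 𝓞 M) ∈ w.asIdeal ∧
      ∀ x : 𝓞 M, ((1 : M ≃ₐ[ℚ] M) ^ j) • x - x ^ p ∈ w.asIdeal},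
      ∃ v : HeightOneSpectrum (𝓞 K), (p : 𝓞 K) ∈ v.asIdeal ∧
        ∃ n : 𝓞 K, (minpoly (𝓞 K) a).eval n ∈ v.asIdeal := by
    rintro p ⟨hp, j, w, -, hpw, hw⟩
    refine Sp_root i a hp w hpw fun x => ?_
    have h1 := hw x
    rwa [one_pow, one_smul] at h1
  obtain ⟨p₀, hp₀⟩ := hinf.nonempty
  obtain ⟨v₀, -⟩ := hv p₀ hp₀
  have hne : Nonempty (HeightOneSpectrum (𝓞 K)) := ⟨v₀⟩
  choose! v hv1 hv2 using hv
  have hinj : Set.InjOn v {p : ℕ | p.Prime ∧ ∃ (j : ℕ) (w : HeightOneSpectrum (𝓞 M)),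
      j.Coprime (orderOf (1 : M ≃ₐ[ℚ] M)) ∧ (p : 𝓞 M) ∈ w.asIdeal ∧
      ∀ x : 𝓞 M, ((1 : M ≃ₐ[ℚ] M) ^ j) • x - x ^ p ∈ w.asIdeal} := by
    intro p hp q hq hpq
    by_contra hne
    have h1 := hv1 p hp
    have h2 := hv1 q hq
    rw [← hpq] at h2
    have hc : IsCoprime (p : ℤ) (q : ℤ) :=
      Nat.isCoprime_iff_coprime.2 ((Nat.coprime_primes hp.1 hq.1).2 hne)
    obtain ⟨x, y, hxy⟩ := hc
    have h3 : (x : 𝓞 K) * (p : 𝓞 K) + (y : 𝓞 K) * (q : 𝓞 K) = 1 := by
      have h4 := congrArg (Int.cast : ℤ → 𝓞 K) hxy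
      push_cast at h4
      exact h4
    have h5 : (1 : 𝓞 K) ∈ (v p).asIdeal := by
      rw [← h3]
      exact (v p).asIdeal.add_mem ((v p).asIdeal.mul_mem_left _ h1)
        ((v p).asIdeal.mul_mem_left _ h2)
    exact (v p).isPrime.ne_top ((Ideal.eq_top_iff_one _).2 h5)
  refine ((hinf.image hinj).diff hB).mono ?_
  rintro _ ⟨⟨p, hp, rfl⟩, hpB⟩
  obtain ⟨n, hn⟩ := hv2 p hp
  obtain ⟨t, ht⟩ := hlift _ hpB n hn
  exact Sp_emb ha ht

end H30PN
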