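import Pool.Agent.H30.PN.Bi
import Pool.Agent.H30.PN.Rm
import Pool.Agent.H30.PN.Nc
import Pool.Agent.H30.PN.Sp
import Pool.Agent.H30.PN.Cn
import Pool.Agent.H73.P2.Rl
import Pool.Agent.H76.PP.Ze
import Pool.Agent.H36.MT.Tc

/-!
Final assembly of the project MP_78d38b_PPN (no row): a 2-extension `N / K` (or a finite set `R` of ramified
primes and an infinite set `Z` of primes) given in advance.
-/

set_option autoImplicit false
set_option linter.unusedSectionVars false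
open scoped Classical

open WithZero NumberField IsDedekindDomain H38RT H76PP
open H38T1 (SC sc scu rep eo la si Pri OddP tp unif)

namespace H30PN

/-- `N / K` is a Galois extension whose degree is a power of two, every ramified prime lies above `R` or
above two, and the primes of `S` and the primes above two split completely (`N` embeds into `K_v`). -/
structure AdmN (K : Type) {N : Type} [Field K] [NumberField K] [Field N] [NumberField N]
    [Algebra K N] (R S : Finset (HeightOneSpectrum (𝓞 K))) : Prop where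
  gal : IsGalois K N
  two : ∃ r : ℕ, Module.finrank K N = 2 ^ r
  ram : ∀ V : HeightOneSpectrum (𝓞 N), (2 : 𝓞 K) ∉ (dn K V).asIdeal → H73P2.Ram K V → dn K V ∈ R
  spl : ∀ v : HeightOneSpectrum (𝓞 K), (v ∈ S ∨ (2 : 𝓞 K) ∈ v.asIdeal) →
    ∃ ι : N →+* v.adicCompletion K, ∀ x : K,
      ι (algebraMap K N x) = algebraMap K (v.adicCompletion K) x

/-- The curve attached to the pair has finitely many points and no two-primary Tate-Shafarevich group over
all the fields between `K` and the admissible fields `N`. -/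
def GoodN (K : Type) [Field K] [NumberField K] (R S : Finset (HeightOneSpectrum (𝓞 K)))
    (p : 𝓞 K × 𝓞 K) : Prop :=
  4 * p.1 ^ 3 + 27 * p.2 ^ 2 ≠ 0 ∧
    ∀ (N : Type) [Field N] [NumberField N] [Algebra K N], AdmN K (N := N) R S →
      ∀ M : IntermediateField K N,
        Finite (⟨0, 0, 0, algebraMap K M p.1, algebraMap K M p.2⟩ :
          WeierstrassCurve M).toAffine.Point ∧
        Pool.Agent.H10.Sha2Trivial M
          (⟨0, 0, 0, algebraMap K M p.1, algebraMap K M p.2⟩ : WeierstrassCurve M)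

variable {K : Type} [Field K] [NumberField K]

theorem two_iff {v : HeightOneSpectrum (𝓞 K)} : v.valuation K 2 < 1 ↔ (2 : 𝓞 K) ∈ v.asIdeal := by
  have h := v.valuation_lt_one_iff_mem (K := K) (2 : 𝓞 K)
  have e : algebraMap (𝓞 K) K 2 = 2 := map_ofNat (algebraMap (𝓞 K) K) 2
  constructor
  · intro h1
    refine h.1 ?_
    change v.valuation K (algebraMap (𝓞 K) K 2) < 1
    rw [e]
    exact h1
  · intro h1
    rw [← e]
    exact h.2 h1

theorem ordSub : H73P2.OrdSub := by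
  intro k L _ _ _ _ _ a b θ h v ha hb hd x hx hfx
  exact H36MT.ord_sub_loc h ha hb hd hx hfx

theorem six_imp {v : HeightOneSpectrum (𝓞 K)} (h6 : (6 : 𝓞 K) ∉ v.asIdeal) :
    (2 : 𝓞 K) ∉ v.asIdeal := by
  intro h
  apply h6
  have : (6 : 𝓞 K) = 3 * 2 := by norm_num
  rw [this]
  exact v.asIdeal.mul_mem_left _ h

/-- the set of the primes above two -/
theorem exists_P2 (K : Type) [Field K] [NumberField K] :
    ∃ P : Finset (HeightOneSpectrum (𝓞 K)), ∀ v, v ∈ P ↔ (2 : 𝓞 K) ∈ v.asIdeal := by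
  have h : {v : HeightOneSpectrum (𝓞 K) | (2 : 𝓞 K) ∈ v.asIdeal}.Finite := by
    refine (H36PP.six_fin K).subset fun v hv => ?_
    have h6 : (6 : 𝓞 K) = 3 * 2 := by norm_num
    change (6 : 𝓞 K) ∈ v.asIdeal
    rw [h6]
    exact v.asIdeal.mul_mem_left _ hv
  exact ⟨h.toFinset, fun v => h.mem_toFinset⟩

/-- A member of the family which is not bad has a good twist. -/
theorem good_of {q₀ : HeightOneSpectrum (𝓞 K)} {T R : Finset (HeightOneSpectrum (𝓞 K))}
    (hq : q₀ ∉ R) (hTR : ∀ v ∈ T, v ∉ R)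
    (hR : ∀ v ∈ R, (2 : 𝓞 K) ∉ v.asIdeal) (hT : ∀ v ∈ T, AuxP q₀ v) {A B : 𝓞 K}
    (hF : Fam q₀ T A B) (hpos : ∀ s : K →+* ℝ, 0 < s (A : K)) (hNR : ∀ v ∈ R, NoRt K v A B)
    (hB : ¬ BadP T A B) :
    ∃ J ⊆ T, ∀ D : 𝓞 K, TwD q₀ J (D : K) → GoodN K R (insert q₀ T) (D ^ 2 * A, D ^ 3 * B) := by
  have hT' : ∀ v ∈ T, v ≠ q₀ ∧ (6 : 𝓞 K) ∉ v.asIdeal := fun v hv => ⟨(hT v hv).2.1, (hT v hv).1⟩
  have hdsc := hF.dsc_ne
  obtain ⟨L₀, _, _, _, θ₀, hL₀⟩ := H24PD.exists_cub (K := K) (A := (A : K)) (B := (B : K))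
    fun t => hF.no_root t
  obtain ⟨J, hJ, hbase⟩ := base_one hT' hF hB hL₀ (hr2 hL₀ hdsc)
  obtain ⟨P, hP⟩ := exists_P2 K
  refine ⟨J, hJ, fun D hD => ?_⟩
  have hD0 : (D : K) ≠ 0 := hD.ne
  obtain ⟨S, hS⟩ : ∃ S, S = insert q₀ (J ∪ P) := ⟨_, rfl⟩
  have hJS : J ⊆ S := fun v hv => by
    rw [hS]
    exact Finset.mem_insert_of_mem (Finset.mem_union_left _ hv)
  have h2S : ∀ v : HeightOneSpectrum (𝓞 K), v.valuation K 2 < 1 → v ∈ S := fun v hv => by
    rw [hS]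
    exact Finset.mem_insert_of_mem (Finset.mem_union_right _ ((hP v).2 (two_iff.1 hv)))
  have hBT := hbase (D : K) hD S hJS h2S
  have hCub := hL₀.twist hD0
  have e1 : ((D ^ 2 * A : 𝓞 K) : K) = (D : K) ^ 2 * (A : K) := by push_cast; rfl
  have e2 : ((D ^ 3 * B : 𝓞 K) : K) = (D : K) ^ 3 * (B : K) := by push_cast; rfl
  have hd6 : 4 * ((D : K) ^ 2 * (A : K)) ^ 3 + 27 * ((D : K) ^ 3 * (B : K)) ^ 2 =
      (D : K) ^ 6 * (4 * (A : K) ^ 3 + 27 * (B : K) ^ 2) := by ring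
  have hdK : 4 * ((D : K) ^ 2 * (A : K)) ^ 3 + 27 * ((D : K) ^ 3 * (B : K)) ^ 2 ≠ 0 := by
    rw [hd6]
    exact mul_ne_zero (pow_ne_zero 6 hD0) hdsc
  refine ⟨?_, ?_⟩
  · intro h4
    have h5 : (4 * ((D ^ 2 * A : 𝓞 K) : K) ^ 3 + 27 * ((D ^ 3 * B : 𝓞 K) : K) ^ 2) = 0 := by
      have h6 := congrArg (algebraMap (𝓞 K) K) h4
      simp only [map_add, map_mul, map_pow, map_ofNat, map_zero] at h6 ⊢
      exact h6
    rw [e1, e2] at h5
    exact hdK h5
  · intro N _ _ _ hN M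
    have _ := hN.gal
    obtain ⟨r, hr⟩ := hN.two
    have hin : ∀ v : HeightOneSpectrum (𝓞 K), v ∉ S → v ∉ J ∧ v ≠ q₀ ∧ (2 : 𝓞 K) ∉ v.asIdeal := by
      intro v hv
      rw [hS, Finset.mem_insert, Finset.mem_union, hP] at hv
      push Not at hv
      exact ⟨hv.2.1, hv.1, hv.2.2⟩
    have hmain := H73P2.rel_main (K := K) (N := N) ordSub hr h2S
      (a := (D : K) ^ 2 * (A : K)) (b := (D : K) ^ 3 * (B : K)) hdK ?_ ?_ ?_ ?_ ?_ ?_ M
    · change Finite (⟨0, 0, 0, algebraMap K M ((D ^ 2 * A : 𝓞 K) : K),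
          algebraMap K M ((D ^ 3 * B : 𝓞 K) : K)⟩ : WeierstrassCurve M).toAffine.Point ∧
        Pool.Agent.H10.Sha2Trivial M (⟨0, 0, 0, algebraMap K M ((D ^ 2 * A : 𝓞 K) : K),
          algebraMap K M ((D ^ 3 * B : 𝓞 K) : K)⟩ : WeierstrassCurve M)
      rw [e1, e2]
      exact hmain
    · -- no root
      intro t ht
      apply hF.no_root (t / (D : K))
      have h3 : (D : K) ^ 3 * ((t / (D : K)) ^ 3 + (A : K) * (t / (D : K)) + (B : K)) = 0 := by
        rw [← ht]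
        field_simp
      exact (mul_eq_zero.1 h3).resolve_left (pow_ne_zero 3 hD0)
    · intro v hv
      obtain ⟨h1, h2, h3⟩ := hin v hv
      exact nice_of hF hD0 h3 (hD.even v h1 h2)
    · intro v hv
      refine hN.spl v ?_
      rw [hS, Finset.mem_insert, Finset.mem_union, hP] at hv
      rcases hv with h | h | h
      · exact Or.inl (by rw [h]; exact Finset.mem_insert_self _ _)
      · exact Or.inl (Finset.mem_insert_of_mem (hJ h))
      · exact Or.inr h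
    · intro s
      left
      rw [hd6, map_mul, map_pow, map_add, map_mul, map_mul, map_pow, map_pow, map_ofNat, map_ofNat]
      have h1 := hpos s
      have h2 := hD.pos s
      positivity
    · intro V hVS hV
      have h1 := hN.ram V (hin _ hVS).2.2 hV
      have h2 : dn K V ∉ J := fun h => hTR _ (hJ h) h1
      have h3 : dn K V ≠ q₀ := fun h => hq (by rw [← h]; exact h1)
      exact noroot_of hD0 (hNR _ h1) (hD.even _ h2 h3)
    · intro L _ _ _ θ hL
      have h1 := bt_iso hCub hL hBT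
      intro d hd
      refine h1 d hd.ne hd.sq ?_ ?_ hd.real
      · intro w hw
        refine hd.even w ?_
        rw [H73P2.dn_dn]
        exact hw
      · intro v hv
        exact hd.loc v hv _ (fun x => rfl)

/-- The final theorem. -/
theorem main_N (K : Type) [Field K] [NumberField K] (R : Finset (HeightOneSpectrum (𝓞 K)))
    (hR : ∀ v ∈ R, (2 : 𝓞 K) ∉ v.asIdeal) (Z : Set (HeightOneSpectrum (𝓞 K)))
    (hZ : Z.Infinite) : ∃ (T : Finset (HeightOneSpectrum (𝓞 K))) (c X₀ : ℝ),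
      (∀ v ∈ T, v ∈ Z) ∧ 0 < c ∧ ∀ X : ℝ, X₀ ≤ X →
        ∃ G : Finset (𝓞 K × 𝓞 K), (∀ p ∈ G, p ∈ Bx K X ∧ GoodN K R T p) ∧
          (∀ p ∈ G, ∀ q ∈ G, p.1 ^ 3 * q.2 ^ 2 = q.1 ^ 3 * p.2 ^ 2 → p = q) ∧
          c * ((Bx K X).ncard : ℝ) ≤ (G.card : ℝ) := by
  have H : Blocks K := blocks_of_HR2 K fun h hd => hr2 h hd
  obtain ⟨m, A₀, B₀, hm0, hmR, hm, hcl⟩ := exists_class R hR
  have hZ' : (Z \ (R : Set (HeightOneSpectrum (𝓞 K)))).Infinite := hZ.sdiff R.finite_toSet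
  obtain ⟨q₀, T, c, X₀, hq₀, -, hT, hc, hmain⟩ := main_in H hZ' hm0
    (fun v hv h => hv.2 (hmR v h)) hm
  obtain ⟨c', X₁, hc', h⟩ := count_gen H (fun v hv => (hT v hv).2)
    (fun p => p.1 - A₀ ∈ m ∧ p.2 - B₀ ∈ m ∧ ∀ s : K →+* ℝ, 0 < s (p.1 : K))
    (GoodN K R (insert q₀ T)) hc hmain (fun p hF hP hB =>
      good_of (fun h => hq₀.2 h) (fun v hv h => (hT v hv).1.2 h) hR (fun v hv => (hT v hv).2) hF
        hP.2.2 (hcl _ _ hP.1 hP.2.1) hB)
  refine ⟨insert q₀ T, c', X₁, fun v hv => ?_, hc', h⟩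
  rw [Finset.mem_insert] at hv
  rcases hv with h | h
  · rw [h]
    exact hq₀.1
  · exact (hT v h).1.1

theorem ram_fin (K N : Type) [Field K] [NumberField K] [Field N] [NumberField N] [Algebra K N] :
    {V : HeightOneSpectrum (𝓞 N) | H73P2.Ram K V}.Finite := by
  have h1 : {v : HeightOneSpectrum (𝓞 N) | v.asIdeal ∣ differentIdeal (𝓞 K) (𝓞 N)}.Finite := by
    refine Ideal.finite_factors ?_
    exact differentIdeal_ne_bot
  refine h1.subset fun V hV => ?_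
  change V.asIdeal ∣ _
  by_contra h
  have h2 : Algebra.IsUnramifiedAt (𝓞 K) V.asIdeal := not_dvd_differentIdeal_iff.1 h
  have h3 := Ideal.ramificationIdx_eq_one V.asIdeal (𝓞 K)
  have h4 : (dn K V).asIdeal.map (algebraMap (𝓞 K) (𝓞 N)) ≤ V.asIdeal ^ 2 := hV
  have hlo : V.asIdeal.LiesOver (dn K V).asIdeal := ⟨rfl⟩
  have hinj : Function.Injective (algebraMap (𝓞 K) (𝓞 N)) := by
    intro x y hxy
    apply RingOfIntegers.ext
    have h5 := congrArg (fun z : 𝓞 N => (z : N)) hxy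
    exact (algebraMap K N).injective h5
  have hb : (dn K V).asIdeal.map (algebraMap (𝓞 K) (𝓞 N)) ≠ ⊥ := by
    intro h5
    exact (dn K V).ne_bot ((Ideal.map_eq_bot_iff_of_injective hinj).1 h5)
  rw [← Ideal.ramificationIdx'_eq_ramificationIdx (dn K V).asIdeal V.asIdeal (dn K V).ne_bot] at h3
  have h5 := Ideal.IsDedekindDomain.ramificationIdx'_eq_normalizedFactors_count hb V.isPrime V.ne_bot
  rw [h3] at h5
  have h6 : V.asIdeal ^ 2 ∣ (dn K V).asIdeal.map (algebraMap (𝓞 K) (𝓞 N)) := Ideal.dvd_iff_le.2 h4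
  have hV2 : V.asIdeal ^ 2 ≠ 0 := pow_ne_zero 2 V.ne_bot
  have h7 := (UniqueFactorizationMonoid.dvd_iff_normalizedFactors_le_normalizedFactors hV2 hb).1 h6
  have h8 := Multiset.count_le_of_le V.asIdeal h7
  rw [← h5, UniqueFactorizationMonoid.normalizedFactors_pow, Multiset.count_nsmul,
    UniqueFactorizationMonoid.normalizedFactors_irreducible V.irreducible, normalize_eq,
    Multiset.count_singleton_self] at h8
  omega
/-- A given field `N`. -/
theorem main_fixed (K N : Type) [Field K] [NumberField K] [Field N] [NumberField N] [Algebra K N]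
    [IsGalois K N] {r : ℕ} (hr : Module.finrank K N = 2 ^ r)
    (h2 : ∀ v : HeightOneSpectrum (𝓞 K), (2 : 𝓞 K) ∈ v.asIdeal →
      ∃ ι : N →+* v.adicCompletion K, ∀ x : K,
        ι (algebraMap K N x) = algebraMap K (v.adicCompletion K) x) :
    ∃ (c X₀ : ℝ), 0 < c ∧ ∀ X : ℝ, X₀ ≤ X →
      ∃ G : Finset (𝓞 K × 𝓞 K), (∀ p ∈ G, p ∈ Bx K X ∧ 4 * p.1 ^ 3 + 27 * p.2 ^ 2 ≠ 0 ∧
        ∀ M : IntermediateField K N,
          Finite (⟨0, 0, 0, algebraMap K M p.1, algebraMap K M p.2⟩ :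
            WeierstrassCurve M).toAffine.Point ∧
          Pool.Agent.H10.Sha2Trivial M
            (⟨0, 0, 0, algebraMap K M p.1, algebraMap K M p.2⟩ : WeierstrassCurve M)) ∧
        (∀ p ∈ G, ∀ q ∈ G, p.1 ^ 3 * q.2 ^ 2 = q.1 ^ 3 * p.2 ^ 2 → p = q) ∧
        c * ((Bx K X).ncard : ℝ) ≤ (G.card : ℝ) := by
  obtain ⟨R, hR⟩ : ∃ R : Finset (HeightOneSpectrum (𝓞 K)), ∀ v, v ∈ R ↔
      ((2 : 𝓞 K) ∉ v.asIdeal ∧ ∃ V : HeightOneSpectrum (𝓞 N), H73P2.Ram K V ∧ dn K V = v) := by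
    refine ⟨((ram_fin K N).toFinset.image (dn K)).filter fun v => (2 : 𝓞 K) ∉ v.asIdeal,
      fun v => ?_⟩
    rw [Finset.mem_filter, Finset.mem_image, and_comm]
    simp only [Set.Finite.mem_toFinset, Set.mem_ofPred_eq]
  obtain ⟨T, c, X₀, hT, hc, h⟩ := main_N K R (fun v hv => ((hR v).1 hv).1) _ (split_inf K N)
  refine ⟨c, X₀, hc, fun X hX => ?_⟩
  obtain ⟨G, hG, hj, hcard⟩ := h X hX
  refine ⟨G, fun p hp => ⟨(hG p hp).1, (hG p hp).2.1, (hG p hp).2.2 N ⟨inferInstance, ⟨r, hr⟩, ?_, ?_⟩⟩,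
    hj, hcard⟩
  · intro V h2V hV
    exact (hR _).2 ⟨h2V, V, hV, rfl⟩
  · rintro v (hv | hv)
    · exact hT v hv
    · exact h2 v hv

end H30PN
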