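import Pool.Agent.H30.PN.Df

/-!
ROW Aa (project MP_78d38b_PPN): the class of a sum of two points.
-/

set_option autoImplicit false
set_option linter.unusedSectionVars false
open scoped Classical

open WithZero NumberField IsDedekindDomain H38RT H76PP
open H38T1 (SC sc scu rep eo la si Pri OddP tp unif)

namespace H30PN

/-- `P = (x, y)` with `y ≠ 0` and `d (x - θ)` is a square. -/
def Cl {F : Type*} [Field F] (a b : F)
    (P : (⟨0, 0, 0, a, b⟩ : WeierstrassCurve F).toAffine.Point) (d : Fin 3 → F) : Prop :=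
  ∃ (x y : F) (h : (⟨0, 0, 0, a, b⟩ : WeierstrassCurve F).toAffine.Nonsingular x y)
    (z : Fin 3 → F), P = .some x y h ∧ y ≠ 0 ∧ m3 a b d ![x, -1, 0] = m3 a b z z

theorem Aa_comm {F : Type*} [CommRing F] (a b : F) (u v : Fin 3 → F) :
    m3 a b u v = m3 a b v u := by
  funext j
  fin_cases j <;> simp [m3] <;> ring

theorem Aa_assoc {F : Type*} [CommRing F] (a b : F) (u v w : Fin 3 → F) :
    m3 a b (m3 a b u v) w = m3 a b u (m3 a b v w) := by
  funext j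
  fin_cases j <;> simp [m3] <;> ring

theorem Aa_alg {F : Type*} [Field F] {a b : F} {d e z1 z2 X1 X2 X3 G1 G2 M : Fin 3 → F} {y1 y2 : F}
    (h1 : y1 ≠ 0) (h2 : y2 ≠ 0) (H1 : m3 a b d X1 = m3 a b z1 z1) (H2 : m3 a b e X2 = m3 a b z2 z2)
    (HG1 : m3 a b X1 G1 = ![y1 ^ 2, 0, 0]) (HG2 : m3 a b X2 G2 = ![y2 ^ 2, 0, 0])
    (L : m3 a b (m3 a b X1 X2) X3 = m3 a b M M) :
    ∃ z : Fin 3 → F, m3 a b (m3 a b d e) X3 = m3 a b z z := by
  have hc : Std.Commutative (m3 a b) := ⟨Aa_comm a b⟩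
  have ha : Std.Associative (m3 a b) := ⟨Aa_assoc a b⟩
  set C : Fin 3 → F := ![1 / (y1 * y2) ^ 2, 0, 0] with hC
  refine ⟨m3 a b C (m3 a b z1 (m3 a b z2 (m3 a b M (m3 a b G1 G2)))), ?_⟩
  symm
  have e1 : m3 a b (m3 a b C (m3 a b z1 (m3 a b z2 (m3 a b M (m3 a b G1 G2)))))
      (m3 a b C (m3 a b z1 (m3 a b z2 (m3 a b M (m3 a b G1 G2))))) =
      m3 a b (m3 a b C C) (m3 a b (m3 a b z1 z1) (m3 a b (m3 a b z2 z2) (m3 a b (m3 a b M M)
        (m3 a b (m3 a b G1 G1) (m3 a b G2 G2))))) := by ac_rfl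
  have e2 : m3 a b (m3 a b C C) (m3 a b (m3 a b d X1) (m3 a b (m3 a b e X2)
        (m3 a b (m3 a b (m3 a b X1 X2) X3) (m3 a b (m3 a b G1 G1) (m3 a b G2 G2))))) =
      m3 a b (m3 a b (m3 a b C C) (m3 a b (m3 a b (m3 a b X1 G1) (m3 a b X1 G1))
        (m3 a b (m3 a b X2 G2) (m3 a b X2 G2)))) (m3 a b (m3 a b d e) X3) := by ac_rfl
  rw [e1, ← H1, ← H2, ← L, e2, HG1, HG2]
  have e3 : m3 a b (m3 a b C C) (m3 a b (m3 a b ![y1 ^ 2, 0, 0] ![y1 ^ 2, 0, 0])
        (m3 a b ![y2 ^ 2, 0, 0] ![y2 ^ 2, 0, 0])) = ![1, 0, 0] := by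
    rw [hC]
    funext j
    fin_cases j
    · simp [m3]
      field_simp
    · simp [m3]
    · simp [m3]
  rw [e3]
  funext j
  fin_cases j <;> simp [m3]

theorem Aa_inv {F : Type*} [Field F] {a b x y : F} (h : y ^ 2 = x ^ 3 + a * x + b) :
    m3 a b ![x, -1, 0] ![x ^ 2 + a, x, 1] = ![y ^ 2, 0, 0] := by
  funext j
  fin_cases j
  · simp [m3]
    linear_combination -h
  · simp [m3]
    ring
  · simp [m3]

theorem Aa_eq {F : Type*} [Field F] {a b x y : F}
    (h : (⟨0, 0, 0, a, b⟩ : WeierstrassCurve F).toAffine.Nonsingular x y) :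
    y ^ 2 = x ^ 3 + a * x + b := by
  have h1 := (WeierstrassCurve.Affine.equation_iff x y).1 h.1
  simp only [zero_mul, add_zero] at h1
  linear_combination h1

theorem cl_add {F : Type*} [Field F] [CharZero F] {a b : F}
    {P Q : (⟨0, 0, 0, a, b⟩ : WeierstrassCurve F).toAffine.Point} {d e : Fin 3 → F}
    (hP : Cl a b P d) (hQ : Cl a b Q e) (h : (P + Q) + (P + Q) ≠ 0) :
    Cl a b (P + Q) (m3 a b d e) := by
  obtain ⟨x1, y1, h1, z1, rfl, hy1, hz1⟩ := hP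
  obtain ⟨x2, y2, h2, z2, rfl, hy2, hz2⟩ := hQ
  have hxy : ¬(x1 = x2 ∧ y1 = (⟨0, 0, 0, a, b⟩ : WeierstrassCurve F).toAffine.negY x2 y2) := by
    rintro ⟨hx, hy⟩
    exact h (by rw [WeierstrassCurve.Affine.Point.add_of_Y_eq hx hy, add_zero])
  have hs := WeierstrassCurve.Affine.addPolynomial_slope h1.1 h2.1 hxy
  have hadd := WeierstrassCurve.Affine.Point.add_some hxy (h₁ := h1) (h₂ := h2)
  have hns := WeierstrassCurve.Affine.nonsingular_add h1 h2 hxy
  rw [hadd] at h ⊢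
  set l := (⟨0, 0, 0, a, b⟩ : WeierstrassCurve F).toAffine.slope x1 x2 y1 y2 with hl
  rw [WeierstrassCurve.Affine.addPolynomial_eq, neg_inj, Cubic.prod_X_sub_C_eq,
    Cubic.toPoly_injective, Cubic.mk.injEq] at hs
  obtain ⟨-, hs1, hs2, hs3⟩ := hs
  have hx3 : (⟨0, 0, 0, a, b⟩ : WeierstrassCurve F).toAffine.addX x1 x2 l = l ^ 2 - x1 - x2 := by
    simp [WeierstrassCurve.Affine.addX]
  have hy3 : (⟨0, 0, 0, a, b⟩ : WeierstrassCurve F).toAffine.addY x1 x2 y1 l ≠ 0 := by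
    intro h0
    apply h
    rw [WeierstrassCurve.Affine.Point.add_self_of_Y_eq]
    rw [h0]
    simp [WeierstrassCurve.Affine.negY]
  obtain ⟨z, hz⟩ := Aa_alg (X3 := ![(⟨0, 0, 0, a, b⟩ : WeierstrassCurve F).toAffine.addX x1 x2 l,
    -1, 0]) (M := ![y1 - l * x1, l, 0]) hy1 hy2 hz1 hz2 (Aa_inv (Aa_eq h1)) (Aa_inv (Aa_eq h2)) (by
      rw [hx3] at hs2 hs3 ⊢
      simp only [zero_mul, add_zero] at hs2 hs3
      funext j
      fin_cases j
      · simp [m3]
        linear_combination hs3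
      · simp [m3]
        linear_combination hs2
      · simp [m3]
        ring)
  exact ⟨_, _, hns, z, rfl, hy3, hz⟩

theorem cl_base {F : Type*} [Field F] [CharZero F] {a b : F}
    {P : (⟨0, 0, 0, a, b⟩ : WeierstrassCurve F).toAffine.Point} (h : P + P ≠ 0) :
    ∃ d : Fin 3 → F, Cl a b P d ∧ m3 a b d d ≠ 0 ∧ ∃ d' : Fin 3 → F, m3 a b d d' = ![1, 0, 0] := by
  rcases P with _ | ⟨x, y, hns⟩
  · exact absurd (show (WeierstrassCurve.Affine.Point.zero + WeierstrassCurve.Affine.Point.zero :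
      (⟨0, 0, 0, a, b⟩ : WeierstrassCurve F).toAffine.Point) = 0 from rfl) h
  · have hy : y ≠ 0 := by
      intro h0
      apply h
      rw [WeierstrassCurve.Affine.Point.add_self_of_Y_eq]
      rw [h0]
      simp [WeierstrassCurve.Affine.negY]
    have hG := Aa_inv (Aa_eq hns)
    have hc := Aa_comm a b
    have ha := Aa_assoc a b
    refine ⟨![x, -1, 0], ⟨x, y, hns, ![x, -1, 0], rfl, hy, rfl⟩, ?_, ?_⟩
    · intro h0
      have h1 : m3 a b (m3 a b ![x, -1, 0] ![x, -1, 0]) (m3 a b ![x ^ 2 + a, x, 1]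
          ![x ^ 2 + a, x, 1]) = ![y ^ 4, 0, 0] := by
        have h2 : Std.Commutative (m3 a b) := ⟨Aa_comm a b⟩
        have h3 : Std.Associative (m3 a b) := ⟨Aa_assoc a b⟩
        have h4 : m3 a b (m3 a b ![x, -1, 0] ![x, -1, 0]) (m3 a b ![x ^ 2 + a, x, 1]
          ![x ^ 2 + a, x, 1]) = m3 a b (m3 a b ![x, -1, 0] ![x ^ 2 + a, x, 1])
            (m3 a b ![x, -1, 0] ![x ^ 2 + a, x, 1]) := by ac_rfl
        rw [h4, hG]
        funext j
        fin_cases j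
        · simp [m3]
          ring
        · simp [m3]
        · simp [m3]
      rw [h0] at h1
      have h5 := congrFun h1 0
      simp [m3] at h5
      exact hy (pow_eq_zero_iff (by norm_num) |>.1 h5.symm)
    · refine ⟨m3 a b ![x ^ 2 + a, x, 1] ![1 / y ^ 2, 0, 0], ?_⟩
      rw [← ha, hG]
      funext j
      fin_cases j
      · simp [m3]
        field_simp
      · simp [m3]
      · simp [m3]

end H30PN
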