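import Pool.Agent.H30.PN.Df
import Pool.Agent.H76.PP.Te

/-!
ROW Ac (project MP_78d38b_PPN, about 90 lines): the multiplication `m3`.

PROOF. `m3` is the multiplication of `F[T] / (T^3 + a T + b)` in coordinates: commutativity and associativity: `funext j; fin_cases j`,
`simp [m3]` (see `Te_nf_mul`), `ring`. map_m3: the same. ev_m3 = `Te_ev_mul` (symmetric), in `Pool/Agent/H76/PP/Te.lean`.
LC_sq: if `LC i a b d` with `x, y, z` then for `m3 d (m3 e e)` take `x, y` and `m3 z (i ∘ e)` (associativity, commutativity, map_m3).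
LC_of_ev: let `h : Cub K L a b θ`, `ev θ d' = ev θ d * y^2`; `y = ev θ e` (`h.sp`), so `ev θ d' = ev θ (m3 d (m3 e e))`, and the coordinates are
unique (`h.li` or `Cub.co_mk`), `d' = m3 d (m3 e e)`; LC_sq.
-/

set_option autoImplicit false
set_option linter.unusedSectionVars false
open scoped Classical

open WithZero NumberField IsDedekindDomain H38RT H76PP
open H38T1 (SC sc scu rep eo la si Pri OddP tp unif)

namespace H30PN

theorem m3_comm {F : Type*} [CommRing F] (a b : F) (u v : Fin 3 → F) :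
    m3 a b u v = m3 a b v u := by
  funext j
  fin_cases j <;> simp [m3] <;> ring

theorem m3_assoc {F : Type*} [CommRing F] (a b : F) (u v w : Fin 3 → F) :
    m3 a b (m3 a b u v) w = m3 a b u (m3 a b v w) := by
  funext j
  fin_cases j <;> simp [m3] <;> ring

theorem map_m3 {F F' : Type*} [CommRing F] [CommRing F'] (i : F →+* F') (a b : F)
    (u v : Fin 3 → F) :
    (fun j => i (m3 a b u v j)) = m3 (i a) (i b) (fun j => i (u j)) (fun j => i (v j)) := by
  funext j
  fin_cases j <;> simp [m3]

theorem ev_m3 {K L : Type} [Field K] [Field L] [Algebra K L] {a b : K} {θ : L}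
    (h : Cub K L a b θ) (u v : Fin 3 → K) : ev θ (m3 a b u v) = ev θ u * ev θ v := by
  have hr := h.root
  simp only [ev, m3, Matrix.cons_val_zero, Matrix.cons_val_one, Matrix.cons_val_two,
    Matrix.head_cons, Matrix.tail_cons, Matrix.cons_val, map_add, map_sub, map_mul]
  generalize algebraMap K L (u 0) = a0
  generalize algebraMap K L (u 1) = a1
  generalize algebraMap K L (u 2) = a2
  generalize algebraMap K L (v 0) = b0
  generalize algebraMap K L (v 1) = b1
  generalize algebraMap K L (v 2) = b2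
  linear_combination (-(a1 * b2 + a2 * b1 + a2 * b2 * θ)) * hr

theorem LC_sq {K F : Type*} [Field K] [Field F] (i : K →+* F) {a b : K} {d : Fin 3 → K}
    (h : LC i a b d) (e : Fin 3 → K) : LC i a b (m3 a b d (m3 a b e e)) := by
  obtain ⟨x, y, z, hy, hxy, hz⟩ := h
  refine ⟨x, y, m3 (i a) (i b) z (fun j => i (e j)), hy, hxy, ?_⟩
  rw [map_m3, map_m3]
  generalize (fun j => i (d j)) = D at hz ⊢
  generalize (fun j => i (e j)) = E
  generalize i a = a' at hz ⊢
  generalize i b = b' at hz ⊢
  rw [m3_assoc, m3_comm a' b' (m3 a' b' E E), ← m3_assoc, hz, m3_assoc, m3_assoc a' b' z E,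
    m3_comm a' b' E (m3 a' b' z E), m3_assoc]

theorem LC_of_ev {K L F : Type} [Field K] [Field L] [Algebra K L] [Field F] (i : K →+* F) {a b : K}
    {θ : L} (hL : Cub K L a b θ) {d d' : Fin 3 → K} (h : LC i a b d) {y : L}
    (hy : ev θ d' = ev θ d * y ^ 2) : LC i a b d' := by
  obtain ⟨c0, c1, c2, hc⟩ := hL.sp y
  have he : ev θ ![c0, c1, c2] = y := by
    rw [hc]
    simp [ev]
  have hm : ev θ d' = ev θ (m3 a b d (m3 a b ![c0, c1, c2] ![c0, c1, c2])) := by
    rw [ev_m3 hL, ev_m3 hL, he, hy, sq]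
  have hd : d' = m3 a b d (m3 a b ![c0, c1, c2] ![c0, c1, c2]) := by
    generalize m3 a b d (m3 a b ![c0, c1, c2] ![c0, c1, c2]) = f at hm
    obtain ⟨h0, h1, h2⟩ := hL.li (d' 0 - f 0) (d' 1 - f 1) (d' 2 - f 2) (by
      unfold ev at hm
      rw [map_sub, map_sub, map_sub]
      linear_combination hm)
    funext j
    fin_cases j
    · exact sub_eq_zero.1 h0
    · exact sub_eq_zero.1 h1
    · exact sub_eq_zero.1 h2
  rw [hd]
  exact LC_sq i h _

end H30PN
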