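import Pool.Agent.H30.PN.Aa
import Pool.Agent.H30.PN.Ac
import Pool.Agent.H11.Divis2
import Pool.Agent.H10.Pm

/-!
ROW Ab (project MP_78d38b_PPN, about 150 lines): the local condition is additive. Use only the STATEMENTS of Aa, Ac.

PROOF. `E : y^2 = x^3 + i a x + i b` over `F`. LC_iff: `LC i a b d ↔ ∃ P, Cl (i a) (i b) P (fun j => i (d j))`: the curve is nonsingular at `(x, y)` with
`y ≠ 0` (the derivative in `y` is `2 y ≠ 0`; `WeierstrassCurve.Affine.nonsingular_iff`, `equation_iff`).
Let `Cl P D`, `Cl Q D'` (`D, D'` the images of `d, d'`). If `(P + Q) + (P + Q) ≠ 0` then cl_add and `map_m3` give the claim. Otherwise choose a point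
`S` with (i) `S + S ≠ 0`, (ii) `(P + S) + (P + S) ≠ 0`, (iii) `(P + S + S) + (P + S + S) ≠ 0`, (iv) `(P + S + S + Q) + (P + S + S + Q) ≠ 0`. It exists
as `E(F)` is infinite and each condition excludes finitely many `S`: (i) `2 S = 0`, (ii) `2 S = - 2 P`, (iii) `4 S = - 2 P`, (iv) `4 S = - 2 (P + Q)`: the
set of `S` with `n S = R` is empty or a translate of `{S | n S = 0}`, which is finite for `n = 2, 4` (`E` is elliptic by `hd`; over an
algebraically closed field `Pool.Agent.H11.finite_torsion E n` (used in `Pool/Agent/H24/PD/L1.lean`); apply it to the base change to `AlgebraicClosure F` and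
the injective map of points `WeierstrassCurve.Affine.Point.map`).
`cl_base` for `S`: `Cl S e` with `e e' = 1`. cl_add: `Cl (P + S) (D e)`, `Cl (P + S + S) (D e e)`, `Cl (P + S + S + Q) (D e e D')`: there are `x, y ≠ 0, z` with
`D e e D' (x - θ) = z^2`, so `D D' (x - θ) = (z e')^2` (multiply by `e' e'`). This is `LC i a b (m3 a b d d')` by `map_m3`.
-/

set_option autoImplicit false
set_option linter.unusedSectionVars false
open scoped Classical

open WithZero NumberField IsDedekindDomain H38RT H76PP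
open H38T1 (SC sc scu rep eo la si Pri OddP tp unif)

namespace H30PN

lemma Ab_tors {F : Type} [Field F] [CharZero F] {V : WeierstrassCurve F} (hV : V.Δ ≠ 0) (n : ℕ)
    (hn : n ≠ 0) : {P : V.toAffine.Point | n • P = 0}.Finite := by
  have hell : V.IsElliptic := ⟨isUnit_iff_ne_zero.2 hV⟩
  let E : WeierstrassCurve (AlgebraicClosure F) := V.map (algebraMap F (AlgebraicClosure F))
  have hE : E.IsElliptic := inferInstanceAs (V.map (algebraMap F (AlgebraicClosure F))).IsElliptic
  have hfin : {Q : E.toAffine.Point | n • Q = 0}.Finite := Pool.Agent.H11.finite_torsion E n hn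
  refine Set.Finite.of_finite_image (f := Pool.Agent.H10.pm (V' := E)
    (algebraMap F (AlgebraicClosure F)) rfl) (hfin.subset ?_)
    (Pool.Agent.H10.pm_injective _ _).injOn
  rintro _ ⟨P, hP, rfl⟩
  simp only [Set.mem_ofPred_eq] at hP ⊢
  rw [← map_nsmul, hP, map_zero]

lemma Ab_fib {F : Type} [Field F] [CharZero F] {V : WeierstrassCurve F} (hV : V.Δ ≠ 0) (n : ℕ)
    (hn : n ≠ 0) (R : V.toAffine.Point) : {P : V.toAffine.Point | n • P = R}.Finite := by
  rcases Set.eq_empty_or_nonempty {P : V.toAffine.Point | n • P = R} with h | ⟨P₀, h₀⟩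
  · rw [h]
    exact Set.finite_empty
  · refine ((Ab_tors hV n hn).image (fun T => P₀ + T)).subset ?_
    intro P hP
    simp only [Set.mem_ofPred_eq] at h₀ hP
    refine ⟨P - P₀, ?_, by simp⟩
    simp only [Set.mem_ofPred_eq, nsmul_sub, h₀, hP, sub_self]

lemma Ab_disc {F : Type} [Field F] [CharZero F] {a b : F} (hd : 4 * a ^ 3 + 27 * b ^ 2 ≠ 0) :
    (⟨0, 0, 0, a, b⟩ : WeierstrassCurve F).Δ ≠ 0 := by
  have h : (⟨0, 0, 0, a, b⟩ : WeierstrassCurve F).Δ = -16 * (4 * a ^ 3 + 27 * b ^ 2) := by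
    simp only [WeierstrassCurve.Δ, WeierstrassCurve.b₂, WeierstrassCurve.b₄, WeierstrassCurve.b₆,
      WeierstrassCurve.b₈]
    ring
  rw [h]
  exact mul_ne_zero (by norm_num) hd

lemma Ab_LC_iff {K F : Type} [Field K] [Field F] [CharZero F] (i : K →+* F) {a b : K}
    {d : Fin 3 → K} : LC i a b d ↔ ∃ P, Cl (i a) (i b) P (fun j => i (d j)) := by
  constructor
  · rintro ⟨x, y, z, hy, hxy, hz⟩
    have hns : (⟨0, 0, 0, i a, i b⟩ : WeierstrassCurve F).toAffine.Nonsingular x y := by
      rw [WeierstrassCurve.Affine.nonsingular_iff, WeierstrassCurve.Affine.equation_iff]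
      refine ⟨by linear_combination hxy, Or.inr ?_⟩
      intro h
      have h2 : 2 * y = 0 := by
        simp only [zero_mul, sub_zero] at h
        linear_combination h
      rcases mul_eq_zero.1 h2 with h3 | h3
      · norm_num at h3
      · exact hy h3
    exact ⟨.some x y hns, x, y, hns, z, rfl, hy, hz⟩
  · rintro ⟨P, x, y, h, z, -, hy, hz⟩
    refine ⟨x, y, z, hy, ?_, hz⟩
    have := (WeierstrassCurve.Affine.equation_iff x y).1 h.1
    linear_combination this

theorem LC_mul {K F : Type} [Field K] [Field F] [CharZero F] (i : K →+* F) {a b : K}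
    (hd : 4 * a ^ 3 + 27 * b ^ 2 ≠ 0)
    (hinf : Infinite (⟨0, 0, 0, i a, i b⟩ : WeierstrassCurve F).toAffine.Point)
    {d d' : Fin 3 → K} (h : LC i a b d) (h' : LC i a b d') : LC i a b (m3 a b d d') := by
  have hd' : 4 * (i a) ^ 3 + 27 * (i b) ^ 2 ≠ 0 := by
    intro h0
    apply hd
    apply i.injective
    have e4 : i 4 = 4 := map_ofNat i 4
    have e27 : i 27 = 27 := map_ofNat i 27
    rw [map_zero, map_add, map_mul, map_mul, map_pow, map_pow, e4, e27]
    exact h0
  have hV := Ab_disc hd'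
  obtain ⟨P, hP⟩ := Ab_LC_iff i |>.1 h
  obtain ⟨Q, hQ⟩ := Ab_LC_iff i |>.1 h'
  rw [Ab_LC_iff, map_m3]
  by_cases hPQ : (P + Q) + (P + Q) ≠ 0
  · exact ⟨P + Q, cl_add hP hQ hPQ⟩
  · have hfin := (((Ab_tors hV 2 two_ne_zero).union (Ab_fib hV 2 two_ne_zero (-(2 • P)))).union
      (Ab_fib hV 4 (by norm_num) (-(2 • P)))).union (Ab_fib hV 4 (by norm_num) (-(2 • (P + Q))))
    obtain ⟨S, hS⟩ := hfin.exists_notMem
    simp only [Set.mem_union, Set.mem_ofPred_eq, not_or] at hS
    obtain ⟨⟨⟨h1, h2⟩, h3⟩, h4⟩ := hS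
    have e1 : S + S ≠ 0 := by
      intro h0
      exact h1 (by rw [two_nsmul, h0])
    have e2 : (P + S) + (P + S) ≠ 0 := by
      intro h0
      apply h2
      rw [eq_neg_iff_add_eq_zero, ← h0]
      abel
    have e3 : (P + S + S) + (P + S + S) ≠ 0 := by
      intro h0
      apply h3
      rw [eq_neg_iff_add_eq_zero, ← h0]
      abel
    have e4 : (P + S + S + Q) + (P + S + S + Q) ≠ 0 := by
      intro h0
      apply h4
      rw [eq_neg_iff_add_eq_zero, ← h0]
      abel
    obtain ⟨e, he, -, e', hee⟩ := cl_base e1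
    have c1 := cl_add hP he e2
    have c2 := cl_add c1 he e3
    have c3 := cl_add c2 hQ e4
    obtain ⟨x, y, hns, z, hx, hy, hz⟩ := c3
    refine ⟨P + S + S + Q, x, y, hns, m3 (i a) (i b) z e', hx, hy, ?_⟩
    generalize (fun j => i (d j)) = D at hz ⊢
    generalize (fun j => i (d' j)) = D' at hz ⊢
    generalize (![x, -1, 0] : Fin 3 → F) = X at hz ⊢
    have one_m3 : ∀ u : Fin 3 → F, m3 (i a) (i b) ![1, 0, 0] u = u := by
      intro u
      funext j
      fin_cases j <;> simp [m3]
    have key : m3 (i a) (i b) (m3 (i a) (i b) (m3 (i a) (i b) (m3 (i a) (i b) (m3 (i a) (i b) D e) e) D') X)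
        (m3 (i a) (i b) e' e') = m3 (i a) (i b) (m3 (i a) (i b) D D') X := by
      have r1 : m3 (i a) (i b) (m3 (i a) (i b) (m3 (i a) (i b) (m3 (i a) (i b) (m3 (i a) (i b) D e) e) D') X)
        (m3 (i a) (i b) e' e') = m3 (i a) (i b) (m3 (i a) (i b) (m3 (i a) (i b) e e') (m3 (i a) (i b) e e'))
          (m3 (i a) (i b) (m3 (i a) (i b) D D') X) := by
        generalize i a = a'
        generalize i b = b'
        have hc := @m3_comm F _ a' b'
        have ha := @m3_assoc F _ a' b'
        let M : (Fin 3 → F) → (Fin 3 → F) → (Fin 3 → F) := m3 a' b'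
        have hM : ∀ u v, m3 a' b' u v = M u v := fun _ _ => rfl
        simp only [hM] at hc ha ⊢
        clear_value M
        have i1 : Std.Commutative M := ⟨hc⟩
        have i2 : Std.Associative M := ⟨ha⟩
        ac_rfl
      rw [r1, hee, one_m3, one_m3]
    rw [← key, hz]
    generalize i a = a'
    generalize i b = b'
    rw [m3_assoc, m3_assoc, ← m3_assoc a' b' z e' e', m3_comm a' b' (m3 a' b' z e') e']

end H30PN
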