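import Pool.Agent.H30.PN.Bj
import Pool.Agent.H76.PP.Te

/-!
ROW Bi (project MP_78d38b_PPN, about 110 lines): the relaxed Selmer condition does not depend on the choice of
the cubic extension.

PROOF. `φ x = ev θ' (coordinates of x)` is an isomorphism `φ : L ≃+* L'` of `K`-algebras with `φ (ev θ d) = ev θ' d` (`Cub.eq_co`, `Cub.co_mk`,
`Cub.co_mul` in `Pool/Agent/H76/PP/E0.lean`, or `Te_ev_mul` in `Te.lean`); the inverse is the same map in the other direction.
Let `d` satisfy the conditions of `BT` for `L'`. The same `d` satisfies them for `L`: `ev θ d ≠ 0`; the norm is the same element of `K`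
(`Te_norm`: `Te_nf a b d` for both); LC does not mention `L`. Even orders: `w` a place of `L` with `dn K w ∉ S`. Let `w'` be the place of `L'` with
`w'.asIdeal` = comap of `w.asIdeal` under the ring homomorphism `𝓞 L' → 𝓞 L` induced by `φ⁻¹` (`RingOfIntegers.mapRingHom`); with the local instance
`Algebra L' L := (φ.symm : L' →+* L).toAlgebra` it is `dn L' w`; `dn K w' = dn K w` (`φ⁻¹` fixes `K`; `Ideal.comap_comap`). `ord_dn` (Ta) for `L' → L`:
`ord_w (φ⁻¹ y) = e * ord_{w'} y`, `e > 0`, and `e = 1` since there is an element of `L` with `ord_w = 1` (`w.valuation_exists_uniformizer L`). So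
`eo w (sc (ev θ d)) = eo w' (sc (ev θ' d)) = 0` (`H38T1.eo_sc`). Hence `ev θ d` is a square in `L`, and `ev θ' d = φ (ev θ d)` is a square.
-/

set_option autoImplicit false
set_option linter.unusedSectionVars false
open scoped Classical

open WithZero NumberField IsDedekindDomain H38RT H76PP
open H38T1 (SC sc scu rep eo la si Pri OddP tp unif)

namespace H30PN

private theorem Bi_hom {K L L' : Type} [Field K] [NumberField K] [Field L] [NumberField L]
    [Field L'] [NumberField L'] [Algebra K L] [Algebra K L'] {a b : K} {θ : L} {θ' : L'}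
    (h : Cub K L a b θ) (h' : Cub K L' a b θ') :
    ∃ φ : L →+* L', ∀ d : Fin 3 → K, φ (ev θ d) = ev θ' d := by
  have hco : ∀ x : L, ev θ (fun i => h.co i x) = x := fun x => (h.eq_co x).symm
  have hmk : ∀ d : Fin 3 → K, (fun i => h.co i (ev θ d)) = d := fun d =>
    funext fun i => h.co_mk d i
  have hadd : ∀ u v : Fin 3 → K, ev θ' (fun i => u i + v i) = ev θ' u + ev θ' v := by
    intro u v
    simp only [ev, map_add]
    ring
  have hmul : ∀ x y : L, (fun i => h.co i (x * y)) =
      m3 a b (fun i => h.co i x) (fun i => h.co i y) := by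
    intro x y
    have h1 : x * y = ev θ (m3 a b (fun i => h.co i x) (fun i => h.co i y)) := by
      rw [← Te_ev_mul h, hco, hco]
    conv_lhs => rw [h1]
    exact hmk _
  have hone : (fun i => h.co i (1 : L)) = ![1, 0, 0] := by
    have h1 : (1 : L) = ev θ (![1, 0, 0] : Fin 3 → K) := by simp [ev]
    rw [h1]
    exact hmk _
  let φ : L →+* L' :=
    { toFun := fun x => ev θ' (fun i => h.co i x)
      map_one' := by
        rw [hone]
        simp [ev]
      map_mul' := fun x y => by
        rw [hmul, Te_ev_mul h']
      map_zero' := by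
        simp [ev]
      map_add' := fun x y => by
        simp only [map_add]
        exact hadd _ _ }
  refine ⟨φ, fun d => ?_⟩
  change ev θ' (fun i => h.co i (ev θ d)) = ev θ' d
  rw [hmk]

theorem bt_iso {K L L' : Type} [Field K] [NumberField K] [Field L] [NumberField L] [Field L']
    [NumberField L'] [Algebra K L] [Algebra K L'] {S : Finset (HeightOneSpectrum (𝓞 K))} {a b : K}
    {θ : L} {θ' : L'} (h : Cub K L a b θ) (h' : Cub K L' a b θ') (hB : BT K L S a b θ) :
    BT K L' S a b θ' := by
  obtain ⟨φ, hφ⟩ := Bi_hom h h'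
  obtain ⟨f, hf⟩ := Bi_hom h' h
  intro d hd hsq hev hLC hLCr
  have hinj : Function.Injective f := f.injective
  have hdL : ev θ d ≠ 0 := by
    intro h0
    apply hd
    apply hinj
    rw [hf, h0, map_zero]
  have hnorm : Algebra.norm K (ev θ d) = Algebra.norm K (ev θ' d) := by
    rw [Te_norm h, Te_norm h']
  have hfK : ∀ x : K, f (algebraMap K L' x) = algebraMap K L x := by
    intro x
    have h1 : algebraMap K L' x = ev θ' ![x, 0, 0] := by simp [ev]
    have h2 : algebraMap K L x = ev θ ![x, 0, 0] := by simp [ev]
    rw [h1, h2, hf]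
  have hsurj : Function.Surjective f := by
    intro y
    refine ⟨ev θ' (fun i => h.co i y), ?_⟩
    rw [hf]
    exact (h.eq_co y).symm
  have hres : IsSquare (ev θ d) := by
    refine hB d hdL (by rw [hnorm]; exact hsq) ?_ hLC hLCr
    intro w hw
    let _inst : Algebra L' L := f.toAlgebra
    have halg : ∀ x : L', algebraMap L' L x = f x := fun _ => rfl
    have hdn : dn K (dn L' w) = dn K w := by
      apply HeightOneSpectrum.ext
      change (w.asIdeal.comap (algebraMap (𝓞 L') (𝓞 L))).comap (algebraMap (𝓞 K) (𝓞 L')) =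
        w.asIdeal.comap (algebraMap (𝓞 K) (𝓞 L))
      rw [Ideal.comap_comap]
      congr 1
      ext x
      exact hfK x
    obtain ⟨e, he, hord⟩ := ord_dn (K := L') w
    have he1 : e = 1 := by
      obtain ⟨y, hy⟩ := w.valuation_exists_uniformizer L
      have hy0 : y ≠ 0 := by
        rintro rfl
        rw [map_zero] at hy
        exact exp_ne_zero hy.symm
      obtain ⟨x, rfl⟩ := hsurj y
      have hx0 : x ≠ 0 := by
        rintro rfl
        exact hy0 (map_zero f)
      have h1 := hord x hx0
      rw [halg] at h1
      have h2 : ord (w.valuation L) (f x) = 1 := by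
        unfold ord
        rw [hy]
        simp
      rw [h2] at h1
      have h3 : (e : ℤ) ∣ 1 := ⟨_, h1⟩
      have h4 := Int.le_of_dvd one_pos h3
      omega
    have h1 : ord (w.valuation L) (ev θ d) = ord ((dn L' w).valuation L') (ev θ' d) := by
      have h2 := hord (ev θ' d) hd
      rw [halg, hf, he1] at h2
      rw [h2]
      push_cast
      ring
    rw [H38T1.eo_sc hdL, h1, ← H38T1.eo_sc hd]
    apply hev
    rw [hdn]
    exact hw
  obtain ⟨r, hr⟩ := hres
  refine ⟨φ r, ?_⟩
  rw [← map_mul, ← hr, hφ]

end H30PN
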