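import Mathlib

/-!
ROW Ch (project MP_78d38b_PPN, about 140 lines; Mathlib only): chains of quadratic extensions.

PROOF. `G = N ≃ₐ[K] N`, `Nat.card G = 2 ^ n` (`IsGalois.card_aut_eq_finrank`). Strong induction on `finrank K F`. If `F = ⊥`: `h0`. Otherwise
`H' = F.fixingSubgroup ≠ ⊤`, `Nat.card H' = 2 ^ s` (a divisor of `2 ^ n`), `s < n`; `Sylow.exists_subgroup_card_pow_succ` (`p = 2`): there is a subgroup
`H ≥ H'` with `Nat.card H = 2 ^ (s + 1)`. `F₀ = IntermediateField.fixedField H ≤ F` (`F = fixedField H'`: `IsGalois.fixedField_fixingSubgroup`), `finrank K F₀ <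
finrank K F` (`finrank K (fixedField H) = index`, `IntermediateField.finrank_fixedField_eq_card`: `finrank (fixedField H) N = Nat.card H`). So `P F₀`.
Choose `g ∈ H`, `g ∉ H'`. `H'` has index two in `H`, so it is normal in `H` (`Subgroup.normal_of_index_eq_two` for `H'.subgroupOf H`) and `g^2 ∈ H'`
(`Subgroup.mul_self_mem_of_index_two`-like), and `H = H' ∪ g H'`. `g` maps `F` into `F`: for `x ∈ F`, `h' ∈ H'`: `h' (g x) = g ((g⁻¹ h' g) x) = g x`. So `g` restricts to
`σ : F ≃ₐ[K] F` (inverse: `g⁻¹`), `σ (σ x) = x` since `g^2 ∈ H'`, `σ` fixes `F₀` (`g ∈ H`), and `x ∈ F` with `σ x = x` is fixed by `H'` and `g`, hence by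
`H`, so `x ∈ F₀`. `hs F₀ F ..`.
-/

set_option autoImplicit false

namespace H30PN

private theorem pnch_fixed_top {K N : Type} [Field K] [Field N] [Algebra K N] [FiniteDimensional K N]
    [IsGalois K N] : IntermediateField.fixedField (⊤ : Subgroup (N ≃ₐ[K] N)) = ⊥ := by
  rw [← IntermediateField.fixingSubgroup_bot]
  exact IsGalois.fixedField_fixingSubgroup ⊥

private theorem pnch_step {K N : Type} [Field K] [Field N] [Algebra K N] [FiniteDimensional K N]
    [IsGalois K N] (P : IntermediateField K N → Prop)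
    (hs : ∀ (F F' : IntermediateField K N) (h : F ≤ F') (σ : F' ≃ₐ[K] F'), (∀ x, σ (σ x) = x) →
      (∀ x : F, σ (IntermediateField.inclusion h x) = IntermediateField.inclusion h x) →
      (∀ x, σ x = x → ∃ y : F, IntermediateField.inclusion h y = x) → P F → P F')
    (H H₁ : Subgroup (N ≃ₐ[K] N)) (hle : H ≤ H₁) (hne : ∃ g ∈ H₁, g ∉ H)
    (hmul : ∀ a ∈ H₁, ∀ b ∈ H₁, (a * b ∈ H ↔ (a ∈ H ↔ b ∈ H)))
    (hP : P (IntermediateField.fixedField H₁)) : P (IntermediateField.fixedField H) := by
  obtain ⟨g, hg1, hg⟩ := hne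
  have hle' : IntermediateField.fixedField H₁ ≤ IntermediateField.fixedField H := by
    intro x hx
    rw [IntermediateField.mem_fixedField_iff] at hx ⊢
    exact fun f hf => hx f (hle hf)
  have hmap : ∀ a ∈ H₁, a ∉ H → ∀ x ∈ IntermediateField.fixedField H,
      a x ∈ IntermediateField.fixedField H := by
    intro a ha1 ha x hx
    rw [IntermediateField.mem_fixedField_iff] at hx ⊢
    intro f hf
    have h1 : a⁻¹ ∉ H := fun h => ha (by simpa using H.inv_mem h)
    have h2 : a⁻¹ * f ∉ H := by
      rw [hmul _ (H₁.inv_mem ha1) _ (hle hf)]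
      intro h
      exact h1 (h.2 hf)
    have h3 : a⁻¹ * f * a ∈ H := by
      rw [hmul _ (H₁.mul_mem (H₁.inv_mem ha1) (hle hf)) _ ha1]
      exact iff_of_false h2 ha
    have h4 := hx _ h3
    have h5 : a ((a⁻¹ * f * a) x) = f (a x) := by
      rw [← AlgEquiv.mul_apply, ← mul_assoc, ← mul_assoc, mul_inv_cancel, one_mul,
        AlgEquiv.mul_apply]
    rw [← h5, h4]
  have hgi : g⁻¹ ∉ H := fun h => hg (by simpa using H.inv_mem h)
  let σ : IntermediateField.fixedField H ≃ₐ[K] IntermediateField.fixedField H :=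
    { toFun := fun x => ⟨g x, hmap g hg1 hg x x.2⟩
      invFun := fun x => ⟨g⁻¹ x, hmap g⁻¹ (H₁.inv_mem hg1) hgi x x.2⟩
      left_inv := by
        intro x
        apply Subtype.ext
        show g⁻¹ (g x) = x
        rw [← AlgEquiv.mul_apply, inv_mul_cancel, AlgEquiv.one_apply]
      right_inv := by
        intro x
        apply Subtype.ext
        show g (g⁻¹ x) = x
        rw [← AlgEquiv.mul_apply, mul_inv_cancel, AlgEquiv.one_apply]
      map_mul' := by
        intro x y
        apply Subtype.ext
        show g ((x : N) * y) = g x * g y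
        exact map_mul g _ _
      map_add' := by
        intro x y
        apply Subtype.ext
        show g ((x : N) + y) = g x + g y
        exact map_add g _ _
      commutes' := by
        intro r
        apply Subtype.ext
        show g (algebraMap K N r) = algebraMap K N r
        exact g.commutes r }
  have hσ : ∀ x, ((σ x : IntermediateField.fixedField H) : N) = g x := fun _ => rfl
  refine hs _ _ hle' σ ?_ ?_ ?_ hP
  · intro x
    apply Subtype.ext
    rw [hσ, hσ, ← AlgEquiv.mul_apply]
    have h1 : g * g ∈ H := (hmul g hg1 g hg1).2 Iff.rfl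
    exact (IntermediateField.mem_fixedField_iff _ _).1 x.2 _ h1
  · intro x
    apply Subtype.ext
    rw [hσ]
    exact (IntermediateField.mem_fixedField_iff _ _).1 x.2 g hg1
  · intro x hx
    have hx' : g (x : N) = x := by
      rw [← hσ, hx]
    refine ⟨⟨x, ?_⟩, rfl⟩
    rw [IntermediateField.mem_fixedField_iff]
    intro a ha
    by_cases haH : a ∈ H
    · exact (IntermediateField.mem_fixedField_iff _ _).1 x.2 a haH
    · have h1 : g⁻¹ * a ∈ H := by
        rw [hmul _ (H₁.inv_mem hg1) _ ha]
        exact iff_of_false hgi haH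
      have h2 := (IntermediateField.mem_fixedField_iff _ _).1 x.2 _ h1
      have h3 : g ((g⁻¹ * a) (x : N)) = a x := by
        rw [← AlgEquiv.mul_apply, ← mul_assoc, mul_inv_cancel, one_mul]
      rw [← h3, h2, hx']

theorem chain_ind {K N : Type} [Field K] [Field N] [Algebra K N] [FiniteDimensional K N]
    [IsGalois K N] {n : ℕ} (hn : Module.finrank K N = 2 ^ n) (P : IntermediateField K N → Prop)
    (h0 : P ⊥)
    (hs : ∀ (F F' : IntermediateField K N) (h : F ≤ F') (σ : F' ≃ₐ[K] F'), (∀ x, σ (σ x) = x) →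
      (∀ x : F, σ (IntermediateField.inclusion h x) = IntermediateField.inclusion h x) →
      (∀ x, σ x = x → ∃ y : F, IntermediateField.inclusion h y = x) → P F → P F')
    (F : IntermediateField K N) : P F := by
  have hcard : Nat.card (N ≃ₐ[K] N) = 2 ^ n := by
    rw [← hn]
    exact IsGalois.card_aut_eq_finrank K N
  have key : ∀ (k s : ℕ) (H : Subgroup (N ≃ₐ[K] N)), Nat.card H = 2 ^ s → s + k = n →
      P (IntermediateField.fixedField H) := by
    intro k
    induction k with
    | zero =>
      intro s H hH hk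
      have h1 : H = ⊤ := by
        refine Subgroup.eq_top_of_card_eq H ?_
        rw [hH, hcard]
        congr 1
      rw [h1, pnch_fixed_top]
      exact h0
    | succ k ih =>
      intro s H hH hk
      have : Fact (Nat.Prime 2) := ⟨Nat.prime_two⟩
      obtain ⟨H₁, h1, h2⟩ := Sylow.exists_subgroup_card_pow_succ (p := 2) (n := s)
        (by rw [hcard]; exact pow_dvd_pow 2 (by omega)) hH
      have h3 := ih (s + 1) H₁ h1 (by omega)
      have hc2 : Nat.card (H.subgroupOf H₁) = 2 ^ s := by
        rw [← hH]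
        exact Nat.card_congr (Subgroup.subgroupOfEquivOfLe h2).toEquiv
      have hidx : (H.subgroupOf H₁).index = 2 := by
        have h4 := Subgroup.card_mul_index (H.subgroupOf H₁)
        rw [hc2, h1, pow_succ] at h4
        exact Nat.eq_of_mul_eq_mul_left (by positivity) h4
      refine pnch_step P hs H H₁ h2 ?_ ?_ h3
      · by_contra h
        push Not at h
        have h4 : H = H₁ := le_antisymm h2 h
        rw [h4, h1] at hH
        have := Nat.pow_right_injective (le_refl 2) hH
        omega
      · intro a ha b hb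
        have h4 := Subgroup.mul_mem_iff_of_index_two hidx (a := ⟨a, ha⟩) (b := ⟨b, hb⟩)
        simpa [Subgroup.mem_subgroupOf] using h4
  rw [← IsGalois.fixedField_fixingSubgroup F]
  obtain ⟨s, hs1, hs2⟩ := (Nat.dvd_prime_pow Nat.prime_two).1
    (hcard ▸ Subgroup.card_subgroup_dvd_card F.fixingSubgroup)
  exact key (n - s) s _ hs2 (by omega)

end H30PN
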