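import Pool.Agent.H76.PP.Df1

/-!
Definitions for the project MP_78d38b_PPN (Theorem P+: all fields inside Galois extensions of two-power
degree); no row.
-/

set_option autoImplicit false
set_option linter.unusedSectionVars false
open scoped Classical

open WithZero NumberField IsDedekindDomain H38RT H76PP
open H38T1 (SC sc scu rep eo la si Pri OddP tp unif)

namespace H30PN

/-- `x^3 + A x + B` has no root modulo `v`. -/
def NoRt (k : Type) [Field k] [NumberField k] (v : HeightOneSpectrum (𝓞 k)) (A B : 𝓞 k) : Prop :=
  ∀ t : 𝓞 k, t ^ 3 + A * t + B ∉ v.asIdeal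

/-- The place `v` of `k` is unramified in `k'`: the valuations of `k'` above `v` extend the
valuation `v` (ramification index one). -/
def Unr (k k' : Type) [Field k] [NumberField k] [Field k'] [NumberField k'] [Algebra k k']
    (v : HeightOneSpectrum (𝓞 k)) : Prop :=
  ∀ w : HeightOneSpectrum (𝓞 k'), dn k w = v → ∀ x : k,
    w.valuation k' (algebraMap k k' x) = v.valuation k x

/-- In the cubic extensions attached to `a`, `b` the elements of square norm have even valuations
above `v`. -/
def Inr (k : Type) [Field k] [NumberField k] (v : HeightOneSpectrum (𝓞 k)) (a b : k) : Prop :=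
  ∀ (L : Type) [Field L] [NumberField L] [Algebra k L] (θ : L), Cub k L a b θ →
    ∀ w : HeightOneSpectrum (𝓞 L), dn k w = v → ∀ u : L, u ≠ 0 → IsSquare (Algebra.norm k u) →
      eo w (sc u) = 0

/-- The weak local conditions on the element with the coordinates `d`. -/
structure WL {K k L : Type} [Field K] [NumberField K] [Field k] [NumberField k] [Field L]
    [NumberField L] [Algebra K k] [Algebra k L] (S : Set (HeightOneSpectrum (𝓞 K))) (a b : K)
    (θ : L) (d : Fin 3 → k) : Prop where
  ne : ev θ d ≠ 0
  nm : IsSquare (Algebra.norm k (ev θ d))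
  evn : ∀ w : HeightOneSpectrum (𝓞 L), dn K (dn k w) ∉ S → eo w (sc (ev θ d)) = 0
  loc : ∀ v ∈ S, ∀ ι : k →ₐ[K] v.adicCompletion K,
    LC (ι : k →+* v.adicCompletion K) (algebraMap K k a) (algebraMap K k b) d

/-- Every class over `k` which satisfies the weak local conditions is trivial. -/
def XT (K k : Type) [Field K] [NumberField K] [Field k] [NumberField k] [Algebra K k]
    (S : Set (HeightOneSpectrum (𝓞 K))) (a b : K) : Prop :=
  ∀ (L : Type) [Field L] [NumberField L] [Algebra k L] (θ : L),
    Cub k L (algebraMap K k a) (algebraMap K k b) θ → ∀ d : Fin 3 → k, WL S a b θ d →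
      IsSquare (ev θ d)

/-- `N / K` is a Galois extension whose degree is a power of two, unramified outside `Sg`, in which
the primes of `S` split completely. -/
structure Adm {K : Type} [Field K] [NumberField K] (Sg S : Set (HeightOneSpectrum (𝓞 K)))
    (N : Type) [Field N] [NumberField N] [Algebra K N] : Prop where
  gal : IsGalois K N
  two : ∃ n : ℕ, Module.finrank K N = 2 ^ n
  unr : ∀ v : HeightOneSpectrum (𝓞 K), v ∉ Sg → Unr K N v
  spl : ∀ v ∈ S, Nonempty (N →ₐ[K] v.adicCompletion K)

/-- The primes above two. -/
def P2 (K : Type) [Field K] [NumberField K] : Set (HeightOneSpectrum (𝓞 K)) :=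
  {v | v.valuation K 2 < 1}

end H30PN
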