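import Pool.Agent.H30.PN.Df
import Pool.Agent.H76.PP.Ta
import Pool.Agent.H10.Comp

/-!
ROW Em (project MP_78d38b_PPN, about 140 lines): an embedding into a completion extends to the
completion of the induced place.

PROOF. Write `V = Valued.v` on `v.adicCompletion K` (values in `ℤᵐ⁰`; `V (algebraMap x) = v.valuation K x` for `x ∈ K`:
`HeightOneSpectrum.valuedAdicCompletion_eq_valuation'`). For `x ∈ 𝓞 k`: `V (ι x) ≤ 1` (`x` is a root of a monic polynomial with integral
coefficients; an element integral over `𝓞 K` (or `ℤ`) has `V ≤ 1`: `Valuation.mem_of_integral`-like, or: if `V > 1` then the leading term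
dominates). `w.asIdeal = {x ∈ 𝓞 k | V (ι x) < 1}`: a prime ideal, not zero, since it contains the image of a nonzero element of `v.asIdeal`.
For `x ∈ k`: `w.valuation k x ≤ 1 → V (ι x) ≤ 1` (`x = n / d` with `d ∉ w`: `w.exists_primeCompl_mul_eq_of_integer`, `V (ι d) = 1`), and
`w.valuation k x < 1 → V (ι x) < 1` (`n ∈ w`). Let `π ∈ k` be a uniformizer of `w`; `V (ι π) ≤ exp (-1)`. If `w.valuation k x ≤ exp (-n)` then
`V (ι x) ≤ exp (-n)` (divide by `π ^ n`). So `ι : WithVal (w.valuation k) → v.adicCompletion K` is continuous at zero, hence continuous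
(`continuous_of_continuousAt_zero`, `Valued.mem_nhds`, compare `Te_nhd` in `Pool/Agent/H76/PP/Te.lean`). `v.adicCompletion K` is complete and separated,
`w.adicCompletion k` is the completion of `WithVal (w.valuation k)`: `j = UniformSpace.Completion.extensionHom ι hcont`, and
`j (algebraMap x) = ι x` (`UniformSpace.Completion.extensionHom_coe`; `algebraMap k (w.adicCompletion k) x = ↑x`).
(Other ways are welcome; the statement does not mention topology.)
-/

set_option autoImplicit false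
set_option linter.unusedSectionVars false
open scoped Classical

open WithZero NumberField IsDedekindDomain H38RT H76PP
open H38T1 (SC sc scu rep eo la si Pri OddP tp unif)

namespace H30PN

section

variable {K k : Type} [Field K] [NumberField K] [Field k] [NumberField k] [Algebra K k]
    (v : HeightOneSpectrum (𝓞 K)) (ι : k →ₐ[K] v.adicCompletion K)

theorem Em_int (x : 𝓞 k) : Valued.v (ι (x : k)) ≤ (1 : ℤᵐ⁰) := by
  have h3 : IsIntegral (v.adicCompletionIntegers K) (ι (x : k)) := by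
    obtain ⟨p, hp, hp2⟩ := map_isIntegral_int (ι : k →+* v.adicCompletion K) x.isIntegral_coe
    refine ⟨p.map (Int.castRingHom (v.adicCompletionIntegers K)), hp.map _, ?_⟩
    rw [Polynomial.eval₂_map, Subsingleton.elim ((algebraMap (v.adicCompletionIntegers K) (v.adicCompletion K)).comp
      (Int.castRingHom (v.adicCompletionIntegers K))) _]
    exact hp2
  obtain ⟨y, hy⟩ := (IsIntegrallyClosed.isIntegral_iff (R := v.adicCompletionIntegers K)).1 h3
  rw [← hy]
  exact y.2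

theorem Em_alg (a : 𝓞 K) (ha : a ∈ v.asIdeal) : Valued.v (ι (algebraMap K k (a : K))) < (1 : ℤᵐ⁰) := by
  rw [ι.commutes]
  have h1 := v.valuedAdicCompletion_eq_valuation' (K := K) (a : K)
  change Valued.v (algebraMap K (v.adicCompletion K) (a : K)) = _ at h1
  rw [h1]
  exact (v.valuation_lt_one_iff_mem (K := K) a).2 ha

/-- the induced place -/
noncomputable def Em_w : HeightOneSpectrum (𝓞 k) where
  asIdeal :=
    { carrier := {x | Valued.v (ι (x : k)) < (1 : ℤᵐ⁰)}
      add_mem' := by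
        intro x y hx hy
        change Valued.v (ι ((x : k) + (y : k))) < (1 : ℤᵐ⁰)
        rw [map_add]
        exact (Valuation.map_add _ _ _).trans_lt (max_lt hx hy)
      zero_mem' := by
        change Valued.v (ι (0 : k)) < (1 : ℤᵐ⁰)
        rw [map_zero, map_zero]
        exact zero_lt_one
      smul_mem' := by
        intro c x hx
        change Valued.v (ι ((c : k) * (x : k))) < (1 : ℤᵐ⁰)
        rw [map_mul, map_mul]
        exact lt_of_le_of_lt (mul_le_of_le_one_left' (Em_int v ι c)) hx }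
  isPrime := by
    refine ⟨?_, ?_⟩
    · intro h
      have h1 := (Ideal.eq_top_iff_one _).1 h
      change Valued.v (ι (1 : k)) < (1 : ℤᵐ⁰) at h1
      rw [map_one, map_one] at h1
      exact lt_irrefl _ h1
    · intro x y hxy
      change Valued.v (ι ((x : k) * (y : k))) < (1 : ℤᵐ⁰) at hxy
      rw [map_mul, map_mul] at hxy
      by_contra hc
      rw [not_or] at hc
      have h1 : ¬ Valued.v (ι (x : k)) < (1 : ℤᵐ⁰) := hc.1
      have h2 : ¬ Valued.v (ι (y : k)) < (1 : ℤᵐ⁰) := hc.2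
      have h3 := le_antisymm (Em_int v ι x) (not_lt.1 h1)
      have h4 := le_antisymm (Em_int v ι y) (not_lt.1 h2)
      rw [h3, h4, mul_one] at hxy
      exact lt_irrefl _ hxy
  ne_bot := by
    intro h
    obtain ⟨a, ha, ha0⟩ := Submodule.exists_mem_ne_zero_of_ne_bot v.ne_bot
    have h1 : Valued.v (ι ((algebraMap (𝓞 K) (𝓞 k) a : 𝓞 k) : k)) < (1 : ℤᵐ⁰) := Em_alg v ι a ha
    have h2 : algebraMap (𝓞 K) (𝓞 k) a ∈ (⊥ : Ideal (𝓞 k)) := by
      rw [← h]
      exact h1
    rw [Ideal.mem_bot] at h2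
    exact ha0 ((map_eq_zero_iff _ (FaithfulSMul.algebraMap_injective (𝓞 K) (𝓞 k))).1 h2)

theorem Em_mem (x : 𝓞 k) : x ∈ (Em_w v ι).asIdeal ↔ Valued.v (ι (x : k)) < (1 : ℤᵐ⁰) := Iff.rfl

theorem Em_one {x : 𝓞 k} (hx : x ∉ (Em_w v ι).asIdeal) : Valued.v (ι (x : k)) = (1 : ℤᵐ⁰) := by
  rw [Em_mem] at hx
  exact le_antisymm (Em_int v ι x) (not_lt.1 hx)

theorem Em_frac {x : k} (hx : (Em_w v ι).valuation k x ≤ 1) :
    ∃ n : 𝓞 k, (Em_w v ι).valuation k (n : k) = (Em_w v ι).valuation k x ∧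
      (Valued.v (ι x) : ℤᵐ⁰) = Valued.v (ι (n : k)) := by
  obtain ⟨n, ⟨d, hd⟩, hnd⟩ := HeightOneSpectrum.exists_primeCompl_mul_eq_of_integer (Em_w v ι) x hx
  change d ∉ (Em_w v ι).asIdeal at hd
  change x * (d : k) = (n : k) at hnd
  have hd1 : (Em_w v ι).valuation k (d : k) = 1 :=
    ((Em_w v ι).valuation_eq_one_iff_notMem (K := k)).mpr hd
  refine ⟨n, ?_, ?_⟩
  · rw [← hnd, map_mul, hd1, mul_one]
  · rw [← hnd, map_mul, map_mul, Em_one v ι hd, mul_one]

theorem Em_le {x : k} (hx : (Em_w v ι).valuation k x ≤ 1) : (Valued.v (ι x) : ℤᵐ⁰) ≤ 1 := by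
  obtain ⟨n, _, h2⟩ := Em_frac v ι hx
  rw [h2]
  exact Em_int v ι n

theorem Em_lt {x : k} (hx : (Em_w v ι).valuation k x < 1) : (Valued.v (ι x) : ℤᵐ⁰) < 1 := by
  obtain ⟨n, h1, h2⟩ := Em_frac v ι hx.le
  rw [h2]
  rw [← h1] at hx
  exact (Em_mem v ι n).1 (((Em_w v ι).valuation_lt_one_iff_mem (K := k) n).1 hx)

theorem Em_exp {x : k} {m : ℕ} (hx : (Em_w v ι).valuation k x ≤ exp (-(m : ℤ))) :
    (Valued.v (ι x) : ℤᵐ⁰) ≤ exp (-(m : ℤ)) := by
  obtain ⟨π, hπ⟩ := (Em_w v ι).valuation_exists_uniformizer k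
  have hπ0 : π ≠ 0 := by
    rintro rfl
    rw [map_zero] at hπ
    exact absurd hπ.symm exp_ne_zero
  have h1 : (Valued.v (ι π) : ℤᵐ⁰) ≤ exp (-1 : ℤ) := by
    have h2 := Em_lt v ι (x := π) (by rw [hπ, ← exp_zero, exp_lt_exp]; norm_num)
    by_cases h0 : (Valued.v (ι π) : ℤᵐ⁰) = 0
    · rw [h0]
      exact zero_le
    · rw [← exp_log h0, ← exp_zero, exp_lt_exp] at h2
      rw [← exp_log h0, exp_le_exp]
      omega
  have h3 : (Em_w v ι).valuation k (x / π ^ m) ≤ 1 := by
    rw [map_div₀, map_pow, hπ, ← exp_nsmul]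
    have h4 : (exp (m • (-1 : ℤ)) : ℤᵐ⁰) = exp (-(m : ℤ)) := by
      congr 1
      rw [nsmul_eq_mul]
      ring
    rw [h4]
    exact div_le_one_of_le₀ hx zero_le
  have h5 := Em_le v ι h3
  have hπm : ι (π ^ m) ≠ 0 := (map_ne_zero ι).2 (pow_ne_zero m hπ0)
  have h6 : ι x = ι (x / π ^ m) * ι (π ^ m) := by
    rw [← map_mul, div_mul_cancel₀ _ (pow_ne_zero m hπ0)]
  rw [h6, map_mul, map_pow, map_pow]
  calc (Valued.v (ι (x / π ^ m)) : ℤᵐ⁰) * Valued.v (ι π) ^ m ≤ 1 * (exp (-1 : ℤ)) ^ m :=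
        mul_le_mul' h5 (pow_le_pow_left' h1 m)
    _ = exp (-(m : ℤ)) := by
        rw [one_mul, ← exp_nsmul]
        congr 1
        rw [nsmul_eq_mul]
        ring

theorem Em_small : ∀ U ∈ nhds (0 : v.adicCompletion K), ∃ m : ℕ, ∀ x : k,
    (Em_w v ι).valuation k x ≤ exp (-(m : ℤ)) → (ι : k →+* v.adicCompletion K) x ∈ U := by
  intro U hU
  rw [Valued.mem_nhds_zero] at hU
  obtain ⟨γ, hγ⟩ := hU
  obtain ⟨m, hm⟩ := exists_exp_neg_natCast_lt
    (x := MonoidWithZeroHom.ValueGroup₀.embedding γ.1) (by simp)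
  refine ⟨m, fun x hx => hγ ?_⟩
  change Valued.v.restrict _ < γ.1
  rw [Valuation.restrict_lt_iff_lt_embedding]
  exact lt_of_le_of_lt (Em_exp v ι hx) hm

end

theorem emb {K k : Type} [Field K] [NumberField K] [Field k] [NumberField k] [Algebra K k]
    (v : HeightOneSpectrum (𝓞 K)) (ι : k →ₐ[K] v.adicCompletion K) :
    ∃ (w : HeightOneSpectrum (𝓞 k)) (j : w.adicCompletion k →+* v.adicCompletion K),
      ∀ x : k, j (algebraMap k (w.adicCompletion k) x) = ι x :=
  ⟨Em_w v ι, Pool.Agent.H10.adicLift (Em_w v ι) (ι : k →+* v.adicCompletion K)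
    (Pool.Agent.H10.continuous_fromVal (Em_w v ι) _ (Em_small v ι)),
    fun x => Pool.Agent.H10.adicLift_algebraMap (Em_w v ι) (ι : k →+* v.adicCompletion K) _ x⟩

end H30PN
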