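import Mathlib

/-!
ROW Ex (project MP_78d38b_PPN, about 80 lines; Mathlib only): extension of embeddings of subfields of a
normal extension.

PROOF. `j₀ : N →ₐ[K] Ω`. Let `M = AlgebraicClosure Ω`. The composition `F → Ω → M` extends to `φ : N →ₐ[K] M` (`N` is algebraic over
`F`: `IsAlgClosed.lift` with `Algebra F M` given by the composition, or `IntermediateField.exists_algHom_of_splits`-like,
or `AlgHom` extension lemmas). `N / K` is normal: all embeddings `N →ₐ[K] M` have the same image (`AlgHom.fieldRange_of_normal`-like: for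
`ψ = (Ω → M) ∘ j₀` there is `g : N ≃ₐ[K] N` with `φ = ψ ∘ g`, e.g. from `Normal.algHomEquivAut`,
`AlgHom.restrictNormal`, or: the minimal polynomial of `x ∈ N` splits in `N`, so its roots in `M` are the images of the roots in `N` under `ψ`). So
`φ x` lies in the image of `Ω`; define `ι' x` = the element of `Ω` whose image is `φ x`, for `x ∈ F'`: with `g`, simply `ι' = (j₀ ∘ g)` restricted
to `F'`. `ι' x = ι x` for `x ∈ F` since `Ω → M` is injective.
-/

set_option autoImplicit false

namespace H30PN

theorem ext_emb {K N : Type} [Field K] [Field N] [Algebra K N] [FiniteDimensional K N]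
    [Normal K N] {Ω : Type} [Field Ω] [Algebra K Ω] (hN : Nonempty (N →ₐ[K] Ω))
    {F F' : IntermediateField K N} (h : F ≤ F') (ι : F →ₐ[K] Ω) :
    ∃ ι' : F' →ₐ[K] Ω, ∀ x : F, ι' (IntermediateField.inclusion h x) = ι x := by
  obtain ⟨j₀⟩ := hN
  have hK' : ∀ s : N, IsIntegral K s ∧ ((minpoly K s).map (algebraMap K Ω)).Splits := by
    intro s
    refine ⟨Algebra.IsIntegral.isIntegral s, ?_⟩
    have h1 : ((minpoly K s).map (algebraMap K N)).Splits := Normal.splits inferInstance s
    have h2 : (algebraMap K Ω) = (j₀ : N →+* Ω).comp (algebraMap K N) := by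
      ext x
      simp
    rw [h2, ← Polynomial.map_map]
    exact h1.map _
  obtain ⟨φ, hφ⟩ := IntermediateField.exists_algHom_of_splits hK' ι
  refine ⟨φ.comp F'.val, fun x => ?_⟩
  have := DFunLike.congr_fun hφ x
  simpa using this

end H30PN
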