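import Pool.Agent.H30.PN.Fi

/-!
Let `N / K` be a finite Galois extension of number fields of two-power degree in which the primes above
two split completely.  Then for a positive proportion of the elliptic curves over `K` the group of
points is finite and the two-primary part of the Tate-Shafarevich group is trivial over all the fields
between `K` and `N`.
-/

set_option autoImplicit false
open scoped Classical

namespace Pool.Agent.Results.MP_78d38b_nt.FixedTwoExtensions

open NumberField WeierstrassCurve IsDedekindDomain Pool.Agent.H10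

/-- The pairs `(A, B)` of algebraic integers of `K` of height at most `X`: the absolute values of all
complex conjugates of `A` are at most `X²` and those of `B` are at most `X³`. -/
def Box (K : Type) [Field K] [NumberField K] (X : ℝ) : Set (𝓞 K × 𝓞 K) :=
  {p | ∀ s : K →+* ℂ, ‖s (p.1 : K)‖ ≤ X ^ 2 ∧ ‖s (p.2 : K)‖ ≤ X ^ 3}

variable {K : Type} [Field K] [NumberField K]

/-- The curve `E : y² = x³ + A x + B` over the extension `M` of `K`, where `p = (A, B)`. -/
def curve (p : 𝓞 K × 𝓞 K) (M : Type) [Field M] [Algebra K M] : WeierstrassCurve M :=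
  ⟨0, 0, 0, algebraMap K M p.1, algebraMap K M p.2⟩

/-- The curve has finitely many points over `M` and its Tate-Shafarevich group over `M` has no
nontrivial element of two-power order. -/
def Triv (p : 𝓞 K × 𝓞 K) (M : Type) [Field M] [NumberField M] [Algebra K M] : Prop :=
  Finite (curve p M).toAffine.Point ∧ Sha2Trivial M (curve p M)

/-- Let `N / K` be a finite Galois extension of number fields whose degree is a power of two and in which
the primes above two split completely.  There are `c > 0` and `X₀` such that for all `X ≥ X₀` at least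
`c * #(Box K X)` pairs `(A, B)` of the finite set `Box K X`, with pairwise different `j`-invariants,
satisfy: `E : y² = x³ + A x + B` is an elliptic curve, and for all fields `M` between `K` and `N` the
group `E(M)` is finite and the two-primary part of the Tate-Shafarevich group of `E` over `M` is
trivial. -/
theorem result (K N : Type) [Field K] [NumberField K] [Field N] [NumberField N] [Algebra K N]
    (hgal : IsGalois K N) (hdeg : ∃ r : ℕ, Module.finrank K N = 2 ^ r)
    (htwo : ∀ v : HeightOneSpectrum (𝓞 K), (2 : 𝓞 K) ∈ v.asIdeal →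
      ∃ i : N →+* v.adicCompletion K, ∀ x : K,
        i (algebraMap K N x) = algebraMap K (v.adicCompletion K) x) :
    ∃ c X₀ : ℝ, 0 < c ∧ ∀ X : ℝ, X₀ ≤ X → (Box K X).Finite ∧
      ∃ G : Finset (𝓞 K × 𝓞 K), c * ((Box K X).ncard : ℝ) ≤ (G.card : ℝ) ∧
        (∀ p ∈ G, p ∈ Box K X ∧ 4 * p.1 ^ 3 + 27 * p.2 ^ 2 ≠ 0 ∧
          ∀ (M : IntermediateField K N) [NumberField M], Triv p M) ∧
        ∀ p ∈ G, ∀ q ∈ G, p ≠ q → p.1 ^ 3 * q.2 ^ 2 ≠ q.1 ^ 3 * p.2 ^ 2 := by
  have hbox : ∀ X : ℝ, Box K X = H76PP.Bx K X := by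
    intro X
    ext p
    exact ⟨fun h => ⟨fun s => (h s).1, fun s => (h s).2⟩, fun h s => ⟨h.1 s, h.2 s⟩⟩
  obtain ⟨r, hr⟩ := hdeg
  obtain ⟨c, X₀, hc, h⟩ := H30PN.main_fixed K N hr htwo
  refine ⟨c, X₀, hc, fun X hX => ?_⟩
  rw [hbox X]
  refine ⟨H76PP.Bx_fin K X, ?_⟩
  obtain ⟨G, h1, h2, h3⟩ := h X hX
  refine ⟨G, h3, fun p hp => ⟨(h1 p hp).1, (h1 p hp).2.1, fun M _ => (h1 p hp).2.2 M⟩,
    fun p hp q hq hne h4 => hne (h2 p hp q hq h4)⟩

end Pool.Agent.Results.MP_78d38b_nt.FixedTwoExtensions
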