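import Pool.Agent.H30.PN.Nk
import Pool.Agent.H76.PP.Ta

/-!
ROW Fu (project MP_78d38b_PPN, about 120 lines): the family over the larger fields. Use only the STATEMENTS of
Nk (`nort_all`) and Um (`unr_mid`, `dn_dn`).

PROOF. nort_dsc: let `6 ∉ v` and `4 A^3 + 27 B^2 ∈ v`; we show that `x^3 + A x + B` has a root modulo `v`. If `A ∈ v` then `27 B^2 ∈ v`, `B ∈ v` and `t = 0` is a root. If
`A ∉ v` there is `A' ∈ 𝓞 K` with `A A' - 1 ∈ v`; `t = 3 B A'`: `t^3 + A t + B ≡ 27 B^3 A'^3 + 3 B + B = B A'^3 (27 B^2 + 4 A^3) ≡ 0` (multiply by `A^3`).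
fam_up: ne: `algebraMap` is injective. irr: `nort_all` for `q` (`hF.irr` is `NoRt K q₀ A B`, `hq`). typ: empty. two: `2 ∈ w` implies `2 ∈ dn K w`
(`algebraMap 2 = 2`), so `B ∉ dn K w` i.e. `algebraMap B ∉ w`. three: the same. sqf: `6 ∉ w`, so `6 ∉ v`, `v = dn K w`. If `v ∈ Sg`: by nort_dsc `dsc A B ∉ v`, so
`algebraMap (dsc A B) ∉ w`, so not in `w^2` (`Ideal.pow_le_self`). If `v ∉ Sg`: `Unr K F v` (`hN.unr`, `unr_mid` for `k = K`, `k' = F`, `dn_self`); if `algebraMap (dsc A B) ∈
w^2` then `w.valuation F (..) ≤ exp (-2)` (`HeightOneSpectrum.intValuation_le_pow_iff_mem`-like, `valuation_of_algebraMap`), so `v.valuation K (dsc A B) ≤ exp (-2)`,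
`dsc A B ∈ v^2`, against `hF.sqf`. (`dsc` commutes with `algebraMap`.)
-/

set_option autoImplicit false
set_option linter.unusedSectionVars false
open scoped Classical

open WithZero NumberField IsDedekindDomain H38RT H76PP
open H38T1 (SC sc scu rep eo la si Pri OddP tp unif)

namespace H30PN

theorem nort_dsc {K : Type} [Field K] [NumberField K] {v : HeightOneSpectrum (𝓞 K)} {A B : 𝓞 K}
    (h6 : (6 : 𝓞 K) ∉ v.asIdeal) (h : NoRt K v A B) : dsc A B ∉ v.asIdeal := by
  intro hd
  have hprime := v.isPrime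
  have h3 : (3 : 𝓞 K) ∉ v.asIdeal := by
    intro h3
    apply h6
    have e : (6 : 𝓞 K) = 2 * 3 := by norm_num
    rw [e]
    exact Ideal.mul_mem_left _ _ h3
  by_cases hA : A ∈ v.asIdeal
  · have h27 : 3 * (3 * (3 * (B * B))) ∈ v.asIdeal := by
      have e : 3 * (3 * (3 * (B * B))) = dsc A B - 4 * A ^ 2 * A := by
        simp only [dsc]
        ring
      rw [e]
      exact sub_mem hd (Ideal.mul_mem_left _ _ hA)
    have hB : B ∈ v.asIdeal := by
      rcases hprime.mem_or_mem h27 with h4 | h4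
      · exact absurd h4 h3
      rcases hprime.mem_or_mem h4 with h5 | h5
      · exact absurd h5 h3
      rcases hprime.mem_or_mem h5 with h6' | h6'
      · exact absurd h6' h3
      rcases hprime.mem_or_mem h6' with h7 | h7 <;> exact h7
    apply h 0
    have e : (0 : 𝓞 K) ^ 3 + A * 0 + B = B := by ring
    rw [e]
    exact hB
  · obtain ⟨y, i, hi, hy⟩ := v.isMaximal.exists_inv hA
    apply h (3 * B * y)
    have hx : A * y - 1 ∈ v.asIdeal := by
      have e : A * y - 1 = -i := by rw [← hy]; ring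
      rw [e]
      exact neg_mem hi
    have e : (3 * B * y) ^ 3 + A * (3 * B * y) + B = B * y ^ 3 * dsc A B +
        (3 * B - 4 * B * ((A * y) ^ 2 + A * y + 1)) * (A * y - 1) := by
      simp only [dsc]
      ring
    rw [e]
    exact add_mem (Ideal.mul_mem_left _ _ hd) (Ideal.mul_mem_left _ _ hx)

theorem fam_up {K N : Type} [Field K] [NumberField K] [Field N] [NumberField N] [Algebra K N]
    {Sg S : Set (HeightOneSpectrum (𝓞 K))} (hN : Adm Sg S N) {q₀ : HeightOneSpectrum (𝓞 K)}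
    {T : Finset (HeightOneSpectrum (𝓞 K))} {A B : 𝓞 K} (hF : Fam q₀ T A B)
    (hSg : ∀ v ∈ Sg, NoRt K v A B) (F : IntermediateField K N) (q : HeightOneSpectrum (𝓞 F))
    (hq : dn K q = q₀) :
    Fam q ∅ (algebraMap (𝓞 K) (𝓞 F) A) (algebraMap (𝓞 K) (𝓞 F) B) := by
  have hmem : ∀ (w : HeightOneSpectrum (𝓞 F)) (a : 𝓞 K),
      a ∈ (dn K w).asIdeal ↔ algebraMap (𝓞 K) (𝓞 F) a ∈ w.asIdeal := fun w a => Iff.rfl
  have hdsc : dsc (algebraMap (𝓞 K) (𝓞 F) A) (algebraMap (𝓞 K) (𝓞 F) B) =
      algebraMap (𝓞 K) (𝓞 F) (dsc A B) := by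
    simp only [dsc, map_add, map_mul, map_pow, map_ofNat]
  refine ⟨?_, ?_, ?_, ?_, ?_, ?_⟩
  · intro h0
    apply hF.ne
    have h1 : algebraMap K F (algebraMap (𝓞 K) K A) = 0 := by
      have h2 : algebraMap K F (algebraMap (𝓞 K) K A) =
        algebraMap (𝓞 F) F (algebraMap (𝓞 K) (𝓞 F) A) := rfl
      rw [h2, h0, map_zero]
    have h3 : algebraMap (𝓞 K) K A = 0 := (algebraMap K F).injective (by rw [h1, map_zero])
    exact RingOfIntegers.coe_injective (by rw [h3]; exact (map_zero _).symm)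
  · refine nort_all hN F q ?_
    rw [hq]
    exact hF.irr
  · intro v hv
    exact absurd hv (Finset.notMem_empty v)
  · intro v hv
    have h1 : (2 : 𝓞 K) ∈ (dn K v).asIdeal := by
      rw [hmem, map_ofNat]
      exact hv
    exact hF.two _ h1
  · intro v hv
    have h1 : (3 : 𝓞 K) ∈ (dn K v).asIdeal := by
      rw [hmem, map_ofNat]
      exact hv
    exact hF.three _ h1
  · intro w h6
    have h6' : (6 : 𝓞 K) ∉ (dn K w).asIdeal := by
      intro h
      apply h6
      rw [hmem, map_ofNat] at h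
      exact h
    rw [hdsc]
    by_cases hv : dn K w ∈ Sg
    · intro h
      have h1 := nort_dsc h6' (hSg _ hv)
      exact h1 ((hmem w _).2 (Ideal.pow_le_self two_ne_zero h))
    · intro h
      have h1 : Unr K N (dn K w) := hN.unr _ hv
      have h2 : Unr K F (dn K w) := by
        apply unr_mid (K := K) (k := K) (k' := F) (N := N)
        · intro x
          rfl
        · rw [dn_self]
          exact h1
      have h3 := h2 w rfl (algebraMap (𝓞 K) K (dsc A B))
      have h4 : algebraMap K F (algebraMap (𝓞 K) K (dsc A B)) =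
        algebraMap (𝓞 F) F (algebraMap (𝓞 K) (𝓞 F) (dsc A B)) := rfl
      have h5 : w.intValuation (algebraMap (𝓞 K) (𝓞 F) (dsc A B)) ≤ exp (-((2 : ℕ) : ℤ)) :=
        (w.intValuation_le_pow_iff_mem _ 2).2 h
      rw [h4, HeightOneSpectrum.valuation_of_algebraMap,
        HeightOneSpectrum.valuation_of_algebraMap] at h3
      rw [h3] at h5
      exact hF.sqf _ h6' (((dn K w).intValuation_le_pow_iff_mem _ 2).1 h5)

end H30PN
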