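import Mathlib

/-!
ROW Hn (project MP_78d38b_PPN, about 80 lines; Mathlib only): fixed square classes.

PROOF. `τ δ = δ z^2`. Apply `τ`: `δ = τ δ (τ z)^2 = δ z^2 (τ z)^2`, so `(z τ z)^2 = 1`, `z τ z = ε`, `ε = 1` or `ε = -1`. Norms: `Nr δ = n^2`,
`Nr (τ x) = σ (Nr x)`: `(σ n)^2 = σ (Nr δ) = Nr (τ δ) = n^2 (Nr z)^2`, so `σ n = ± n Nr z`, `Nr z = ± σ n / n` (`n ≠ 0` as `δ ≠ 0`), so
`Nr z * σ (Nr z) = (σ n / n) (n / σ n) = 1`. But `Nr z * σ (Nr z) = Nr (z τ z) = Nr ε = ε^3 = ε` (`Algebra.norm_algebraMap`, `finrank = 3`). So `z τ z = 1`.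
(1) If `z = -1` then `τ δ = δ`: put `y₁ = 1`. Otherwise `y₁ = 1 + z ≠ 0`, `τ y₁ = 1 + z⁻¹ = y₁ / z`, so `z = y₁ / τ y₁` and `τ (δ y₁^2) = δ z^2 (τ y₁)^2 = δ y₁^2`.
(2) `δ₁ = δ y₁^2` has the norm `r₀^2`, `r₀ = n Nr y₁ ≠ 0`; it is fixed by `σ` (`σ (Nr δ₁) = Nr (τ δ₁) = Nr δ₁`): `σ r₀ = r₀` or `σ r₀ = - r₀`. In the first case take
`y = y₁`, `r = r₀`. In the second case take `y = y₁ * algebraMap r₀`: `τ (δ y^2) = δ y₁^2 (algebraMap (σ r₀))^2 = δ y^2`, and the norm of `δ y^2` is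
`r₀^2 (r₀^3)^2 = (r₀^4)^2`, `r = r₀^4`, `σ r = r`.
-/

set_option autoImplicit false

namespace H30PN

theorem fixed_class {k' L' : Type} [Field k'] [Field L'] [Algebra k' L'] [CharZero k']
    (h3 : Module.finrank k' L' = 3) (σ : k' →+* k') (hσ : ∀ x, σ (σ x) = x) (τ : L' →+* L')
    (hτ : ∀ x, τ (τ x) = x)
    (hστ : ∀ x : k', τ (algebraMap k' L' x) = algebraMap k' L' (σ x))
    (hN : ∀ x : L', Algebra.norm k' (τ x) = σ (Algebra.norm k' x)) {δ z : L'} (hδ : δ ≠ 0)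
    (hsq : IsSquare (Algebra.norm k' δ)) (hz : τ δ = δ * z ^ 2) :
    ∃ y : L', y ≠ 0 ∧ τ (δ * y ^ 2) = δ * y ^ 2 ∧
      ∃ r : k', σ r = r ∧ Algebra.norm k' (δ * y ^ 2) = r ^ 2 := by
  have hfd : FiniteDimensional k' L' := FiniteDimensional.of_finrank_pos (by rw [h3]; norm_num)
  have hNa : ∀ x : k', Algebra.norm k' (algebraMap k' L' x) = x ^ 3 := by
    intro x
    rw [Algebra.norm_algebraMap, h3]
  have hτδ : τ δ ≠ 0 := (map_ne_zero τ).2 hδ
  have hz0 : z ≠ 0 := by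
    rintro rfl
    rw [zero_pow two_ne_zero, mul_zero] at hz
    exact hτδ hz
  -- `z * τ z` is `1` or `-1`
  have h1 : (z * τ z) ^ 2 = 1 := by
    have h := congrArg τ hz
    rw [hτ, map_mul, map_pow, hz] at h
    have h2 : δ * (z * τ z) ^ 2 = δ * 1 := by
      rw [mul_one]
      calc δ * (z * τ z) ^ 2 = δ * z ^ 2 * τ z ^ 2 := by ring
        _ = δ := h.symm
    exact mul_left_cancel₀ hδ h2
  obtain ⟨n, hn⟩ := hsq
  have hn0 : n ≠ 0 := by
    rintro rfl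
    rw [mul_zero] at hn
    exact (Algebra.norm_ne_zero_iff.2 hδ) hn
  have h2 : Algebra.norm k' z * σ (Algebra.norm k' z) = 1 := by
    have e1 : (σ n) ^ 2 = (n * Algebra.norm k' z) ^ 2 := by
      have e2 := hN δ
      rw [hz, map_mul, map_pow, hn, map_mul] at e2
      rw [sq, ← e2]
      ring
    rcases sq_eq_sq_iff_eq_or_eq_neg.1 e1 with e3 | e3
    · have e4 := congrArg σ e3
      rw [hσ, map_mul, e3] at e4
      have e5 : n * (Algebra.norm k' z * σ (Algebra.norm k' z)) = n * 1 := by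
        rw [mul_one, ← mul_assoc]
        exact e4.symm
      exact mul_left_cancel₀ hn0 e5
    · have e4 := congrArg σ e3
      rw [hσ, map_neg, map_mul, e3] at e4
      have e5 : n * (Algebra.norm k' z * σ (Algebra.norm k' z)) = n * 1 := by
        rw [mul_one, ← mul_assoc]
        calc n * Algebra.norm k' z * σ (Algebra.norm k' z)
            = -(-(n * Algebra.norm k' z) * σ (Algebra.norm k' z)) := by ring
          _ = n := e4.symm
      exact mul_left_cancel₀ hn0 e5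
  have hztz : z * τ z = 1 := by
    rw [sq] at h1
    rcases mul_self_eq_one_iff.1 h1 with h | h
    · exact h
    · exfalso
      have e1 : Algebra.norm k' (z * τ z) = 1 := by
        rw [map_mul, hN]
        exact h2
      rw [h] at e1
      have e2 := hNa (-1)
      rw [map_neg, map_one, e1] at e2
      norm_num at e2
  obtain ⟨y₁, hy1, hfix⟩ : ∃ y₁ : L', y₁ ≠ 0 ∧ τ (δ * y₁ ^ 2) = δ * y₁ ^ 2 := by
    by_cases hz1 : z = -1
    · refine ⟨1, one_ne_zero, ?_⟩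
      rw [one_pow, mul_one, hz, hz1]
      ring
    · refine ⟨1 + z, ?_, ?_⟩
      · intro h
        apply hz1
        linear_combination h
      · have e1 : z * τ (1 + z) = 1 + z := by
          rw [map_add, map_one, mul_add, hztz, mul_one]
          ring
        calc τ (δ * (1 + z) ^ 2) = δ * z ^ 2 * (τ (1 + z)) ^ 2 := by rw [map_mul, map_pow, hz]
          _ = δ * (z * τ (1 + z)) ^ 2 := by ring
          _ = δ * (1 + z) ^ 2 := by rw [e1]
  obtain ⟨r₀, hr₀⟩ : ∃ r₀, r₀ = n * Algebra.norm k' y₁ := ⟨_, rfl⟩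
  have hNδ1 : Algebra.norm k' (δ * y₁ ^ 2) = r₀ ^ 2 := by
    rw [map_mul, map_pow, hn, hr₀]
    ring
  have hr00 : r₀ ≠ 0 := by
    rw [hr₀]
    exact mul_ne_zero hn0 (Algebra.norm_ne_zero_iff.2 hy1)
  have e1 : (σ r₀) ^ 2 = r₀ ^ 2 := by
    have e2 := hN (δ * y₁ ^ 2)
    rw [hfix, hNδ1, map_pow] at e2
    exact e2.symm
  rcases sq_eq_sq_iff_eq_or_eq_neg.1 e1 with e3 | e3
  · exact ⟨y₁, hy1, hfix, r₀, e3, hNδ1⟩
  · refine ⟨y₁ * algebraMap k' L' r₀, mul_ne_zero hy1 ?_, ?_, r₀ ^ 4, ?_, ?_⟩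
    · exact (map_ne_zero_iff _ (algebraMap k' L').injective).2 hr00
    · have e4 : δ * (y₁ * algebraMap k' L' r₀) ^ 2 = (δ * y₁ ^ 2) * (algebraMap k' L' r₀) ^ 2 := by
        ring
      rw [e4, map_mul, hfix, map_pow, hστ, e3, map_neg]
      ring
    · rw [map_pow, e3]
      ring
    · have e4 : δ * (y₁ * algebraMap k' L' r₀) ^ 2 = (δ * y₁ ^ 2) * (algebraMap k' L' r₀) ^ 2 := by
        ring
      rw [e4, map_mul, map_pow _ (algebraMap k' L' r₀), hNδ1, hNa]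
      ring

end H30PN
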