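import Pool.Agent.H30.PN.Df
import Pool.Agent.H10.Sha

/-!
INTERFACE of the project MP_78d38b_PPN (documentation only, nobody imports this file).
-/

set_option autoImplicit false
set_option linter.unusedSectionVars false
open scoped Classical

open WithZero NumberField IsDedekindDomain H38RT H76PP
open H38T1 (SC sc scu rep eo la si Pri OddP tp unif)

namespace H30PN.Interface

/-! Block K (helper30), Nakayama -/

/-- the weak local conditions define the trivial group over all fields between `K` and `N` -/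
theorem nak {K N : Type} [Field K] [NumberField K] [Field N] [NumberField N] [Algebra K N]
    {Sg S : Set (HeightOneSpectrum (𝓞 K))} (hN : Adm Sg S N) (hS : P2 K ⊆ S) {A B : 𝓞 K}
    (hd : 4 * (A : K) ^ 3 + 27 * (B : K) ^ 2 ≠ 0) (hSg : ∀ v ∈ Sg, NoRt K v A B) {D : K}
    (hD : D ≠ 0) (hK : XT K K S (D ^ 2 * A) (D ^ 3 * B)) (F : IntermediateField K N) :
    XT K F S (D ^ 2 * A) (D ^ 3 * B) := by
  sorry

/-- the family over the fields between `K` and `N` (with empty `T`) -/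
theorem fam_up {K N : Type} [Field K] [NumberField K] [Field N] [NumberField N] [Algebra K N]
    {Sg S : Set (HeightOneSpectrum (𝓞 K))} (hN : Adm Sg S N) {q₀ : HeightOneSpectrum (𝓞 K)}
    {T : Finset (HeightOneSpectrum (𝓞 K))} {A B : 𝓞 K} (hF : Fam q₀ T A B)
    (hSg : ∀ v ∈ Sg, NoRt K v A B) (F : IntermediateField K N) (q : HeightOneSpectrum (𝓞 F))
    (hq : dn K q = q₀) :
    Fam q ∅ (algebraMap (𝓞 K) (𝓞 F) A) (algebraMap (𝓞 K) (𝓞 F) B) := by
  sorry

/-! Block R' (helper76) -/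

/-- the base case: copy of `sel_of_HR2` (Tj), `S = J ∪ P2 K` -/
theorem base {K : Type} [Field K] [NumberField K] {q₀ : HeightOneSpectrum (𝓞 K)}
    {T : Finset (HeightOneSpectrum (𝓞 K))} (h6 : (6 : 𝓞 K) ∉ q₀.asIdeal)
    (hT : ∀ v ∈ T, v ≠ q₀ ∧ (6 : 𝓞 K) ∉ v.asIdeal) {A B : 𝓞 K} (hF : Fam q₀ T A B)
    (hpos : ∀ s : K →+* ℝ, 0 < s A) (hB : ¬ BadP T A B) :
    ∃ J ⊆ T, ∀ D : K, TwD q₀ J D →
      XT K K ((J : Set (HeightOneSpectrum (𝓞 K))) ∪ P2 K) (D ^ 2 * A) (D ^ 3 * B) := by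
  sorry

/-- from the weak to the true local conditions over a larger field -/
theorem sel_of_XT {K k : Type} [Field K] [NumberField K] [Field k] [NumberField k] [Algebra K k]
    {q₀ : HeightOneSpectrum (𝓞 K)} {T J : Finset (HeightOneSpectrum (𝓞 K))} {A B : 𝓞 K}
    (hF : Fam q₀ T A B) (hFk : ∀ q : HeightOneSpectrum (𝓞 k), dn K q = q₀ →
      Fam q ∅ (algebraMap (𝓞 K) (𝓞 k) A) (algebraMap (𝓞 K) (𝓞 k) B)) {D : K}
    (hD : TwD q₀ J D)
    (hX : XT K k ((J : Set (HeightOneSpectrum (𝓞 K))) ∪ P2 K) (D ^ 2 * A) (D ^ 3 * B))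
    {L : Type} [Field L] [NumberField L] [Algebra k L] {θ : L}
    (hL : Cub k L (algebraMap K k A) (algebraMap K k B) θ) :
    SelTriv k L (algebraMap K k (D ^ 2 * A)) (algebraMap K k (D ^ 3 * B))
      (algebraMap k L (algebraMap K k D) * θ) := by
  sorry

end H30PN.Interface
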