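import Pool.Agent.H30.PN.Df
import Pool.Agent.H76.PP.Tb
import Pool.Agent.H76.PP.Td
import Pool.Agent.H38.T1.Ea

/-!
ROW Ir (project MP_78d38b_PPN, about 140 lines): places at which the cubic has no root are inert.

PROOF. `L`, `θ` with `Cub k L (D^2 A) (D^3 B) θ`; `θ₀ = θ / D` satisfies `θ₀^3 + A θ₀ + B = 0`, so it is integral: `θ₀ ∈ 𝓞 L` (compare `theta_int`).
`w` a place above `v`. `kv = 𝓞 k / v`, `kw = 𝓞 L / w`, a `kv`-algebra of dimension `f = w.asIdeal.inertiaDeg (𝓞 k)`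
(`Ideal.inertiaDeg_eq_of_isMaximal`, see `Tc_inertia` in `Pool/Agent/H76/PP/Tc.lean`). The polynomial `X^3 + A X + B` over `kv` has no root (`hv`), so it is
irreducible (`Polynomial.irreducible_of_degree_le_three_of_not_isRoot` or
`Polynomial.Monic.irreducible_iff_roots_eq_zero_of_degree_le_three`), and it is the minimal polynomial of the class of `θ₀` in `kw`
(`minpoly.eq_of_irreducible_of_monic`), so `3 ∣ f` (`minpoly.degree_dvd` or `IntermediateField.adjoin.finrank` and `finrank_mul_finrank`), and `f ≥ 3`.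
`ord_norm` (Tb) for the element `c` of `k`, a uniformizer of `v`: `3 = ord_v (N c) = ∑ f_{w'} ord_{w'} c` (`Algebra.norm_algebraMap`,
`Cub.finrank`), and all terms are `≥ 3 * 1` (`ord_dn`), so there is only one place above `v` and `f = 3`. Then
`ord_v (N u) = 3 * ord_w u` for all `u ≠ 0`; if `N u` is a square then `3 ord_w u` is even, `ord_w u` is even, `eo w (sc u) = 0` (`H38T1.eo_sc`).
-/

set_option autoImplicit false
set_option linter.unusedSectionVars false
open scoped Classical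

open WithZero NumberField IsDedekindDomain H38RT H76PP
open H38T1 (SC sc scu rep eo la si Pri OddP tp unif)

namespace H30PN

theorem Ir_poly {F : Type*} [Field F] (a b : F) :
    (Polynomial.X ^ 3 + (Polynomial.C a * Polynomial.X + Polynomial.C b) : Polynomial F).Monic ∧
    (Polynomial.X ^ 3 + (Polynomial.C a * Polynomial.X + Polynomial.C b) :
      Polynomial F).natDegree = 3 := by
  have h1 : (Polynomial.C a * Polynomial.X + Polynomial.C b : Polynomial F).degree < (3 : ℕ) := by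
    refine lt_of_le_of_lt Polynomial.degree_linear_le ?_
    norm_num
  refine ⟨Polynomial.monic_X_pow_add h1, ?_⟩
  rw [Polynomial.natDegree_add_eq_left_of_degree_lt (by rw [Polynomial.degree_X_pow]; exact h1),
    Polynomial.natDegree_X_pow]

theorem Ir_dvd {k L : Type} [Field k] [NumberField k] [Field L] [NumberField L] [Algebra k L]
    {w : HeightOneSpectrum (𝓞 L)} {A B : 𝓞 k} (hv : NoRt k (dn k w) A B) {t : 𝓞 L}
    (ht : t ^ 3 + algebraMap (𝓞 k) (𝓞 L) A * t + algebraMap (𝓞 k) (𝓞 L) B = 0) :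
    3 ∣ w.asIdeal.inertiaDeg (𝓞 k) := by
  have hm1 := w.isMaximal
  have hm2 := (dn k w).isMaximal
  have hl : w.asIdeal.LiesOver (dn k w).asIdeal := ⟨rfl⟩
  rw [Ideal.inertiaDeg_eq_of_isMaximal (dn k w).asIdeal w.asIdeal]
  by_cases hfin : Module.Finite (𝓞 k ⧸ (dn k w).asIdeal) (𝓞 L ⧸ w.asIdeal)
  swap
  · rw [Module.finrank_of_not_finite hfin]
    exact dvd_zero 3
  obtain ⟨a, ha⟩ : ∃ a, a = Ideal.Quotient.mk (dn k w).asIdeal A := ⟨_, rfl⟩
  obtain ⟨b, hb⟩ : ∃ b, b = Ideal.Quotient.mk (dn k w).asIdeal B := ⟨_, rfl⟩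
  obtain ⟨hmon, hdeg⟩ := Ir_poly a b
  obtain ⟨p, hp⟩ : ∃ p : Polynomial (𝓞 k ⧸ (dn k w).asIdeal),
    p = Polynomial.X ^ 3 + (Polynomial.C a * Polynomial.X + Polynomial.C b) := ⟨_, rfl⟩
  rw [← hp] at hmon hdeg
  have hirr : Irreducible p := by
    rw [hmon.irreducible_iff_roots_eq_zero_of_degree_le_three (by omega) (by omega)]
    refine Multiset.eq_zero_of_forall_notMem fun r hr => ?_
    have h1 := (Polynomial.mem_roots hmon.ne_zero).1 hr
    obtain ⟨s, rfl⟩ := Ideal.Quotient.mk_surjective r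
    rw [Polynomial.IsRoot.def, hp, Polynomial.eval_add, Polynomial.eval_add, Polynomial.eval_pow,
      Polynomial.eval_mul, Polynomial.eval_X, Polynomial.eval_C, Polynomial.eval_C, ha, hb,
      ← map_pow, ← map_mul, ← map_add, ← map_add, Ideal.Quotient.eq_zero_iff_mem] at h1
    refine hv s ?_
    rw [add_assoc]
    exact h1
  have haev : Polynomial.aeval (Ideal.Quotient.mk w.asIdeal t) p = 0 := by
    have e1 : ∀ x : 𝓞 k, algebraMap (𝓞 k ⧸ (dn k w).asIdeal) (𝓞 L ⧸ w.asIdeal)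
        (Ideal.Quotient.mk (dn k w).asIdeal x) =
        Ideal.Quotient.mk w.asIdeal (algebraMap (𝓞 k) (𝓞 L) x) := fun x => rfl
    rw [hp, map_add, map_add, map_mul, map_pow, Polynomial.aeval_X, Polynomial.aeval_C,
      Polynomial.aeval_C, ha, hb, e1, e1, ← map_pow, ← map_mul, ← map_add, ← map_add,
      ← add_assoc, ht, map_zero]
  have hint : IsIntegral (𝓞 k ⧸ (dn k w).asIdeal) (Ideal.Quotient.mk w.asIdeal t) :=
    ⟨p, hmon, haev⟩
  have hmin := minpoly.eq_of_irreducible_of_monic hirr haev hmon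
  have h3 := minpoly.degree_dvd hint
  rw [← hmin, hdeg] at h3
  exact h3

theorem Ir_fin {k L : Type} [Field k] [NumberField k] [Field L] [NumberField L] [Algebra k L]
    {v : HeightOneSpectrum (𝓞 k)} {A B : 𝓞 k} (hv : NoRt k v A B) {t : 𝓞 L}
    (ht : t ^ 3 + algebraMap (𝓞 k) (𝓞 L) A * t + algebraMap (𝓞 k) (𝓞 L) B = 0)
    (hfr : Module.finrank k L = 3) {w : HeightOneSpectrum (𝓞 L)} (hw : dn k w = v) :
    w.asIdeal.inertiaDeg (𝓞 k) = 3 ∧ ∀ w' : HeightOneSpectrum (𝓞 L), dn k w' = v → w' = w := by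
  have hf : ∀ w' : HeightOneSpectrum (𝓞 L), dn k w' = v → 3 ≤ w'.asIdeal.inertiaDeg (𝓞 k) := by
    intro w' hw'
    have h1 : 3 ∣ w'.asIdeal.inertiaDeg (𝓞 k) := Ir_dvd (by rw [hw']; exact hv) ht
    have hp := w'.isPrime
    have h2 : 0 < w'.asIdeal.inertiaDeg (𝓞 k) := Ideal.inertiaDeg_pos w'.asIdeal (𝓞 k)
    exact Nat.le_of_dvd h2 h1
  obtain ⟨c, hc⟩ := v.valuation_exists_uniformizer k
  have hc0 : c ≠ 0 := by
    rintro rfl
    rw [map_zero] at hc
    exact exp_ne_zero hc.symm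
  have hcL : algebraMap k L c ≠ 0 := fun h => hc0 ((algebraMap k L).injective (by rw [h, map_zero]))
  have hord : ord (v.valuation k) c = 1 := by
    unfold ord
    rw [hc, log_exp]
    norm_num
  have hpow : ord (v.valuation k) (c ^ 3) = 3 := by
    rw [pow_succ, pow_two, ord_mul (mul_ne_zero hc0 hc0) hc0, ord_mul hc0 hc0, hord]
    norm_num
  have hsum := ord_norm v hcL
  rw [Algebra.norm_algebraMap, hfr, hpow] at hsum
  have hone : ∀ w' : HeightOneSpectrum (𝓞 L), dn k w' = v →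
      1 ≤ ord (w'.valuation L) (algebraMap k L c) := by
    intro w' hw'
    obtain ⟨e, he, h1⟩ := ord_dn (K := k) w'
    rw [h1 c hc0, hw', hord, mul_one]
    exact_mod_cast he
  have hterm : ∀ w' : {w : HeightOneSpectrum (𝓞 L) // dn k w = v},
      (w'.1.asIdeal.inertiaDeg (𝓞 k) : ℤ) ≤
        (w'.1.asIdeal.inertiaDeg (𝓞 k) : ℤ) * ord (w'.1.valuation L) (algebraMap k L c) := by
    intro w'
    have h1 := hone w'.1 w'.2
    have h2 : (0 : ℤ) ≤ (w'.1.asIdeal.inertiaDeg (𝓞 k) : ℤ) := Int.natCast_nonneg _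
    nlinarith
  have hfinite : Finite {w : HeightOneSpectrum (𝓞 L) // dn k w = v} :=
    (fin_above (L := L) v).to_subtype
  have hft : Fintype {w : HeightOneSpectrum (𝓞 L) // dn k w = v} := Fintype.ofFinite _
  rw [finsum_eq_sum_of_fintype] at hsum
  have hle := Finset.sum_le_sum (s := Finset.univ) fun w' _ => hterm w'
  rw [← hsum] at hle
  have hnn : ∀ w' : {w : HeightOneSpectrum (𝓞 L) // dn k w = v},
      (0 : ℤ) ≤ (w'.1.asIdeal.inertiaDeg (𝓞 k) : ℤ) := fun w' => Int.natCast_nonneg _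
  have h1 := Finset.single_le_sum (f := fun w' : {w : HeightOneSpectrum (𝓞 L) // dn k w = v} =>
    (w'.1.asIdeal.inertiaDeg (𝓞 k) : ℤ)) (fun w' _ => hnn w') (Finset.mem_univ ⟨w, hw⟩)
  have h2 : (w.asIdeal.inertiaDeg (𝓞 k) : ℤ) ≤ 3 := h1.trans hle
  have h3 := hf w hw
  refine ⟨by omega, fun w' hw' => ?_⟩
  by_contra hne
  have hne' : (⟨w', hw'⟩ : {w : HeightOneSpectrum (𝓞 L) // dn k w = v}) ≠ ⟨w, hw⟩ :=
    fun h => hne (congrArg Subtype.val h)
  have h4 := Finset.sum_le_sum_of_subset_of_nonneg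
    (f := fun w' : {w : HeightOneSpectrum (𝓞 L) // dn k w = v} =>
      (w'.1.asIdeal.inertiaDeg (𝓞 k) : ℤ)) (Finset.subset_univ
        ({⟨w', hw'⟩, ⟨w, hw⟩} : Finset {w : HeightOneSpectrum (𝓞 L) // dn k w = v}))
    (fun w' _ _ => hnn w')
  rw [Finset.sum_pair hne'] at h4
  have h5 := h4.trans hle
  have h6 := hf w' hw'
  change ((w'.asIdeal.inertiaDeg (𝓞 k) : ℤ)) + (w.asIdeal.inertiaDeg (𝓞 k) : ℤ) ≤ 3 at h5
  omega

theorem Ir_root {k L : Type} [Field k] [NumberField k] [Field L] [NumberField L] [Algebra k L]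
    {A B : 𝓞 k} {D : k} (hD : D ≠ 0) {θ : L}
    (hL : Cub k L (D ^ 2 * (A : k)) (D ^ 3 * (B : k)) θ) :
    ∃ t : 𝓞 L, t ^ 3 + algebraMap (𝓞 k) (𝓞 L) A * t + algebraMap (𝓞 k) (𝓞 L) B = 0 := by
  obtain ⟨d, hd⟩ : ∃ d, d = algebraMap k L D := ⟨_, rfl⟩
  have hd0 : d ≠ 0 := by
    rw [hd]
    exact fun h => hD ((algebraMap k L).injective (by rw [h, map_zero]))
  have hr := hL.root
  rw [map_mul, map_mul, map_pow, map_pow, ← hd] at hr
  obtain ⟨x, hx⟩ : ∃ x, x = θ / d := ⟨_, rfl⟩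
  have hθ : θ = d * x := by rw [hx]; field_simp
  have hroot : x ^ 3 + algebraMap k L (A : k) * x + algebraMap k L (B : k) = 0 := by
    have h1 : d ^ 3 * (x ^ 3 + algebraMap k L (A : k) * x + algebraMap k L (B : k)) = 0 := by
      rw [← hr, hθ]
      ring
    exact (mul_eq_zero.1 h1).resolve_left (pow_ne_zero 3 hd0)
  have h1 : IsIntegral (𝓞 k) x := by
    refine ⟨Polynomial.X ^ 3 + (Polynomial.C A * Polynomial.X + Polynomial.C B), ?_, ?_⟩
    · refine Polynomial.monic_X_pow_add ?_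
      refine lt_of_le_of_lt Polynomial.degree_linear_le ?_
      norm_num
    · rw [Polynomial.eval₂_add, Polynomial.eval₂_add, Polynomial.eval₂_mul, Polynomial.eval₂_pow,
        Polynomial.eval₂_X, Polynomial.eval₂_C, Polynomial.eval₂_C]
      rw [← hroot, ← add_assoc]
      rfl
  have h2 : IsIntegral ℤ x := isIntegral_trans x h1
  refine ⟨⟨x, h2⟩, ?_⟩
  apply RingOfIntegers.ext
  exact hroot

theorem inr_of {k : Type} [Field k] [NumberField k] {v : HeightOneSpectrum (𝓞 k)} {A B : 𝓞 k}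
    (hv : NoRt k v A B) {D : k} (hD : D ≠ 0) : Inr k v (D ^ 2 * (A : k)) (D ^ 3 * (B : k)) := by
  intro L _ _ _ θ hL w hw u hu hsq
  have hfr : Module.finrank k L = 3 := hL.finrank
  obtain ⟨t, ht⟩ := Ir_root hD hL
  obtain ⟨hf, huni⟩ := Ir_fin hv ht hfr hw
  obtain ⟨s, hs⟩ := hsq
  have hsum := ord_norm v hu
  rw [finsum_eq_single _ (⟨w, hw⟩ : {w : HeightOneSpectrum (𝓞 L) // dn k w = v})
    (fun w' hne => absurd (Subtype.ext (huni w'.1 w'.2)) hne)] at hsum
  have hn0 : Algebra.norm k u ≠ 0 := by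
    rw [Algebra.norm_ne_zero_iff]
    exact hu
  have hs0 : s ≠ 0 := by
    rintro rfl
    rw [mul_zero] at hs
    exact hn0 hs
  rw [hs, ord_mul hs0 hs0] at hsum
  change _ = (w.asIdeal.inertiaDeg (𝓞 k) : ℤ) * ord (w.valuation L) u at hsum
  rw [hf] at hsum
  rw [H38T1.eo_sc hu, ZMod.intCast_eq_zero_iff_even]
  have h3 : Even ((3 : ℕ) * ord (w.valuation L) u : ℤ) := ⟨_, hsum.symm⟩
  rw [Int.even_mul] at h3
  rcases h3 with h3 | h3
  · exact absurd h3 (by decide)
  · exact h3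

end H30PN
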