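import Pool.Agent.H30.PN.Df
import Pool.Agent.H76.PP.Ta
import Pool.Agent.H38.T1.Ea

/-!
ROW Mv (project MP_78d38b_PPN, about 80 lines): transport of the parity of the orders along an isomorphism.

PROOF. `w₀.asIdeal` = comap of `w.asIdeal` under the ring homomorphism `𝓞 L → 𝓞 L'` induced by `φ`
(`RingOfIntegers.mapRingHom`), nonzero: it is `dn` for the algebra structure `(φ : L →+* L').toAlgebra`
on `L'`: with this local instance `w₀ = dn L w`. Both `dn K (dn k w₀)` and `dn K (dn k' w)` are the comap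
of `w.asIdeal` under a ring homomorphism `𝓞 K → 𝓞 L'`, and the two ring homomorphisms agree by `hφ`
(`RingOfIntegers.ext`; `Ideal.comap_comap`; `HeightOneSpectrum.ext`).
`ord_dn` (for `L → L'`): there is `e > 0` with `ord_w (φ x) = e * ord_{w₀} x` for `x ≠ 0`. There is `y` in `L'` with
`ord_w y = 1` (`w.valuation_exists_uniformizer L'`), `y = φ x`, so `e ∣ 1`, `e = 1`. `H38T1.eo_sc`.
-/

set_option autoImplicit false
set_option linter.unusedSectionVars false
open scoped Classical

open WithZero NumberField IsDedekindDomain H38RT H76PP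
open H38T1 (SC sc scu rep eo la si Pri OddP tp unif)

namespace H30PN

theorem eo_move {K k k' L L' : Type} [Field K] [NumberField K] [Field k] [NumberField k]
    [Field k'] [NumberField k'] [Field L] [NumberField L] [Field L'] [NumberField L']
    [Algebra K k] [Algebra k L] [Algebra K k'] [Algebra k' L'] (φ : L ≃+* L')
    (hφ : ∀ x : K, φ (algebraMap k L (algebraMap K k x)) = algebraMap k' L' (algebraMap K k' x))
    (w : HeightOneSpectrum (𝓞 L')) : ∃ w₀ : HeightOneSpectrum (𝓞 L),
      dn K (dn k w₀) = dn K (dn k' w) ∧ ∀ x : L, x ≠ 0 → eo w₀ (sc x) = eo w (sc (φ x)) := by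
  let alg : Algebra L L' := (φ : L →+* L').toAlgebra
  have halg : ∀ x : L, algebraMap L L' x = φ x := fun _ => rfl
  refine ⟨dn L w, ?_, ?_⟩
  · apply HeightOneSpectrum.ext
    ext x
    have h1 : algebraMap (𝓞 L) (𝓞 L') (algebraMap (𝓞 k) (𝓞 L) (algebraMap (𝓞 K) (𝓞 k) x)) =
        algebraMap (𝓞 k') (𝓞 L') (algebraMap (𝓞 K) (𝓞 k') x) := by
      apply RingOfIntegers.ext
      exact hφ (algebraMap (𝓞 K) K x)
    have h2 : x ∈ (dn K (dn k (dn L w))).asIdeal ↔
        algebraMap (𝓞 L) (𝓞 L') (algebraMap (𝓞 k) (𝓞 L) (algebraMap (𝓞 K) (𝓞 k) x)) ∈ w.asIdeal :=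
      Iff.rfl
    have h3 : x ∈ (dn K (dn k' w)).asIdeal ↔
        algebraMap (𝓞 k') (𝓞 L') (algebraMap (𝓞 K) (𝓞 k') x) ∈ w.asIdeal := Iff.rfl
    rw [h2, h3, h1]
  · intro x hx
    obtain ⟨e, he, h1⟩ := ord_dn (K := L) w
    have he1 : e = 1 := by
      obtain ⟨y, hy⟩ := w.valuation_exists_uniformizer L'
      have hy' : ord (w.valuation L') y = 1 := by
        unfold ord
        rw [hy, log_exp]
        norm_num
      have hy0 : φ.symm y ≠ 0 := by
        intro h0
        have h2 : y = 0 := by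
          have := congrArg φ h0
          rwa [RingEquiv.apply_symm_apply, map_zero] at this
        rw [h2, map_zero] at hy
        exact exp_ne_zero hy.symm
      have h3 := h1 (φ.symm y) hy0
      rw [halg, RingEquiv.apply_symm_apply, hy'] at h3
      have h4 : (e : ℤ) ∣ 1 := ⟨_, h3⟩
      have h5 := Int.eq_one_of_dvd_one (by positivity) h4
      exact_mod_cast h5
    have hφx : φ x ≠ 0 := (map_ne_zero φ).2 hx
    rw [H38T1.eo_sc hx, H38T1.eo_sc hφx, ← halg x, h1 x hx, he1]
    push_cast
    ring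

end H30PN
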