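import Pool.Agent.H30.PN.Df

/-!
ROW Nr (project MP_78d38b_PPN, about 100 lines): no root modulo a place in an extension of degree at most
two.

PROOF. `v = dn k v'`. Suppose `t^3 + A t + B ∈ v'`, `t ∈ 𝓞 k'`. `t` is a root of `X^2 - s X + p` with `s = t + σ t`, `p = t σ t`, which are integral and fixed by
`σ`, so they come from `𝓞 k` (`hfix`; an element of `k` whose image in `k'` is integral is integral: `isIntegral_algebraMap_iff`). Let `kv = 𝓞 k / v`,
`kv' = 𝓞 k' / v'`, `kv → kv'` (`Ideal.quotientMap`). The polynomial `F = X^3 + A X + B` over `kv` has no root, so it is irreducible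
(`Polynomial.Monic.irreducible_iff_roots_eq_zero_of_degree_le_three`), and `Q = X^2 - s X + p ≠ 0` has degree two, so `F` does not divide `Q` and
`IsCoprime F Q` (`Irreducible.coprime_iff_not_dvd`): `U F + V Q = 1`; evaluate at the class of `t` in `kv'`: `0 = 1`, a contradiction.
(Or by hand: `F = (X + s) Q + (s^2 - p + A) X + (B - s p)`. If `s^2 - p + A ∉ v` then `t` is congruent to an element of `kv`, a root of `F`. If
`s^2 - p + A ∈ v` then `B - s p ∈ v` and `F = (X + s) Q` modulo `v` has the root `-s`.)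
-/

set_option autoImplicit false
set_option linter.unusedSectionVars false
open scoped Classical

open WithZero NumberField IsDedekindDomain H38RT H76PP
open H38T1 (SC sc scu rep eo la si Pri OddP tp unif)

namespace H30PN

theorem nort_step {k k' : Type} [Field k] [NumberField k] [Field k'] [NumberField k'] [Algebra k k']
    (σ : k' ≃ₐ[k] k') (hσ : ∀ x, σ (σ x) = x)
    (hfix : ∀ x, σ x = x → ∃ y : k, algebraMap k k' y = x) {v' : HeightOneSpectrum (𝓞 k')}
    {A B : 𝓞 k} (h : NoRt k (dn k v') A B) :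
    NoRt k' v' (algebraMap (𝓞 k) (𝓞 k') A) (algebraMap (𝓞 k) (𝓞 k') B) := by
  intro t ht
  have hcoe : ∀ x : 𝓞 k, ((algebraMap (𝓞 k) (𝓞 k') x : 𝓞 k') : k') = algebraMap k k' (x : k) :=
    fun x => rfl
  have hti : IsIntegral ℤ (t : k') := RingOfIntegers.isIntegral_coe t
  have hsi : IsIntegral ℤ (σ (t : k')) := map_isIntegral_int (σ : k' →+* k') hti
  have hlift : ∀ x : k', IsIntegral ℤ x → σ x = x → ∃ y : 𝓞 k, algebraMap k k' (y : k) = x := by
    intro x hx hx'
    obtain ⟨y, hy⟩ := hfix x hx'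
    have hyi : IsIntegral ℤ y := by
      rw [← hy] at hx
      exact (isIntegral_algebraMap_iff (algebraMap k k').injective).1 hx
    exact ⟨⟨y, hyi⟩, hy⟩
  obtain ⟨S, hS⟩ := hlift ((t : k') + σ (t : k')) (hti.add hsi)
    (by rw [map_add, hσ, add_comm])
  obtain ⟨P, hP⟩ := hlift ((t : k') * σ (t : k')) (hti.mul hsi)
    (by rw [map_mul, hσ, mul_comm])
  have hq : t ^ 2 - algebraMap (𝓞 k) (𝓞 k') S * t + algebraMap (𝓞 k) (𝓞 k') P = 0 := by
    apply RingOfIntegers.ext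
    have e1 : ((t ^ 2 - algebraMap (𝓞 k) (𝓞 k') S * t + algebraMap (𝓞 k) (𝓞 k') P : 𝓞 k') : k') =
        (t : k') ^ 2 - algebraMap k k' (S : k) * (t : k') + algebraMap k k' (P : k) := by
      rw [← hcoe, ← hcoe]
      simp only [map_add, map_sub, map_mul, map_pow]
    rw [e1, hS, hP]
    change _ = algebraMap (𝓞 k') k' 0
    rw [map_zero]
    ring
  have hdn : ∀ x : 𝓞 k, algebraMap (𝓞 k) (𝓞 k') x ∈ v'.asIdeal ↔ x ∈ (dn k v').asIdeal :=
    fun x => Iff.rfl
  have hlin : algebraMap (𝓞 k) (𝓞 k') (A - P + S ^ 2) * t +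
      algebraMap (𝓞 k) (𝓞 k') (B - S * P) ∈ v'.asIdeal := by
    have e2 : algebraMap (𝓞 k) (𝓞 k') (A - P + S ^ 2) * t +
      algebraMap (𝓞 k) (𝓞 k') (B - S * P) = (t ^ 3 + algebraMap (𝓞 k) (𝓞 k') A * t +
        algebraMap (𝓞 k) (𝓞 k') B) - (t + algebraMap (𝓞 k) (𝓞 k') S) *
        (t ^ 2 - algebraMap (𝓞 k) (𝓞 k') S * t + algebraMap (𝓞 k) (𝓞 k') P) := by
      simp only [map_add, map_sub, map_mul, map_pow]
      ring
    rw [e2, hq, mul_zero, sub_zero]
    exact ht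
  by_cases hc : A - P + S ^ 2 ∈ (dn k v').asIdeal
  · have h1 : algebraMap (𝓞 k) (𝓞 k') (B - S * P) ∈ v'.asIdeal := by
      have h2 := Ideal.mul_mem_right t _ ((hdn _).2 hc)
      exact (Ideal.add_mem_iff_right _ h2).1 hlin
    have h3 : B - S * P ∈ (dn k v').asIdeal := (hdn _).1 h1
    refine h (-S) ?_
    have e3 : (-S) ^ 3 + A * (-S) + B = -S * (A - P + S ^ 2) + (B - S * P) := by ring
    rw [e3]
    exact Ideal.add_mem _ (Ideal.mul_mem_left _ _ hc) h3
  · have hmax : (dn k v').asIdeal.IsMaximal := (dn k v').isMaximal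
    obtain ⟨d, hd⟩ := hmax.exists_inv hc
    obtain ⟨i, hi, hd⟩ := hd
    -- `d * c + i = 1`
    set t₀ : 𝓞 k := -(d * (B - S * P)) with ht₀
    have hcong : t - algebraMap (𝓞 k) (𝓞 k') t₀ ∈ v'.asIdeal := by
      have e4 : t - algebraMap (𝓞 k) (𝓞 k') t₀ = algebraMap (𝓞 k) (𝓞 k') d *
          (algebraMap (𝓞 k) (𝓞 k') (A - P + S ^ 2) * t + algebraMap (𝓞 k) (𝓞 k') (B - S * P)) +
          algebraMap (𝓞 k) (𝓞 k') i * t := by
        have e5 : t = algebraMap (𝓞 k) (𝓞 k') (d * (A - P + S ^ 2) + i) * t := by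
          rw [hd, map_one, one_mul]
        have e6 : t - algebraMap (𝓞 k) (𝓞 k') t₀ =
            algebraMap (𝓞 k) (𝓞 k') (d * (A - P + S ^ 2) + i) * t - algebraMap (𝓞 k) (𝓞 k') t₀ :=
          congrArg (fun z => z - algebraMap (𝓞 k) (𝓞 k') t₀) e5
        rw [e6, ht₀]
        simp only [map_add, map_sub, map_mul, map_pow, map_neg]
        ring
      rw [e4]
      exact Ideal.add_mem _ (Ideal.mul_mem_left _ _ hlin)
        (Ideal.mul_mem_right _ _ ((hdn i).2 hi))
    refine h t₀ ((hdn _).1 ?_)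
    have e7 : algebraMap (𝓞 k) (𝓞 k') (t₀ ^ 3 + A * t₀ + B) = (t ^ 3 + algebraMap (𝓞 k) (𝓞 k') A * t +
        algebraMap (𝓞 k) (𝓞 k') B) - (t ^ 2 + t * algebraMap (𝓞 k) (𝓞 k') t₀ +
        algebraMap (𝓞 k) (𝓞 k') t₀ ^ 2 + algebraMap (𝓞 k) (𝓞 k') A) *
        (t - algebraMap (𝓞 k) (𝓞 k') t₀) := by
      simp only [map_add, map_mul, map_pow]
      ring
    rw [e7]
    exact Ideal.sub_mem _ ht (Ideal.mul_mem_left _ _ hcong)

end H30PN
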