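import Pool.Agent.H30.PN.Df
import Pool.Agent.H76.PP.Ta

/-!
ROW Um (project MP_78d38b_PPN, about 80 lines): unramified places in intermediate extensions.

PROOF. dn_self: `HeightOneSpectrum.ext`, the comap under the identity of `𝓞 K` (`algebraMap (𝓞 K) (𝓞 K) = RingHom.id`).
dn_dn: both ideals are comaps of `w.asIdeal` under ring homomorphisms `𝓞 K → 𝓞 N`, which agree by `hc` (`RingOfIntegers.ext`).
unr_mid: let `w'` be a place of `k'` above `v`, `w` a place of `N` above `w'` (`exists_above`), `v₀ = dn K v = dn K w` (dn_dn twice).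
`ord_dn`: `ord_w = e₁ ord_{w'}` on `k'`, `ord_{w'} = e₂ ord_v` on `k`, `ord_v = e₃ ord_{v₀}` on `K`, `e_i > 0`. For a uniformizer `c ∈ K` of `v₀`:
`w.valuation N c = v₀.valuation K c` (`h`), so `1 = e₁ e₂ e₃`, `e₂ = 1`, so `ord_{w'} x = ord_v x` for `x ∈ k`, `x ≠ 0`, and the valuations agree (a nonzero value in
`ℤᵐ⁰` is determined by its `ord`; `x = 0` is trivial).
-/

set_option autoImplicit false
set_option linter.unusedSectionVars false
open scoped Classical

open WithZero NumberField IsDedekindDomain H38RT H76PP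
open H38T1 (SC sc scu rep eo la si Pri OddP tp unif)

namespace H30PN

theorem dn_self {K : Type} [Field K] [NumberField K] (v : HeightOneSpectrum (𝓞 K)) :
    dn K v = v := by
  apply HeightOneSpectrum.ext
  ext x
  have e : algebraMap (𝓞 K) (𝓞 K) x = x := RingOfIntegers.ext rfl
  show algebraMap (𝓞 K) (𝓞 K) x ∈ v.asIdeal ↔ x ∈ v.asIdeal
  rw [e]

theorem dn_dn {K k k' N : Type} [Field K] [NumberField K] [Field k] [NumberField k] [Field k']
    [NumberField k'] [Field N] [NumberField N] [Algebra K k] [Algebra k N] [Algebra K k']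
    [Algebra k' N]
    (hc : ∀ x : K, algebraMap k N (algebraMap K k x) = algebraMap k' N (algebraMap K k' x))
    (w : HeightOneSpectrum (𝓞 N)) : dn K (dn k w) = dn K (dn k' w) := by
  apply HeightOneSpectrum.ext
  ext x
  have e : algebraMap (𝓞 k) (𝓞 N) (algebraMap (𝓞 K) (𝓞 k) x) =
      algebraMap (𝓞 k') (𝓞 N) (algebraMap (𝓞 K) (𝓞 k') x) := RingOfIntegers.ext (hc (x : K))
  show algebraMap (𝓞 k) (𝓞 N) (algebraMap (𝓞 K) (𝓞 k) x) ∈ w.asIdeal ↔
    algebraMap (𝓞 k') (𝓞 N) (algebraMap (𝓞 K) (𝓞 k') x) ∈ w.asIdeal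
  rw [e]

theorem unr_mid {K k k' N : Type} [Field K] [NumberField K] [Field k] [NumberField k] [Field k']
    [NumberField k'] [Field N] [NumberField N] [Algebra K k] [Algebra k k'] [Algebra k' N]
    [Algebra K N]
    (hc : ∀ x : K, algebraMap k' N (algebraMap k k' (algebraMap K k x)) = algebraMap K N x)
    {v : HeightOneSpectrum (𝓞 k)} (h : Unr K N (dn K v)) : Unr k k' v := by
  intro w' hw' x
  obtain ⟨w, hw⟩ := exists_above (K := k') (L := N) w'
  have hv0 : dn K w = dn K v := by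
    rw [← hw', ← hw]
    apply HeightOneSpectrum.ext
    ext y
    have e : algebraMap (𝓞 k') (𝓞 N) (algebraMap (𝓞 k) (𝓞 k') (algebraMap (𝓞 K) (𝓞 k) y)) =
        algebraMap (𝓞 K) (𝓞 N) y := RingOfIntegers.ext (hc (y : K))
    show algebraMap (𝓞 K) (𝓞 N) y ∈ w.asIdeal ↔
      algebraMap (𝓞 k') (𝓞 N) (algebraMap (𝓞 k) (𝓞 k') (algebraMap (𝓞 K) (𝓞 k) y)) ∈ w.asIdeal
    rw [e]
  obtain ⟨e1, he1, h1⟩ := ord_dn (K := k') w
  obtain ⟨e2, he2, h2⟩ := ord_dn (K := k) w'
  obtain ⟨e3, he3, h3⟩ := ord_dn (K := K) v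
  rw [hw] at h1
  rw [hw'] at h2
  obtain ⟨c, hc1⟩ := (dn K v).valuation_exists_uniformizer K
  have hc0 : c ≠ 0 := by
    rintro rfl
    rw [map_zero] at hc1
    exact exp_ne_zero hc1.symm
  have hk0 : algebraMap K k c ≠ 0 := by rwa [Ne, map_eq_zero]
  have hk1 : algebraMap k k' (algebraMap K k c) ≠ 0 := by rwa [Ne, map_eq_zero]
  have hN := h w hv0 c
  have key : (1 : ℤ) = e1 * (e2 * (e3 * 1)) := by
    have q1 := h1 _ hk1
    rw [hc, h2 _ hk0, h3 _ hc0] at q1
    unfold ord at q1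
    rw [hN, hc1, log_exp, neg_neg] at q1
    exact q1
  have key' : 1 = e1 * (e2 * (e3 * 1)) := by exact_mod_cast key
  have he : e2 = 1 := by
    have a1 : e2 ∣ 1 := by
      rw [key']
      exact (dvd_mul_right e2 _).mul_left e1
    exact Nat.dvd_one.1 a1
  by_cases hx : x = 0
  · rw [hx, map_zero, map_zero, map_zero]
  have hx' : algebraMap k k' x ≠ 0 := by rwa [Ne, map_eq_zero]
  have q := h2 x hx
  rw [he, Nat.cast_one, one_mul] at q
  unfold ord at q
  have q' : log (w'.valuation k' (algebraMap k k' x)) = log (v.valuation k x) := neg_injective q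
  rw [← exp_log ((Valuation.ne_zero_iff (w'.valuation k')).2 hx'), q',
    exp_log ((Valuation.ne_zero_iff (v.valuation k)).2 hx)]

end H30PN
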