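import Pool.Agent.H30.PN.St
import Pool.Agent.H30.PN.Ch
import Pool.Agent.H30.PN.Ex
import Pool.Agent.H30.PN.Ir
import Pool.Agent.H30.PN.Nr
import Pool.Agent.H30.PN.Um

/-!
ROW Nk (project MP_78d38b_PPN, about 180 lines): the Nakayama argument in the tower. Use only the STATEMENTS of
the imported rows.

PROOF. For `F ≤ F'` put `letI : Algebra F F' := (IntermediateField.inclusion h).toRingHom.toAlgebra`, `IsScalarTower K F F'` by `IsScalarTower.of_algebraMap_eq`
(`rfl`); `F`, `F'` are number fields (finite over `K`).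
nort_all: `chain_ind` with `P F` = for all places `w` of `F` with `NoRt K (dn K w) A B`: `NoRt F w A B`. Base `⊥`: `nort_step` for `k = K`, `k' = ⊥`, `σ = 1` (every
element of `⊥` comes from `K`: `IntermediateField.mem_bot`). Step: `nort_step` for `k = F`, `k' = F'`, `σ` (an `F`-automorphism since it fixes `F`);
`dn K (dn F v') = dn K v'` (dn_dn or `Ideal.comap_comap`); `algebraMap (𝓞 F) (𝓞 F') (algebraMap (𝓞 K) (𝓞 F) A) = algebraMap (𝓞 K) (𝓞 F') A`.
nak: `chain_ind` with `P F = XT K F S a b`, `a = D^2 A`, `b = D^3 B` (`4 a^3 + 27 b^2 = D^6 (..) ≠ 0`). Base `⊥`: `step` for `k = K`, `k' = ⊥`, `σ = 1`; step: `step` for `F`, `F'`.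
The hypotheses of `step`: hext: for `F ≤ F'` this is `ext_emb` with `hN.spl`; for `K` and `⊥`: the only `ι : K →ₐ[K] K_v` is `Algebra.ofId`, and `N →ₐ[K] K_v` restricts to
`⊥`. hpl: `v` a place of `F` (or of `K`), `dn K v ∉ S`. If `dn K v ∉ Sg`: `Unr` by `hN.unr` and `unr_mid` (`k = F`, `k' = F'`). If `dn K v ∈ Sg`: `NoRt F v A B` by nort_all
(`hSg`), so `Inr` by `inr_of` (with `algebraMap K F D`).
-/

set_option autoImplicit false
set_option linter.unusedSectionVars false
open scoped Classical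

open WithZero NumberField IsDedekindDomain H38RT H76PP
open H38T1 (SC sc scu rep eo la si Pri OddP tp unif)

namespace H30PN

private theorem Nk_bot {K N : Type} [Field K] [Field N] [Algebra K N]
    (x : (⊥ : IntermediateField K N)) : ∃ y : K, algebraMap K (⊥ : IntermediateField K N) y = x := by
  obtain ⟨y, hy⟩ := IntermediateField.mem_bot.1 x.2
  exact ⟨y, Subtype.ext hy⟩

theorem nort_all {K N : Type} [Field K] [NumberField K] [Field N] [NumberField N] [Algebra K N]
    {Sg S : Set (HeightOneSpectrum (𝓞 K))} (hN : Adm Sg S N) {A B : 𝓞 K}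
    (F : IntermediateField K N) (w : HeightOneSpectrum (𝓞 F)) (h : NoRt K (dn K w) A B) :
    NoRt F w (algebraMap (𝓞 K) (𝓞 F) A) (algebraMap (𝓞 K) (𝓞 F) B) := by
  haveI : FiniteDimensional K N := Module.Finite.of_restrictScalars_finite ℚ K N
  haveI := hN.gal
  obtain ⟨n, hn⟩ := hN.two
  revert w h
  refine chain_ind hn (fun F => ∀ (w : HeightOneSpectrum (𝓞 F)), NoRt K (dn K w) A B →
    NoRt F w (algebraMap (𝓞 K) (𝓞 F) A) (algebraMap (𝓞 K) (𝓞 F) B)) ?_ ?_ F
  · intro w hw
    exact nort_step (k := K) (k' := (⊥ : IntermediateField K N)) AlgEquiv.refl (fun _ => rfl)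
      (fun x _ => Nk_bot x) hw
  · intro F F' hFF σ hσ hfixF hfix hP w hw
    letI : Algebra F F' := (IntermediateField.inclusion hFF).toRingHom.toAlgebra
    haveI : IsScalarTower K F F' := IsScalarTower.of_algebraMap_eq (fun x => rfl)
    have hdn : dn K (dn F w) = dn K w := by
      have h1 := dn_dn (K := K) (k := F) (k' := F') (N := F') (fun x => rfl) w
      rw [h1, dn_self]
    have h1 : NoRt K (dn K (dn F w)) A B := by rw [hdn]; exact hw
    have h2 := hP (dn F w) h1
    have h3 := nort_step (k := F) (k' := F') (AlgEquiv.ofRingEquiv (f := σ.toRingEquiv) hfixF) hσ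
      hfix h2
    exact h3

theorem nak {K N : Type} [Field K] [NumberField K] [Field N] [NumberField N] [Algebra K N]
    {Sg S : Set (HeightOneSpectrum (𝓞 K))} (hN : Adm Sg S N) (hS : P2 K ⊆ S) {A B : 𝓞 K}
    (hd : 4 * (A : K) ^ 3 + 27 * (B : K) ^ 2 ≠ 0) (hSg : ∀ v ∈ Sg, NoRt K v A B) {D : K}
    (hD : D ≠ 0) (hK : XT K K S (D ^ 2 * A) (D ^ 3 * B)) (F : IntermediateField K N) :
    XT K F S (D ^ 2 * A) (D ^ 3 * B) := by
  haveI : FiniteDimensional K N := Module.Finite.of_restrictScalars_finite ℚ K N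
  haveI := hN.gal
  obtain ⟨n, hn⟩ := hN.two
  have hd' : 4 * (D ^ 2 * (A : K)) ^ 3 + 27 * (D ^ 3 * (B : K)) ^ 2 ≠ 0 := by
    have e : 4 * (D ^ 2 * (A : K)) ^ 3 + 27 * (D ^ 3 * (B : K)) ^ 2 =
        D ^ 6 * (4 * (A : K) ^ 3 + 27 * (B : K) ^ 2) := by ring
    rw [e]
    exact mul_ne_zero (pow_ne_zero 6 hD) hd
  refine chain_ind hn (fun F => XT K F S (D ^ 2 * A) (D ^ 3 * B)) ?_ ?_ F
  · refine step (K := K) (k := K) (k' := (⊥ : IntermediateField K N)) hS hd' AlgEquiv.refl
      (fun _ => rfl) (fun x _ => Nk_bot x) ?_ ?_ hK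
    · intro v hv ι
      obtain ⟨j0⟩ := hN.spl v hv
      refine ⟨j0.comp (IntermediateField.val ⊥), ?_⟩
      intro x
      have h1 := (j0.comp (IntermediateField.val (⊥ : IntermediateField K N))).commutes x
      have h2 := ι.commutes x
      rw [h1, ← h2]
      rfl
    · intro v hv
      by_cases hs : dn K v ∈ Sg
      · left
        have h1 := hSg _ hs
        rw [dn_self] at h1
        exact inr_of h1 hD
      · right
        exact unr_mid (K := K) (k := K) (k' := (⊥ : IntermediateField K N)) (N := N)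
          (fun x => rfl) (hN.unr _ hs)
  · intro F F' hFF σ hσ hfixF hfix hP
    letI : Algebra F F' := (IntermediateField.inclusion hFF).toRingHom.toAlgebra
    haveI : IsScalarTower K F F' := IsScalarTower.of_algebraMap_eq (fun x => rfl)
    refine step (K := K) (k := F) (k' := F') hS hd'
      (AlgEquiv.ofRingEquiv (f := σ.toRingEquiv) hfixF) hσ hfix ?_ ?_ hP
    · intro v hv ι
      obtain ⟨ι', hι'⟩ := ext_emb (hN.spl v hv) hFF ι
      exact ⟨ι', hι'⟩
    · intro v hv
      by_cases hs : dn K v ∈ Sg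
      · left
        have h1 := nort_all hN F v (hSg _ hs)
        have hD' : algebraMap K F D ≠ 0 := fun h0 =>
          hD ((algebraMap K F).injective (by rw [h0, map_zero]))
        have h2 := inr_of h1 hD'
        have e1 : (algebraMap K F D) ^ 2 * ((algebraMap (𝓞 K) (𝓞 F) A : 𝓞 F) : F) =
            algebraMap K F (D ^ 2 * (A : K)) := by
          rw [map_mul, map_pow]
          rfl
        have e2 : (algebraMap K F D) ^ 3 * ((algebraMap (𝓞 K) (𝓞 F) B : 𝓞 F) : F) =
            algebraMap K F (D ^ 3 * (B : K)) := by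
          rw [map_mul, map_pow]
          rfl
        rw [e1, e2] at h2
        exact h2
      · right
        exact unr_mid (K := K) (k := F) (k' := F') (N := N)
          (fun x => rfl) (hN.unr _ hs)

end H30PN
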