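import Pool.Agent.H30.PN.Df
import Pool.Agent.H76.PP.Te
import Pool.Agent.H24.PD.Main

/-!
ROW Sb (project MP_78d38b_PPN, about 170 lines): the cubic extension over the smaller field and the
automorphism.

PROOF. exists_sub: `x^3 + a x + b` has no root `t` in `k`: otherwise (`t' = algebraMap k k' t`) `(θ' - t') (θ'^2 + t' θ' + t'^2 + a') = 0` in the field `L'`, and
both factors are nonzero by `h.li`. `H24PD.exists_cub` gives `L`, `θ`, `hL : Cub k L a b θ`. `j (x) = ev θ' (algebraMap ∘ (coordinates of x))` (`hL.co`, `hL.eq_co`,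
`Cub.co_mk` in `Pool/Agent/H76/PP/E0.lean`): additive; multiplicative by `Cub.co_mul` for both fields (or `Te_ev_mul`); `j 1 = 1`. The two formulas
are the definition for `x = ev θ d` and for `d = (x, 0, 0)`.
norm_ev: `Te_norm` for both fields: the norm is the polynomial `Te_nf` in `a, b` and the coordinates.
exists_tau: `τ x = ev θ' (σ ∘ (coordinates of x))`: additive, multiplicative (`Te_ev_mul`, `σ` fixes `a'` and `b'`, which come from `k`), `τ ∘ τ = id`, so
a `RingEquiv`. The norm: `Te_norm`. If `τ x = x` then the coordinates are fixed by `σ` (`h.li`), so by `hfix` they come from `k`.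
-/

set_option autoImplicit false
set_option linter.unusedSectionVars false
open scoped Classical

open WithZero NumberField IsDedekindDomain H38RT H76PP
open H38T1 (SC sc scu rep eo la si Pri OddP tp unif)

namespace H30PN

private lemma Sb_mul {K L : Type} [Field K] [Field L] [Algebra K L] {a b : K} {θ : L}
    (h : Cub K L a b θ) (u v : Fin 3 → K) : ev θ u * ev θ v = ev θ (m3 a b u v) := by
  have hr := h.root
  simp only [ev, m3, Matrix.cons_val_zero, Matrix.cons_val_one, Matrix.cons_val_two,
    Matrix.head_cons, Matrix.tail_cons, Matrix.cons_val, map_add, map_sub, map_mul]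
  generalize algebraMap K L (u 0) = a0
  generalize algebraMap K L (u 1) = a1
  generalize algebraMap K L (u 2) = a2
  generalize algebraMap K L (v 0) = b0
  generalize algebraMap K L (v 1) = b1
  generalize algebraMap K L (v 2) = b2
  linear_combination (a1 * b2 + a2 * b1 + a2 * b2 * θ) * hr

private lemma Sb_norm {K L : Type} [Field K] [Field L] [Algebra K L] {a b : K} {θ : L}
    (h : Cub K L a b θ) (d : Fin 3 → K) : Algebra.norm K (ev θ d) = Te_nf a b d := by
  rw [h.norm]
  obtain ⟨e0, e1, e2⟩ := h.co_mk' (d 0) (d 1) (d 2)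
  unfold ev
  rw [e0, e1, e2, Matrix.det_fin_three]
  simp [Te_nf]
  ring

private lemma Sb_nf {F F' : Type*} [CommRing F] [CommRing F'] (φ : F →+* F') (a b : F)
    (z : Fin 3 → F) : φ (Te_nf a b z) = Te_nf (φ a) (φ b) (fun i => φ (z i)) := by
  simp only [Te_nf, map_add, map_sub, map_mul, map_pow]

private lemma Sb_m3 {F F' : Type*} [CommRing F] [CommRing F'] (φ : F →+* F') (a b : F)
    (u v : Fin 3 → F) : (fun i => φ (m3 a b u v i)) =
      m3 (φ a) (φ b) (fun i => φ (u i)) (fun i => φ (v i)) := by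
  funext i
  fin_cases i <;> simp [m3]

private lemma Sb_inj {K L : Type} [Field K] [Field L] [Algebra K L] {a b : K} {θ : L}
    (h : Cub K L a b θ) {u v : Fin 3 → K} (he : ev θ u = ev θ v) : u = v := by
  funext i
  rw [← h.co_mk u i, ← h.co_mk v i]
  exact congrArg _ he

private lemma Sb_hom {k k' L L' : Type} [Field k] [Field k'] [Field L] [Field L'] [Algebra k L]
    [Algebra k' L'] (φ : k →+* k') {a b : k} {a' b' : k'} (ha : φ a = a') (hb : φ b = b') {θ : L}
    {θ' : L'} (h : Cub k L a b θ) (h' : Cub k' L' a' b' θ') :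
    ∃ j : L →+* L', ∀ d : Fin 3 → k, j (ev θ d) = ev θ' (fun i => φ (d i)) := by
  have hco : ∀ d : Fin 3 → k, (fun i => h.co i (ev θ d)) = d := fun d => funext fun i => h.co_mk d i
  have heq : ∀ x : L, x = ev θ (fun i => h.co i x) := fun x => h.eq_co x
  have hmul : ∀ x y : L, (fun i => h.co i (x * y)) = m3 a b (fun i => h.co i x)
      (fun i => h.co i y) := by
    intro x y
    conv_lhs => rw [heq x, heq y, Sb_mul h]
    exact hco _
  refine ⟨{ toFun := fun x => ev θ' (fun i => φ (h.co i x)), map_one' := ?_, map_mul' := ?_,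
            map_zero' := ?_, map_add' := ?_ }, ?_⟩
  · obtain ⟨e0, e1, e2⟩ := h.co_one
    simp only [ev, e0, e1, e2, map_one, map_zero]
    ring
  · intro x y
    rw [Sb_mul h', ← ha, ← hb, ← Sb_m3, ← hmul]
  · simp only [ev, map_zero]
    ring
  · intro x y
    simp only [ev, map_add]
    ring
  · intro d
    change ev θ' (fun i => φ (h.co i (ev θ d))) = _
    have h1 : ∀ i, h.co i (ev θ d) = d i := fun i => h.co_mk d i
    simp only [h1]

private lemma Sb_alg {K L : Type} [Field K] [Field L] [Algebra K L] (θ : L) (x : K) :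
    ev θ ![x, 0, 0] = algebraMap K L x := by
  simp [ev]

theorem exists_sub {k k' L' : Type} [Field k] [NumberField k] [Field k'] [NumberField k'] [Field L']
    [NumberField L'] [Algebra k k'] [Algebra k' L'] {a b : k} {θ' : L'}
    (h : Cub k' L' (algebraMap k k' a) (algebraMap k k' b) θ') :
    ∃ (L : Type) (_ : Field L) (_ : NumberField L) (_ : Algebra k L) (θ : L) (j : L →+* L'),
      Cub k L a b θ ∧ (∀ d : Fin 3 → k, j (ev θ d) = ev θ' (fun i => algebraMap k k' (d i))) ∧
      ∀ x : k, j (algebraMap k L x) = algebraMap k' L' (algebraMap k k' x) := by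
  have hnr : ∀ t : k, t ^ 3 + a * t + b ≠ 0 := by
    intro t ht
    have h1 := congrArg (fun x => algebraMap k' L' (algebraMap k k' x)) ht
    simp only [map_add, map_mul, map_pow, map_zero] at h1
    have h2 := h.root
    obtain ⟨s, hs⟩ : ∃ s, s = algebraMap k k' t := ⟨_, rfl⟩
    rw [← hs] at h1
    have h3 : (θ' - algebraMap k' L' s) * (θ' ^ 2 + algebraMap k' L' s * θ' +
        algebraMap k' L' s ^ 2 + algebraMap k' L' (algebraMap k k' a)) = 0 := by
      linear_combination h2 - h1
    rcases mul_eq_zero.1 h3 with h4 | h4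
    · have h5 := h.li (-s) 1 0 (by
        rw [map_neg, map_one, map_zero]
        linear_combination h4)
      exact one_ne_zero h5.2.1
    · have h5 := h.li (s ^ 2 + algebraMap k k' a) s 1 (by
        rw [map_one, map_add, map_pow]
        linear_combination h4)
      exact one_ne_zero h5.2.2
  obtain ⟨L, i1, i2, i3, θ, hL⟩ := H24PD.exists_cub hnr
  obtain ⟨j, hj⟩ := Sb_hom (algebraMap k k') rfl rfl hL h
  refine ⟨L, i1, i2, i3, θ, j, hL, hj, fun x => ?_⟩
  rw [← Sb_alg θ x, hj, ← Sb_alg θ' (algebraMap k k' x)]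
  congr 1
  funext i
  fin_cases i <;> simp

theorem norm_ev {k k' L L' : Type} [Field k] [Field k'] [Field L] [Field L'] [Algebra k k']
    [Algebra k L] [Algebra k' L'] {a b : k} {θ : L} {θ' : L'} (h : Cub k L a b θ)
    (h' : Cub k' L' (algebraMap k k' a) (algebraMap k k' b) θ') (d : Fin 3 → k) :
    algebraMap k k' (Algebra.norm k (ev θ d)) =
      Algebra.norm k' (ev θ' (fun i => algebraMap k k' (d i))) := by
  rw [Sb_norm h, Sb_norm h', Sb_nf]

theorem exists_tau {k k' L' : Type} [Field k] [NumberField k] [Field k'] [NumberField k'] [Field L']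
    [NumberField L'] [Algebra k k'] [Algebra k' L'] {a b : k} {θ' : L'}
    (h : Cub k' L' (algebraMap k k' a) (algebraMap k k' b) θ') (σ : k' ≃ₐ[k] k')
    (hσ : ∀ x, σ (σ x) = x) (hfix : ∀ x, σ x = x → ∃ y : k, algebraMap k k' y = x) :
    ∃ τ : L' ≃+* L', (∀ d : Fin 3 → k', τ (ev θ' d) = ev θ' (fun i => σ (d i))) ∧
      (∀ x, τ (τ x) = x) ∧ (∀ x : k', τ (algebraMap k' L' x) = algebraMap k' L' (σ x)) ∧
      (∀ x : L', Algebra.norm k' (τ x) = σ (Algebra.norm k' x)) ∧
      ∀ x : L', τ x = x → ∃ d : Fin 3 → k, x = ev θ' (fun i => algebraMap k k' (d i)) := by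
  have ha : (σ : k' →+* k') (algebraMap k k' a) = algebraMap k k' a := σ.commutes a
  have hb : (σ : k' →+* k') (algebraMap k k' b) = algebraMap k k' b := σ.commutes b
  obtain ⟨j, hj0⟩ := Sb_hom (σ : k' →+* k') ha hb h h
  have hj : ∀ d : Fin 3 → k', j (ev θ' d) = ev θ' (fun i => σ (d i)) := hj0
  have heq : ∀ x : L', ∃ d : Fin 3 → k', x = ev θ' d := fun x => ⟨fun i => h.co i x, h.eq_co x⟩
  have hjj : ∀ x, j (j x) = x := by
    intro x
    obtain ⟨d, rfl⟩ := heq x
    rw [hj, hj]
    simp only [hσ]
  refine ⟨{ toFun := j, invFun := j, left_inv := hjj, right_inv := hjj, map_mul' := map_mul j,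
            map_add' := map_add j }, hj, hjj, ?_, ?_, ?_⟩
  · intro x
    change j (algebraMap k' L' x) = _
    rw [← Sb_alg θ' x, hj, ← Sb_alg θ' (σ x)]
    congr 1
    funext i
    fin_cases i <;> simp
  · intro x
    change Algebra.norm k' (j x) = _
    obtain ⟨d, rfl⟩ := heq x
    rw [hj, Sb_norm h, Sb_norm h]
    have h1 := Sb_nf (σ : k' →+* k') (algebraMap k k' a) (algebraMap k k' b) d
    rw [ha, hb] at h1
    exact h1.symm
  · intro x hx
    have hx' : j x = x := hx
    obtain ⟨d, rfl⟩ := heq x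
    rw [hj] at hx'
    have h1 := Sb_inj h hx'
    choose e he using fun i => hfix (d i) (congrFun h1 i)
    refine ⟨e, ?_⟩
    simp only [he]

end H30PN
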