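import Pool.Agent.H30.PN.Sb
import Pool.Agent.H76.PP.Tb
import Pool.Agent.H38.T1.Ea

/-!
ROW Ub (project MP_78d38b_PPN, about 160 lines): base change of an unramified extension of degree at most
two. Use only the STATEMENTS of Sb.

PROOF. `w` a place of `L'`, `w₀ = dn L w`, `v = dn k w₀ = dn k (dn k' w)` (both are the comap of `w.asIdeal` to `𝓞 k`, by `hc`), `v' = dn k' w`.
`ord_dn` for `L → L'`: `ord_w (x) = e * ord_{w₀} x`, `e > 0`. If `e` is odd we are done (`H38T1.eo_sc`: the parity of `e * n` is that of `n`).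
Suppose `e` is even. `exists_tau` gives `τ`.
(0) If `σ = id` (all `x`) then `k → k'` is onto (`hfix`), every `x ∈ L'` is fixed by `τ`, so it comes from `L` (`ev θ' (algebraMap ∘ d) = algebraMap (ev θ d)` by
`hθ`, `hc`), so `e ∣ 1` (a uniformizer of `w` comes from `L`), a contradiction. So there is `α ∈ k'`, `α ≠ 0`, `σ α = - α` (`α = x - σ x`). `α^2` is fixed by `σ`, so
`α^2 = m` comes from `k`. `hun`: `2 ord_{v'} α = ord_{v'} m = ord_v m`. Choose `c ∈ k` with `ord_v c = ord_{v'} α` (a power of a uniformizer of `v`) and replace `α`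
by `α / c`: `ord_{v'} α = 0` (`ord_{v'} c = ord_v c` by `hun`), so `ord_w α = 0` (`val_one`).
(1) The sum over the places `w''` of `L'` above `w₀` of `f e` is at most two: `ord_norm` for `L → L'` and the element `c₀ ∈ L`, a uniformizer of `w₀`:
`Algebra.norm L (algebraMap c₀) = c₀ ^ [L' : L]`, `[L' : L] ≤ 2` (`1, α` generate: `x = (x + τ x)/2 + ((x - τ x)/(2 α)) α`, and both coefficients are
fixed by `τ`, so in `L`), and the terms of the sum for `w''` are `f'' e'' ≥ 1`. So `e = 2` and `w` is the only place above `w₀`. The place `w^τ` (comap of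
`w.asIdeal` under `τ` on `𝓞 L'`) lies above `w₀` (`τ` fixes `L`), so it is `w`: `x ∈ w ↔ τ x ∈ w` for `x ∈ 𝓞 L'`.
(2) Let `x ∈ 𝓞 L'` with `ord_w x = 1` (in `w`, not in `w^2`: `w.intValuation_exists_uniformizer`). `A = (x + τ x) / 2`, `B = (x - τ x) / (2 α)` come from `L`, so have
even orders at `w` (or vanish); `w` is odd so `2` is a unit; `ord_w (τ x) ≥ 1`; so `ord_w A ≥ 1`, `ord_w B ≥ 1`, hence `≥ 2`, and `x = A + B α` has
`ord_w x ≥ 2`, a contradiction.
-/

set_option autoImplicit false
set_option linter.unusedSectionVars false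
open scoped Classical

open WithZero NumberField IsDedekindDomain H38RT H76PP
open H38T1 (SC sc scu rep eo la si Pri OddP tp unif)

namespace H30PN

theorem unr_base {k k' L L' : Type} [Field k] [NumberField k] [Field k'] [NumberField k']
    [Field L] [NumberField L] [Field L'] [NumberField L'] [Algebra k k'] [Algebra k L]
    [Algebra k' L'] [Algebra L L']
    (hc : ∀ x : k, algebraMap L L' (algebraMap k L x) = algebraMap k' L' (algebraMap k k' x))
    {a b : k} {θ : L} {θ' : L'} (hL : Cub k L a b θ)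
    (hL' : Cub k' L' (algebraMap k k' a) (algebraMap k k' b) θ') (hθ : algebraMap L L' θ = θ')
    (σ : k' ≃ₐ[k] k') (hσ : ∀ x, σ (σ x) = x)
    (hfix : ∀ x, σ x = x → ∃ y : k, algebraMap k k' y = x) {w : HeightOneSpectrum (𝓞 L')}
    (hw : OddP w) (hun : Unr k k' (dn k (dn L w))) {x : L} (hx : x ≠ 0)
    (h : eo w (sc (algebraMap L L' x)) = 0) : eo (dn L w) (sc x) = 0 := by
  obtain ⟨e, he, hord⟩ := ord_dn (K := L) w
  have hx' : algebraMap L L' x ≠ 0 := fun h1 => hx ((algebraMap L L').injective (by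
    rw [h1, map_zero]))
  rw [H38T1.eo_sc hx', hord x hx] at h
  rw [H38T1.eo_sc hx]
  rcases Nat.even_or_odd e with hev | hodd
  · exfalso
    obtain ⟨e', he'⟩ := hev
    obtain ⟨τ, t1, t2, t3, -, t5⟩ := exists_tau hL' σ hσ hfix
    obtain ⟨V, hV⟩ : ∃ V, V = w.valuation L' := ⟨_, rfl⟩
    have hfx : ∀ z : L', τ z = z → z ≠ 0 → ∃ m : ℤ, ord V z = 2 * m := by
      intro z hz hz0
      obtain ⟨d, hd⟩ := t5 z hz
      have hy : z = algebraMap L L' (ev θ d) := by
        rw [hd]
        unfold ev
        rw [map_add, map_add, map_mul, map_mul, map_pow, hc, hc, hc, hθ]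
      have hy0 : ev θ d ≠ 0 := by
        intro h1
        rw [h1, map_zero] at hy
        exact hz0 hy
      refine ⟨e' * ord ((dn L w).valuation L) (ev θ d), ?_⟩
      rw [hV, hy, hord _ hy0, he']
      push_cast
      ring
    have hfx2 : ∀ z : L', τ z = z → V z ≤ exp (-1 : ℤ) → V z ≤ exp (-2 : ℤ) := by
      intro z hz h1
      by_cases hz0 : z = 0
      · rw [hz0, map_zero]
        exact zero_le
      · obtain ⟨m, hm⟩ := hfx z hz hz0
        rw [V_eq hz0, exp_le_exp] at h1 ⊢
        omega
    obtain ⟨r, hr⟩ := w.valuation_exists_uniformizer' L'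
    rw [← hV] at hr
    obtain ⟨r', hr'⟩ : ∃ r' : L', r' = (r : L') := ⟨_, rfl⟩
    change V (r : L') = _ at hr
    have hint : IsIntegral ℤ (r : L') := RingOfIntegers.isIntegral_coe r
    rw [← hr'] at hr hint
    have hr0 : r' ≠ 0 := by
      intro h1
      rw [h1, map_zero] at hr
      exact exp_ne_zero hr.symm
    have hτr0 : τ r' ≠ 0 := fun h1 => hr0 (by
      rw [← t2 r', h1, map_zero])
    have hτint : IsIntegral ℤ (τ r') := map_isIntegral_int τ hint
    have hτle : V (τ r') ≤ 1 := by
      rw [hV]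
      exact w.valuation_le_one (K := L') (⟨τ r', hτint⟩ : 𝓞 L')
    have hor : ord V r' = 1 := by
      unfold ord
      rw [hr, log_exp]
      norm_num
    have hτ1 : V (τ r') ≤ exp (-1 : ℤ) := by
      obtain ⟨m, hm⟩ := hfx (r' * τ r') (by
        rw [map_mul, t2, mul_comm]) (mul_ne_zero hr0 hτr0)
      rw [ord_mul hr0 hτr0, hor] at hm
      rw [V_eq hτr0, ← exp_zero, exp_le_exp] at hτle
      rw [V_eq hτr0, exp_le_exp]
      omega
    by_cases hid : ∀ t, σ t = t
    · have hz : τ r' = r' := by
        obtain ⟨c0, c1, c2, hcc⟩ := hL'.sp r'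
        have h1 : r' = ev θ' ![c0, c1, c2] := hcc
        rw [h1, t1]
        congr 1
        funext i
        exact hid _
      obtain ⟨m, hm⟩ := hfx r' hz hr0
      omega
    · push Not at hid
      obtain ⟨t, ht⟩ := hid
      have hα0 : t - σ t ≠ 0 := sub_ne_zero.2 (Ne.symm ht)
      have hα1 : σ (t - σ t) = -(t - σ t) := by
        rw [map_sub, hσ]
        ring
      have hdn : dn k (dn k' w) = dn k (dn L w) := by
        apply HeightOneSpectrum.ext
        ext y
        have h2 : algebraMap (𝓞 k') (𝓞 L') (algebraMap (𝓞 k) (𝓞 k') y) =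
            algebraMap (𝓞 L) (𝓞 L') (algebraMap (𝓞 k) (𝓞 L) y) := by
          apply RingOfIntegers.coe_injective
          exact (hc (y : k)).symm
        change algebraMap (𝓞 k') (𝓞 L') (algebraMap (𝓞 k) (𝓞 k') y) ∈ w.asIdeal ↔
          algebraMap (𝓞 L) (𝓞 L') (algebraMap (𝓞 k) (𝓞 L) y) ∈ w.asIdeal
        rw [h2]
      obtain ⟨ϖ, hϖ⟩ := (dn k (dn L w)).valuation_exists_uniformizer k
      have hϖ' : (dn k' w).valuation k' (algebraMap k k' ϖ) = exp (-1 : ℤ) := by
        rw [hun (dn k' w) hdn, hϖ]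
      obtain ⟨n, hn⟩ : ∃ n, n = ord ((dn k' w).valuation k') (t - σ t) := ⟨_, rfl⟩
      have hcv : (dn k' w).valuation k' (algebraMap k k' ϖ ^ n) = exp (-n) := by
        rw [map_zpow₀, hϖ', ← exp_zsmul]
        congr 1
        rw [smul_eq_mul]
        ring
      obtain ⟨α, hα⟩ : ∃ α, α = (t - σ t) / (algebraMap k k' ϖ ^ n) := ⟨_, rfl⟩
      have hαv : (dn k' w).valuation k' α = 1 := by
        rw [hα, map_div₀, hcv, V_eq hα0, ← hn, div_self exp_ne_zero]
      have hασ : σ α = -α := by
        rw [hα, map_div₀, hα1, map_zpow₀, AlgEquiv.commutes, neg_div]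
      have hVa : V (algebraMap k' L' α) = 1 := by
        rw [hV]
        exact val_one hαv
      have hτa : τ (algebraMap k' L' α) = -algebraMap k' L' α := by
        rw [t3, hασ, map_neg]
      obtain ⟨a', ha'⟩ : ∃ a', a' = algebraMap k' L' α := ⟨_, rfl⟩
      rw [← ha'] at hVa hτa
      have ha0 : a' ≠ 0 := by
        rintro rfl
        rw [map_zero] at hVa
        exact zero_ne_one hVa
      have hP := hfx2 (r' + τ r') (by rw [map_add, t2, add_comm])
        ((Valuation.map_add V _ _).trans (max_le hr.le hτ1))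
      have hQ := hfx2 ((r' - τ r') / a') (by
        rw [map_div₀, map_sub, t2, hτa, div_neg, ← neg_div, neg_sub])
        (by
          rw [map_div₀, hVa, div_one]
          exact (Valuation.map_sub V _ _).trans (max_le hr.le hτ1))
      have h2r : 2 * r' = (r' + τ r') + a' * ((r' - τ r') / a') := by
        rw [mul_div_cancel₀ _ ha0]
        ring
      have h2v : V (2 * r') = exp (-1 : ℤ) := by
        have h2 : V 2 = 1 := by
          rw [hV]
          exact hw
        rw [map_mul, h2, one_mul, hr]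
      have hle : V (2 * r') ≤ exp (-2 : ℤ) := by
        rw [h2r]
        refine (Valuation.map_add V _ _).trans (max_le hP ?_)
        rw [map_mul, hVa, one_mul]
        exact hQ
      rw [h2v, exp_le_exp] at hle
      omega
  · obtain ⟨q, hq⟩ := hodd
    have h1 : ((e : ℤ) : ZMod 2) = 1 := by
      rw [hq]
      push_cast
      have h2 : (2 : ZMod 2) = 0 := by decide
      rw [h2]
      ring
    rw [Int.cast_mul, h1, one_mul] at h
    exact h

end H30PN
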