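import Pool.Agent.H30.PN.Mv
import Pool.Agent.H30.PN.Ab
import Pool.Agent.H30.PN.Hn
import Pool.Agent.H30.PN.Ub
import Pool.Agent.H30.PN.Um
import Pool.Agent.H24.PD.Lf

/-!
ROW St (project MP_78d38b_PPN, about 200 lines): the step of the Nakayama argument. Use only the STATEMENTS
of the imported rows.

PROOF. Let `L', θ', hL'` and `d` with `WL S a b θ' d`, `δ = ev θ' d`. `algebraMap K k' a = algebraMap k k' (algebraMap K k a)` (tower). `exists_sub`
(for `algebraMap K k a`, `algebraMap K k b`) gives `L, θ, j`; `letI : Algebra L L' := j.toAlgebra`; `exists_tau` gives `τ`; `j θ = θ'` (`ev θ (0,1,0) = θ`).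
CLAIM F: if `WL S a b θ' d` and `τ (ev θ' d) = ev θ' d * z ^ 2` then `IsSquare (ev θ' d)`. Proof: `fixed_class` (`Cub.finrank`) gives `y`, `r`; `δ₀ = δ y^2` is fixed by `τ`, so
`δ₀ = ev θ' (algebraMap ∘ d₀) = j (ev θ d₀)`. Then `WL S a b θ d₀`: ne: `δ₀ ≠ 0`. nm: `algebraMap k k' (norm (ev θ d₀)) = norm δ₀ = r^2` (norm_ev), `r` comes from
`k` (hfix), `algebraMap` is injective. evn: `w₀` a place of `L`, `v = dn k w₀`, `dn K v ∉ S`. If `Inr k v ..`: use it with nm. If `Unr k k' v`: let `w` be a place of `L'`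
above `w₀` (`exists_above`); `dn k (dn k' w) = dn k w₀` (dn_dn), `eo w (sc (j (ev θ d₀))) = eo w (sc δ) = 0` (`WL.evn`; `sc (δ y^2) = sc δ`; `dn K (dn k' w) =
dn K (dn k w₀)` by dn_dn); `w` is odd since `dn K .. ∉ S ⊇ P2 K` (`oddP_dn`); `unr_base`. loc: `v ∈ S`, `ι : k →ₐ[K] K_v`; `hext` gives `ι'`; `WL.loc` for `ι'` gives
`LC ι' a b d`; `LC_of_ev` (with `δ₀ = δ y^2`) gives `LC ι' a b (algebraMap ∘ d₀)`, which is `LC ι a b d₀` (unfold `LC`; `ι' (algebraMap x) = ι x`).
`hk L θ` gives that `ev θ d₀` is a square in `L`, so `δ₀` is a square in `L'`, so `δ = δ₀ / y^2` is one.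
MAIN: `WL S a b θ' d`. Let `d₂ = m3 a' b' d (σ ∘ d)`, `ev θ' d₂ = δ τ δ` (ev_m3). `WL S a b θ' d₂`: ne, nm clear (`norm (τ δ) = σ (norm δ)`). evn: `eo` is additive
(`H38T1.sc_mul`, `H38T1.eo_add`), `eo w (sc (τ δ)) = eo w₀ (sc δ)` by eo_move (`φ = τ`, `k = k'`; `τ` fixes the image of `K`: `σ` is a `k`-automorphism). loc:
`LC_mul` (infinite: `inf_fin`; `CharZero` of the completion as in `H24/PD/Lf.lean`) for `d` and `σ ∘ d`, where `LC ι' a b (σ ∘ d)` is `LC (ι' ∘ σ) a b d` and
`ι'.comp (σ.restrictScalars K)` is again an embedding `k' →ₐ[K] K_v`. `τ (δ τ δ) = δ τ δ`: CLAIM F with `z = 1`: `δ τ δ = s * s`. So `τ δ = δ (s / δ)^2`, and CLAIM F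
for `d` gives that `δ` is a square.
-/

set_option autoImplicit false
set_option linter.unusedSectionVars false
open scoped Classical

open WithZero NumberField IsDedekindDomain H38RT H76PP
open H38T1 (SC sc scu rep eo la si Pri OddP tp unif)

namespace H30PN

theorem step {K k k' : Type} [Field K] [NumberField K] [Field k] [NumberField k] [Field k']
    [NumberField k'] [Algebra K k] [Algebra K k'] [Algebra k k'] [IsScalarTower K k k']
    {S : Set (HeightOneSpectrum (𝓞 K))} (hS : P2 K ⊆ S) {a b : K}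
    (hd : 4 * a ^ 3 + 27 * b ^ 2 ≠ 0) (σ : k' ≃ₐ[k] k') (hσ : ∀ x, σ (σ x) = x)
    (hfix : ∀ x, σ x = x → ∃ y : k, algebraMap k k' y = x)
    (hext : ∀ v ∈ S, ∀ ι : k →ₐ[K] v.adicCompletion K, ∃ ι' : k' →ₐ[K] v.adicCompletion K,
      ∀ x : k, ι' (algebraMap k k' x) = ι x)
    (hpl : ∀ v : HeightOneSpectrum (𝓞 k), dn K v ∉ S →
      Inr k v (algebraMap K k a) (algebraMap K k b) ∨ Unr k k' v)
    (hk : XT K k S a b) : XT K k' S a b := by
  intro L' _ _ _ θ' hL' d hW
  have ea : algebraMap K k' a = algebraMap k k' (algebraMap K k a) :=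
    IsScalarTower.algebraMap_apply K k k' a
  have eb : algebraMap K k' b = algebraMap k k' (algebraMap K k b) :=
    IsScalarTower.algebraMap_apply K k k' b
  have hL'' : Cub k' L' (algebraMap k k' (algebraMap K k a)) (algebraMap k k' (algebraMap K k b))
      θ' := by
    rw [← ea, ← eb]
    exact hL'
  obtain ⟨L, _, _, _, θ, j, hL, hj, hjk⟩ := exists_sub hL''
  let alg : Algebra L L' := j.toAlgebra
  have halg : ∀ x : L, algebraMap L L' x = j x := fun _ => rfl
  obtain ⟨τ, hτ1, hτ2, hτ3, hτ4, hτ5⟩ := exists_tau hL'' σ hσ hfix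
  have hθ : algebraMap L L' θ = θ' := by
    have h1 := hj ![0, 1, 0]
    have h2 : ev (K := k) θ ![0, 1, 0] = θ := by
      unfold ev
      simp
    have h3 : ev θ' (fun i => algebraMap k k' ((![0, 1, 0] : Fin 3 → k) i)) = θ' := by
      unfold ev
      simp
    rw [h2, h3] at h1
    exact h1
  -- the claim for classes fixed by `τ`
  have claimF : ∀ d : Fin 3 → k', WL S a b θ' d → ∀ z : L', τ (ev θ' d) = ev θ' d * z ^ 2 →
      IsSquare (ev θ' d) := by
    intro d hW z hz
    obtain ⟨y, hy0, hfixed, r, hr, hNr⟩ := fixed_class (k' := k') (L' := L') hL'.finrank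
      (σ : k' →+* k') hσ (τ : L' →+* L') hτ2 hτ3 hτ4 hW.ne hW.nm hz
    obtain ⟨d₀, hd₀⟩ := hτ5 (ev θ' d * y ^ 2) hfixed
    have hjd : j (ev θ d₀) = ev θ' d * y ^ 2 := by rw [hj, hd₀]
    have hne0 : ev θ d₀ ≠ 0 := by
      intro h0
      rw [h0, map_zero] at hjd
      exact mul_ne_zero hW.ne (pow_ne_zero 2 hy0) hjd.symm
    have hnm : IsSquare (Algebra.norm k (ev θ d₀)) := by
      have h1 := norm_ev hL hL'' d₀
      rw [← hd₀, hNr] at h1
      obtain ⟨s, hs⟩ := hfix r hr
      refine ⟨s, (algebraMap k k').injective ?_⟩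
      rw [h1, map_mul, hs, sq]
    have hWL : WL S a b θ d₀ := by
      refine ⟨hne0, hnm, ?_, ?_⟩
      · intro w₀ hw₀
        rcases hpl (dn k w₀) hw₀ with h | h
        · exact h L θ hL w₀ rfl (ev θ d₀) hne0 hnm
        · obtain ⟨w, hw⟩ := exists_above (K := L) (L := L') w₀
          rw [← hw] at hw₀ h ⊢
          have e1 : dn k (dn L w) = dn k (dn k' w) :=
            dn_dn (K := k) (k := L) (k' := k') (N := L') (fun x => by rw [halg, hjk]) w
          have e2 : dn K (dn k (dn k' w)) = dn K (dn k' w) := by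
            have e3 := dn_dn (K := K) (k := k) (k' := k') (N := k')
              (fun x => (IsScalarTower.algebraMap_apply K k k' x).symm) (dn k' w)
            rw [dn_self] at e3
            exact e3
          have hwS : dn K (dn k' w) ∉ S := by
            rw [← e2, ← e1]
            exact hw₀
          have hodd : OddP w := by
            rw [oddP_dn (K := k'), oddP_dn (K := K)]
            by_contra hno
            exact hwS (hS (H38T1.not_oddP.1 hno))
          have hev := hW.evn w hwS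
          have hjne : ev θ' d * y ^ 2 ≠ 0 := mul_ne_zero hW.ne (pow_ne_zero 2 hy0)
          have hev2 : eo w (sc (algebraMap L L' (ev θ d₀))) = 0 := by
            rw [halg, hjd, H38T1.sc_mul hW.ne (pow_ne_zero 2 hy0), sq, H38T1.sc_mul hy0 hy0,
              H38T1.eo_add, H38T1.eo_add, hev, zero_add]
            exact CharTwo.add_self_eq_zero _
          exact unr_base (fun x => by rw [halg, hjk]) hL hL'' hθ σ hσ hfix hodd h hne0 hev2
      · intro v hv ι
        obtain ⟨ι', hι'⟩ := hext v hv ι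
        have h1 := hW.loc v hv ι'
        have h2 : LC (ι' : k' →+* v.adicCompletion K) (algebraMap K k' a) (algebraMap K k' b)
            (fun i => algebraMap k k' (d₀ i)) :=
          LC_of_ev (ι' : k' →+* v.adicCompletion K) hL' h1 (y := y) hd₀.symm
        obtain ⟨x, yy, zz, g1, g2, g3⟩ := h2
        have f1 : (ι' : k' →+* v.adicCompletion K) (algebraMap K k' a) =
            (ι : k →+* v.adicCompletion K) (algebraMap K k a) := by
          rw [ea]
          exact hι' _
        have f2 : (ι' : k' →+* v.adicCompletion K) (algebraMap K k' b) =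
            (ι : k →+* v.adicCompletion K) (algebraMap K k b) := by
          rw [eb]
          exact hι' _
        have f3 : (fun j => (ι' : k' →+* v.adicCompletion K) (algebraMap k k' (d₀ j))) =
            fun j => (ι : k →+* v.adicCompletion K) (d₀ j) := by
          funext i
          exact hι' _
        rw [f1, f2] at g2 g3
        rw [f3] at g3
        exact ⟨x, yy, zz, g1, g2, g3⟩
    obtain ⟨s, hs⟩ := hk L θ hL d₀ hWL
    refine ⟨j s / y, ?_⟩
    have h1 : ev θ' d * y ^ 2 = j s * j s := by rw [← hjd, hs, map_mul]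
    rw [div_mul_div_comm, eq_div_iff (mul_ne_zero hy0 hy0), ← sq y]
    exact h1
  -- the main argument
  have hσK : ∀ x : K, σ (algebraMap K k' x) = algebraMap K k' x := by
    intro x
    rw [IsScalarTower.algebraMap_apply K k k', σ.commutes]
  obtain ⟨d₂, hd₂⟩ : ∃ d₂, d₂ = m3 (algebraMap K k' a) (algebraMap K k' b) d (fun i => σ (d i)) :=
    ⟨_, rfl⟩
  have hev₂ : ev θ' d₂ = ev θ' d * τ (ev θ' d) := by
    rw [hd₂, ev_m3 hL', hτ1]
  have hτne : τ (ev θ' d) ≠ 0 := (map_ne_zero τ).2 hW.ne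
  have hW₂ : WL S a b θ' d₂ := by
    refine ⟨?_, ?_, ?_, ?_⟩
    · rw [hev₂]
      exact mul_ne_zero hW.ne hτne
    · obtain ⟨n, hn⟩ := hW.nm
      refine ⟨n * σ n, ?_⟩
      rw [hev₂, map_mul, hτ4, hn, map_mul]
      ring
    · intro w hw
      obtain ⟨w₀, hw₀, hmv⟩ := eo_move (K := K) (k := k') (k' := k') (L := L') (L' := L') τ
        (fun x => by rw [hτ3, hσK]) w
      have h1 := hW.evn w hw
      have h2 := hW.evn w₀ (by rw [hw₀]; exact hw)
      rw [hmv _ hW.ne] at h2
      rw [hev₂, H38T1.sc_mul hW.ne hτne, H38T1.eo_add, h1, h2, add_zero]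
    · intro v hv ι
      have hchar : CharZero (v.adicCompletion K) :=
        charZero_of_injective_algebraMap (algebraMap K (v.adicCompletion K)).injective
      have hd' : 4 * (algebraMap K k' a) ^ 3 + 27 * (algebraMap K k' b) ^ 2 ≠ 0 := by
        intro h0
        apply hd
        apply (algebraMap K k').injective
        rw [map_add, map_mul, map_mul, map_pow, map_pow, map_ofNat, map_ofNat, h0, map_zero]
      rw [hd₂]
      refine LC_mul (ι : k' →+* v.adicCompletion K) hd' (H24PD.inf_fin v _ _) (hW.loc v hv ι) ?_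
      have h1 := hW.loc v hv (ι.comp ((σ.restrictScalars K).toAlgHom))
      obtain ⟨x, yy, zz, g1, g2, g3⟩ := h1
      have f : ∀ x : K, (((ι.comp ((σ.restrictScalars K).toAlgHom)) : k' →ₐ[K] v.adicCompletion K) :
          k' →+* v.adicCompletion K) (algebraMap K k' x) =
            (ι : k' →+* v.adicCompletion K) (algebraMap K k' x) := by
        intro x
        change ι (σ (algebraMap K k' x)) = ι (algebraMap K k' x)
        rw [hσK]
      rw [f, f] at g2 g3
      exact ⟨x, yy, zz, g1, g2, g3⟩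
  have h1 : τ (ev θ' d₂) = ev θ' d₂ * 1 ^ 2 := by
    rw [hev₂, map_mul, hτ2]
    ring
  obtain ⟨s, hs⟩ := claimF d₂ hW₂ 1 h1
  rw [hev₂] at hs
  refine claimF d hW (s / ev θ' d) ?_
  have hne := hW.ne
  field_simp
  linear_combination hs

end H30PN
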